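import Pool.Agent.AG.Defs

/-!
# [AG-B1] balls
-/

set_option autoImplicit false

namespace AG

open scoped Pointwise

variable {G : Type*} [Group G]

theorem one_mem_ball (S : Finset G) (n : ℕ) : (1 : G) ∈ ball S n :=
  ⟨[], by simp, by simp, by simp⟩

theorem ball_mono (S : Finset G) {m n : ℕ} (h : m ≤ n) : ball S m ⊆ ball S n := by
  rintro g ⟨l, hl, hS, hp⟩
  exact ⟨l, hl.trans h, hS, hp⟩

/-- append the lists -/
theorem mul_mem_ball {S : Finset G} {m n : ℕ} {g h : G} (hg : g ∈ ball S m) (hh : h ∈ ball S n) :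
    g * h ∈ ball S (m + n) := by
  obtain ⟨l, hl, hS, rfl⟩ := hg
  obtain ⟨l', hl', hS', rfl⟩ := hh
  refine ⟨l ++ l', ?_, ?_, ?_⟩
  · rw [List.length_append]; omega
  · intro x hx
    rcases List.mem_append.1 hx with hx | hx
    · exact hS x hx
    · exact hS' x hx
  · rw [List.prod_append]

/-- reverse the list of the inverses (`List.prod_inv_reverse`) -/
theorem inv_mem_ball {S : Finset G} {n : ℕ} {g : G} (hg : g ∈ ball S n) : g⁻¹ ∈ ball S n := by
  obtain ⟨l, hl, hS, rfl⟩ := hg
  refine ⟨(l.map fun x => x⁻¹).reverse, ?_, ?_, ?_⟩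
  · simpa using hl
  · intro x hx
    rw [List.mem_reverse, List.mem_map] at hx
    obtain ⟨y, hy, rfl⟩ := hx
    rcases hS y hy with h | h
    · right; simpa using h
    · left; exact h
  · rw [List.prod_inv_reverse]

theorem mem_ball_one {S : Finset G} {s : G} (hs : s ∈ S) : s ∈ ball S 1 :=
  ⟨[s], by simp, by simp [hs], by simp⟩

theorem pow_mem_ball {S : Finset G} {k : ℕ} {g : G} (hg : g ∈ ball S k) (n : ℕ) :
    g ^ n ∈ ball S (n * k) := by
  induction n with
  | zero => rw [pow_zero]; exact one_mem_ball _ _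
  | succ n ih =>
    rw [pow_succ, Nat.succ_mul]
    exact mul_mem_ball ih hg

theorem ball_subset_closure (S : Finset G) (n : ℕ) {g : G} (hg : g ∈ ball S n) :
    g ∈ Subgroup.closure (S : Set G) := by
  obtain ⟨l, -, hS, rfl⟩ := hg
  refine Subgroup.list_prod_mem _ ?_
  intro x hx
  rcases hS x hx with h | h
  · exact Subgroup.subset_closure (by exact_mod_cast h)
  · have := Subgroup.subset_closure (k := (S : Set G)) (show x⁻¹ ∈ (S : Set G) by exact_mod_cast h)
    exact (Subgroup.inv_mem_iff _).1 this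

/-- `Subgroup.closure_induction` -/
theorem exists_mem_ball {S : Finset G} {g : G} (hg : g ∈ Subgroup.closure (S : Set G)) :
    ∃ n, g ∈ ball S n := by
  induction hg using Subgroup.closure_induction with
  | mem x hx => exact ⟨1, mem_ball_one (by exact_mod_cast hx)⟩
  | one => exact ⟨0, one_mem_ball _ _⟩
  | mul x y _ _ hx hy =>
    obtain ⟨m, hm⟩ := hx
    obtain ⟨n, hn⟩ := hy
    exact ⟨m + n, mul_mem_ball hm hn⟩
  | inv x _ hx =>
    obtain ⟨m, hm⟩ := hx
    exact ⟨m, inv_mem_ball hm⟩

/-- a finite set of elements of the subgroup is contained in a ball -/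
theorem exists_ball_subset (S : Finset G) (T : Finset G)
    (hT : ∀ t ∈ T, t ∈ Subgroup.closure (S : Set G)) : ∃ n, ∀ t ∈ T, t ∈ ball S n := by
  classical
  induction T using Finset.induction_on with
  | empty => exact ⟨0, by simp⟩
  | insert a T ha ih =>
    obtain ⟨n, hn⟩ := ih fun t ht => hT t (Finset.mem_insert_of_mem ht)
    obtain ⟨m, hm⟩ := exists_mem_ball (hT a (Finset.mem_insert_self a T))
    refine ⟨max m n, fun t ht => ?_⟩
    rcases Finset.mem_insert.1 ht with rfl | ht
    · exact ball_mono S (le_max_left _ _) hm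
    · exact ball_mono S (le_max_right _ _) (hn t ht)

/-- change of the generators: if all letters of `T` are in `ball S k`, then `ball T n ⊆ ball S (k n)` -/
theorem ball_subset_ball {S T : Finset G} {k : ℕ} (h : ∀ t ∈ T, t ∈ ball S k) (n : ℕ) :
    ball T n ⊆ ball S (k * n) := by
  rintro g ⟨l, hl, hS, rfl⟩
  refine ball_mono S (Nat.mul_le_mul_left k hl) ?_
  clear hl
  induction l with
  | nil => simpa using one_mem_ball S 0
  | cons a l ih =>
    rw [List.prod_cons, List.length_cons, Nat.mul_succ, Nat.add_comm]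
    refine mul_mem_ball ?_ (ih fun x hx => hS x (List.mem_cons_of_mem _ hx))
    rcases hS a List.mem_cons_self with ha | ha
    · exact h a ha
    · simpa using inv_mem_ball (h _ ha)

theorem b1_subset (S : Finset G) (n : ℕ) :
    ∃ A : Finset G, ball S n ⊆ (A : Set G) ∧ A.card ≤ (2 * S.card + 1) ^ n := by
  classical
  let B : Finset G := insert 1 (S ∪ S⁻¹)
  have hB : B.card ≤ 2 * S.card + 1 := by
    have h1 : B.card ≤ (S ∪ S⁻¹).card + 1 := Finset.card_insert_le _ _
    have h2 : (S ∪ S⁻¹).card ≤ S.card + (S⁻¹).card := Finset.card_union_le _ _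
    have h3 : (S⁻¹).card = S.card := Finset.card_inv S
    omega
  refine ⟨B ^ n, ?_, ?_⟩
  · rintro g ⟨l, hl, hS, rfl⟩
    have h1 : (1 : G) ∈ B := Finset.mem_insert_self _ _
    have h2 : l.prod ∈ B ^ l.length := by
      clear hl
      induction l with
      | nil => simp
      | cons a l ih =>
        rw [List.prod_cons, List.length_cons, pow_succ']
        refine Finset.mul_mem_mul ?_ (ih fun x hx => hS x (List.mem_cons_of_mem _ hx))
        refine Finset.mem_insert_of_mem (Finset.mem_union.2 ?_)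
        rcases hS a List.mem_cons_self with ha | ha
        · exact Or.inl ha
        · exact Or.inr (Finset.mem_inv'.2 ha)
    exact Finset.mem_coe.2 (Finset.pow_subset_pow_right h1 hl h2)
  · exact Finset.card_pow_le.trans (Nat.pow_le_pow_left hB n)

/-- PROOF. Induction on `n`: `ball S (n+1) ⊆ {1} ∪ ⋃_{s ∈ S} (s * ball S n ∪ s⁻¹ * ball S n)`; or: the elements are products of
lists of length exactly `n` of the at most `2 |S| + 1` elements of `insert 1 (S ∪ S⁻¹)` (pad with `1`). -/
theorem ball_finite (S : Finset G) (n : ℕ) : (ball S n).Finite := by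
  obtain ⟨A, hA, -⟩ := b1_subset S n
  exact A.finite_toSet.subset hA

/-- same proof -/
theorem ball_ncard_le (S : Finset G) (n : ℕ) : (ball S n).ncard ≤ (2 * S.card + 1) ^ n := by
  obtain ⟨A, hA, hc⟩ := b1_subset S n
  refine (Set.ncard_le_ncard hA A.finite_toSet).trans ?_
  rw [Set.ncard_coe_finset]
  exact hc

/-- lifting along a surjection: if every letter of `S'` is the image of an element of `ball S k`, then every element of
`ball S' n` is the image of an element of `ball S (k n)`. PROOF. Induction on the list. -/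
theorem ball_lift {Q : Type*} [Group Q] (f : G →* Q) {S : Finset G} {S' : Finset Q} {k : ℕ}
    (h : ∀ s ∈ S', ∃ g ∈ ball S k, f g = s) (n : ℕ) {q : Q} (hq : q ∈ ball S' n) :
    ∃ g ∈ ball S (k * n), f g = q := by
  obtain ⟨l, hl, hS, rfl⟩ := hq
  suffices hh : ∃ g ∈ ball S (k * l.length), f g = l.prod by
    obtain ⟨g, hg, hfg⟩ := hh
    exact ⟨g, ball_mono S (Nat.mul_le_mul_left k hl) hg, hfg⟩
  clear hl
  induction l with
  | nil => exact ⟨1, one_mem_ball _ _, by simp⟩
  | cons a l ih =>
    obtain ⟨g, hg, hfg⟩ := ih fun x hx => hS x (List.mem_cons_of_mem _ hx)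
    have ha : ∃ b ∈ ball S k, f b = a := by
      rcases hS a List.mem_cons_self with ha | ha
      · exact h a ha
      · obtain ⟨b, hb, hfb⟩ := h _ ha
        exact ⟨b⁻¹, inv_mem_ball hb, by rw [map_inv, hfb, inv_inv]⟩
    obtain ⟨b, hb, hfb⟩ := ha
    refine ⟨b * g, ?_, ?_⟩
    · rw [List.length_cons, Nat.mul_succ, Nat.add_comm]
      exact mul_mem_ball hb hg
    · rw [map_mul, hfb, hfg, List.prod_cons]

end AG
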