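import Pool.Agent.AG.B1

/-!
# [AG-B2] growth functions: elementary facts
-/

set_option autoImplicit false

namespace AG

variable {G : Type*} [Group G]

theorem autOrbit_self (g : G) : g ∈ autOrbit g := ⟨1, rfl⟩

/-- `MulAut G` is a group: `autOrbit g = autOrbit h` iff `φ g = h` for some `φ`. -/
theorem autOrbit_eq_iff (g h : G) : autOrbit g = autOrbit h ↔ ∃ φ : MulAut G, φ g = h := by
  constructor
  · intro he
    have h1 : h ∈ autOrbit g := by
      rw [he]
      exact autOrbit_self h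
    exact h1
  · rintro ⟨φ, rfl⟩
    ext x
    constructor
    · rintro ⟨ψ, rfl⟩
      refine ⟨ψ * φ⁻¹, ?_⟩
      rw [MulAut.mul_apply, MulAut.inv_apply_self]
    · rintro ⟨ψ, rfl⟩
      exact ⟨ψ * φ, rfl⟩

theorem autGrowth_mono (S : Finset G) {m n : ℕ} (h : m ≤ n) : autGrowth S m ≤ autGrowth S n := by
  exact Set.ncard_le_ncard (Set.image_mono (ball_mono S h)) ((ball_finite S n).image _)

theorem autGrowth_le_wordGrowth (S : Finset G) (n : ℕ) : autGrowth S n ≤ wordGrowth S n := by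
  exact Set.ncard_image_le (ball_finite S n)

/-- PROOF. `a ≤ 2 ^ a`; `f n ≤ 2 ^ (a n)`. -/
theorem dom_two_pow (f : ℕ → ℕ) (a : ℕ) (h : ∀ n, f n ≤ a ^ n) : Dom f (fun n => 2 ^ n) := by
  refine ⟨a + 1, by omega, fun n => ?_⟩
  have h1 : f n ≤ 2 ^ (a * n) := by
    refine (h n).trans ?_
    rw [pow_mul]
    exact Nat.pow_le_pow_left (Nat.lt_two_pow_self).le n
  have h2 : 2 ^ (a * n) ≤ 2 ^ ((a + 1) * n + (a + 1)) := by
    refine Nat.pow_le_pow_right (by norm_num) ?_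
    nlinarith
  have h3 : 2 ^ ((a + 1) * n + (a + 1)) ≤ (a + 1) * 2 ^ ((a + 1) * n + (a + 1)) :=
    Nat.le_mul_of_pos_left _ (by omega)
  show f n ≤ (a + 1) * 2 ^ ((a + 1) * n + (a + 1)) + (a + 1)
  omega

theorem dom_wordGrowth (S : Finset G) : Dom (wordGrowth S) (fun n => 2 ^ n) := by
  exact dom_two_pow _ (2 * S.card + 1) (ball_ncard_le S)

theorem dom_autGrowth (S : Finset G) : Dom (autGrowth S) (fun n => 2 ^ n) := by
  exact dom_two_pow _ (2 * S.card + 1) fun n =>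
    (autGrowth_le_wordGrowth S n).trans (ball_ncard_le S n)

theorem b2_pow (d x : ℕ) : x ^ d ≤ d ^ d * 2 ^ (x + d) := by
  rcases Nat.eq_zero_or_pos d with rfl | hd
  · simp only [pow_zero, one_mul, Nat.add_zero]
    exact Nat.one_le_two_pow
  · have h1 : x ≤ d * 2 ^ (x / d + 1) := by
      have h2 := Nat.lt_mul_div_succ x hd
      have h3 : x / d + 1 < 2 ^ (x / d + 1) := Nat.lt_two_pow_self
      have h4 : d * (x / d + 1) ≤ d * 2 ^ (x / d + 1) := Nat.mul_le_mul_left d h3.le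
      omega
    calc x ^ d ≤ (d * 2 ^ (x / d + 1)) ^ d := Nat.pow_le_pow_left h1 d
      _ = d ^ d * 2 ^ ((x / d + 1) * d) := by rw [mul_pow, ← pow_mul]
      _ ≤ d ^ d * 2 ^ (x + d) := by
          refine Nat.mul_le_mul_left _ (Nat.pow_le_pow_right (by norm_num) ?_)
          have := Nat.div_mul_le_self x d
          rw [add_mul, one_mul]
          omega

/-- PROOF. Use the hypothesis for `2 n`: `2 ^ (2 n) ≤ 1 + f (2 L n) K (2 b n + 2) ^ d`, and `(2 b n + 2) ^ d ≤ C' 2 ^ n`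
for some `C'` (exponentials grow faster than polynomials), so `2 ^ n ≤ 1 + f (2 L n) K C'`. Take
`C = max (K C') (2 L) + 1` and use that `f` is monotone. -/
theorem dom_of_bound (f : ℕ → ℕ) (hf : Monotone f) (K b d L : ℕ)
    (h : ∀ n, 2 ^ n ≤ 1 + f (L * n) * (K * (b * n + 2) ^ d)) : Dom (fun n => 2 ^ n) f := by
  obtain ⟨C', hC'⟩ : ∃ C' : ℕ, ∀ n, (b * (2 * n) + 2) ^ d ≤ C' * 2 ^ n := by
    refine ⟨(2 * b + 2) ^ d * (d ^ d * 2 ^ (1 + d)), fun n => ?_⟩
    calc (b * (2 * n) + 2) ^ d ≤ ((2 * b + 2) * (n + 1)) ^ d :=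
          Nat.pow_le_pow_left (by nlinarith) d
      _ = (2 * b + 2) ^ d * (n + 1) ^ d := mul_pow _ _ _
      _ ≤ (2 * b + 2) ^ d * (d ^ d * 2 ^ (n + 1 + d)) := Nat.mul_le_mul_left _ (b2_pow d (n + 1))
      _ = (2 * b + 2) ^ d * (d ^ d * 2 ^ (1 + d)) * 2 ^ n := by
          rw [show n + 1 + d = (1 + d) + n by ring, pow_add]
          ring
  refine ⟨K * C' + 2 * L + 1, by omega, fun n => ?_⟩
  have h1 := h (2 * n)
  have h2 : L * (2 * n) ≤ (K * C' + 2 * L + 1) * n + (K * C' + 2 * L + 1) := by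
    have h8 : (2 * L) * n ≤ (K * C' + 2 * L + 1) * n := Nat.mul_le_mul_right n (by omega)
    have h9 : L * (2 * n) = (2 * L) * n := by ring
    omega
  have h3 := hf h2
  generalize hF : f ((K * C' + 2 * L + 1) * n + (K * C' + 2 * L + 1)) = F at h3
  have h4 : f (L * (2 * n)) * (K * (b * (2 * n) + 2) ^ d) ≤ F * (K * (C' * 2 ^ n)) :=
    Nat.mul_le_mul h3 (Nat.mul_le_mul_left K (hC' n))
  have h5 : (1 : ℕ) ≤ 2 ^ n := Nat.one_le_two_pow
  have h6 : 2 ^ n * 2 ^ n ≤ (1 + F * (K * C')) * 2 ^ n := by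
    calc 2 ^ n * 2 ^ n = 2 ^ (2 * n) := by rw [two_mul, pow_add]
      _ ≤ 1 + F * (K * (C' * 2 ^ n)) := by omega
      _ ≤ 1 * 2 ^ n + F * (K * (C' * 2 ^ n)) := by omega
      _ = (1 + F * (K * C')) * 2 ^ n := by ring
  have h7 := Nat.le_of_mul_le_mul_right h6 (by positivity)
  show 2 ^ n ≤ (K * C' + 2 * L + 1) * F + (K * C' + 2 * L + 1)
  have h10 : F * (K * C') ≤ (K * C' + 2 * L + 1) * F := by
    rw [Nat.mul_comm]
    exact Nat.mul_le_mul_right F (by omega)
  omega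

/-- Exponential growth is not polynomially bounded.
PROOF. `2 ^ n ≤ C (C₁ (C n + C + 1) ^ d) + C` for all `n` is impossible. -/
theorem not_dom_of_poly (T : Finset G) (h : PolyG T) : ¬ Dom (fun n => 2 ^ n) (wordGrowth T) := by
  rintro ⟨C, hC, hdom⟩
  obtain ⟨C₁, d, hp⟩ := h
  obtain ⟨K, hK⟩ : ∃ K : ℕ, ∀ m, C * (C₁ * (C * (2 * m) + C + 1) ^ d) ≤ K * 2 ^ m := by
    refine ⟨C * (C₁ * ((2 * C + 1) ^ d * (d ^ d * 2 ^ (1 + d)))), fun m => ?_⟩
    have h1 : (C * (2 * m) + C + 1) ^ d ≤ (2 * C + 1) ^ d * (d ^ d * 2 ^ (1 + d)) * 2 ^ m := by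
      calc (C * (2 * m) + C + 1) ^ d ≤ ((2 * C + 1) * (m + 1)) ^ d :=
            Nat.pow_le_pow_left (by nlinarith) d
        _ = (2 * C + 1) ^ d * (m + 1) ^ d := mul_pow _ _ _
        _ ≤ (2 * C + 1) ^ d * (d ^ d * 2 ^ (m + 1 + d)) :=
            Nat.mul_le_mul_left _ (b2_pow d (m + 1))
        _ = (2 * C + 1) ^ d * (d ^ d * 2 ^ (1 + d)) * 2 ^ m := by
            rw [show m + 1 + d = (1 + d) + m by ring, pow_add]
            ring
    calc C * (C₁ * (C * (2 * m) + C + 1) ^ d)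
        ≤ C * (C₁ * ((2 * C + 1) ^ d * (d ^ d * 2 ^ (1 + d)) * 2 ^ m)) :=
          Nat.mul_le_mul_left _ (Nat.mul_le_mul_left _ h1)
      _ = _ := by ring
  have h1 := hdom (2 * (K + C))
  have h2 : wordGrowth T (C * (2 * (K + C)) + C) ≤ C₁ * (C * (2 * (K + C)) + C + 1) ^ d :=
    hp _
  have h3 : C * wordGrowth T (C * (2 * (K + C)) + C) ≤ K * 2 ^ (K + C) :=
    (Nat.mul_le_mul_left C h2).trans (hK (K + C))
  have h4 : K + C < 2 ^ (K + C) := Nat.lt_two_pow_self
  have h5 : 2 ^ (2 * (K + C)) = 2 ^ (K + C) * 2 ^ (K + C) := by rw [two_mul, pow_add]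
  have h6 : (2 : ℕ) ^ (2 * (K + C)) ≤ K * 2 ^ (K + C) + C := by
    refine (h1 : 2 ^ (2 * (K + C)) ≤ C * wordGrowth T (C * (2 * (K + C)) + C) + C).trans ?_
    omega
  rw [h5] at h6
  generalize (2 : ℕ) ^ (K + C) = M at h4 h6
  have h7 : (K + C + 1) * M ≤ M * M := Nat.mul_le_mul_right M h4
  have h8 : 1 ≤ M := by omega
  nlinarith

/-- **Characteristic quotients.** PROOF. Choose `k` such that all elements of `S'` are images of elements of `ball S k`
(`exists_ball_subset` for a set of representatives); `ball_lift` gives for every `q ∈ ball S' n` an element `g_q ∈ ball S (k n)` over `q`.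
Every `φ ∈ Aut G` induces an automorphism of `G ⧸ N` (`QuotientGroup.congr N N φ` and `N.map φ = N`), so
`autOrbit g_q = autOrbit g_q'` implies `autOrbit q = autOrbit q'`. So the number of the orbits in `G ⧸ N` is at most the number of the orbits in `G`. -/
theorem quot_growth (N : Subgroup G) [N.Characteristic] (S : Finset G)
    (hS : Subgroup.closure (S : Set G) = ⊤) (S' : Finset (G ⧸ N)) :
    ∃ k : ℕ, ∀ n, autGrowth S' n ≤ autGrowth S (k * n) := by
  classical
  obtain ⟨k, hk⟩ := exists_ball_subset S (S'.image Quotient.out) (fun t _ => by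
    rw [hS]
    exact Subgroup.mem_top t)
  have hk' : ∀ s ∈ S', ∃ g ∈ ball S k, QuotientGroup.mk' N g = s := by
    intro s hs
    refine ⟨Quotient.out s, hk _ (Finset.mem_image_of_mem _ hs), ?_⟩
    exact QuotientGroup.out_eq' s
  refine ⟨k, fun n => ?_⟩
  let F : Set G → Set (G ⧸ N) := fun O => {x | ∃ g ∈ O, x ∈ autOrbit (QuotientGroup.mk' N g)}
  have hF : ∀ g : G, F (autOrbit g) = autOrbit (QuotientGroup.mk' N g) := by
    intro g
    ext x
    constructor
    · rintro ⟨g', ⟨φ, rfl⟩, hx⟩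
      have h1 : autOrbit (QuotientGroup.mk' N g) = autOrbit (QuotientGroup.mk' N (φ g)) := by
        rw [autOrbit_eq_iff]
        refine ⟨QuotientGroup.congr N N φ
          (Subgroup.characteristic_iff_map_eq.mp inferInstance φ), ?_⟩
        rfl
      rw [h1]
      exact hx
    · intro hx
      exact ⟨g, autOrbit_self g, hx⟩
  have hsub : autOrbit '' ball S' n ⊆ F '' (autOrbit '' ball S (k * n)) := by
    rintro _ ⟨q, hq, rfl⟩
    obtain ⟨g, hg, hgq⟩ := ball_lift (QuotientGroup.mk' N) hk' n hq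
    refine ⟨autOrbit g, ⟨g, hg, rfl⟩, ?_⟩
    rw [hF, hgq]
  have hfin : (autOrbit '' ball S (k * n)).Finite := (ball_finite S (k * n)).image _
  exact (Set.ncard_le_ncard hsub (hfin.image F)).trans (Set.ncard_image_le hfin)

theorem quot_dom (N : Subgroup G) [N.Characteristic] (S : Finset G)
    (hS : Subgroup.closure (S : Set G) = ⊤) (S' : Finset (G ⧸ N))
    (h : Dom (fun n => 2 ^ n) (autGrowth S')) : Dom (fun n => 2 ^ n) (autGrowth S) := by
  obtain ⟨k, hk⟩ := quot_growth N S hS S'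
  obtain ⟨C, hC, hdom⟩ := h
  refine ⟨C * (k + 1), ?_, fun n => ?_⟩
  · nlinarith
  · have h1 := hdom n
    have h2 := hk (C * n + C)
    have h3 : autGrowth S (k * (C * n + C)) ≤
        autGrowth S (C * (k + 1) * n + C * (k + 1)) := autGrowth_mono S (by nlinarith)
    have h4 : C * autGrowth S' (C * n + C) ≤
        C * (k + 1) * autGrowth S (C * (k + 1) * n + C * (k + 1)) := by
      refine Nat.mul_le_mul ?_ (h2.trans h3)
      nlinarith
    have h5 : C ≤ C * (k + 1) := by nlinarith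
    show 2 ^ n ≤ C * (k + 1) * autGrowth S (C * (k + 1) * n + C * (k + 1)) + C * (k + 1)
    have h6 : 2 ^ n ≤ C * autGrowth S' (C * n + C) + C := h1
    omega

end AG
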