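import Pool.Agent.AG.Defs

/-!
# [AG-C1] weights
-/

set_option autoImplicit false

namespace AG

variable {G : Type*} [Group G] {F : Type*} [Field F]

theorem AddOn.one {D : Subgroup G} {f : G → F} (h : AddOn D f) : f 1 = 0 := by
  have h1 := h 1 D.one_mem 1 D.one_mem
  rw [mul_one] at h1
  exact left_eq_add.1 h1

theorem AddOn.inv {D : Subgroup G} {f : G → F} (h : AddOn D f) {x : G} (hx : x ∈ D) :
    f x⁻¹ = -f x := by
  have h1 := h x hx x⁻¹ (D.inv_mem hx)
  rw [mul_inv_cancel, h.one] at h1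
  exact (neg_eq_of_add_eq_zero_right h1.symm).symm

theorem AddOn.pow {D : Subgroup G} {f : G → F} (h : AddOn D f) {x : G} (hx : x ∈ D) (n : ℕ) :
    f (x ^ n) = n * f x := by
  induction n with
  | zero => rw [pow_zero, h.one, Nat.cast_zero, zero_mul]
  | succ n ih =>
    rw [pow_succ, h _ (D.pow_mem hx n) x hx, ih]
    push_cast
    ring

/-- additive functions vanish on the commutator subgroup -/
theorem AddOn.comm {D : Subgroup G} {f : G → F} (h : AddOn D f) {x : G} (hx : x ∈ ⁅D, D⁆) :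
    f x = 0 := by
  let K : Subgroup G :=
    { carrier := {y | y ∈ D ∧ f y = 0}
      mul_mem' := by
        rintro a b ⟨ha, ha'⟩ ⟨hb, hb'⟩
        exact ⟨D.mul_mem ha hb, by rw [h a ha b hb, ha', hb', add_zero]⟩
      one_mem' := ⟨D.one_mem, h.one⟩
      inv_mem' := by
        rintro a ⟨ha, ha'⟩
        exact ⟨D.inv_mem ha, by rw [h.inv ha, ha', neg_zero]⟩ }
  have hK : ⁅D, D⁆ ≤ K := by
    rw [Subgroup.commutator_le]
    intro a ha b hb
    have hab := D.mul_mem ha hb
    have hab' := D.mul_mem hab (D.inv_mem ha)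
    refine ⟨D.mul_mem hab' (D.inv_mem hb), ?_⟩
    rw [commutatorElement_def, h _ hab' _ (D.inv_mem hb), h _ hab _ (D.inv_mem ha), h a ha b hb,
      h.inv ha, h.inv hb]
    ring
  exact (hK hx).2

theorem Wt.mul {C H : Subgroup G} [C.Normal] {χ f : G → F} (W : Wt C H χ f) {g h : G} (hg : g ∈ H)
    (hh : h ∈ H) : χ (g * h) = χ g * χ h := by
  obtain ⟨x, hx, hfx⟩ := W.ne
  have h1 := W.conj (g * h) (H.mul_mem hg hh) x hx
  have hhx : h * x * h⁻¹ ∈ C := Subgroup.Normal.conj_mem inferInstance x hx h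
  have h2 := W.conj g hg _ hhx
  rw [W.conj h hh x hx] at h2
  have h3 : g * h * x * (g * h)⁻¹ = g * (h * x * h⁻¹) * g⁻¹ := by group
  rw [h3, h2] at h1
  apply mul_right_cancel₀ hfx
  rw [← h1]
  ring

theorem Wt.one {C H : Subgroup G} [C.Normal] {χ f : G → F} (W : Wt C H χ f) : χ 1 = 1 := by
  obtain ⟨x, hx, hfx⟩ := W.ne
  have h1 := W.conj 1 H.one_mem x hx
  rw [one_mul, inv_one, mul_one] at h1
  apply mul_right_cancel₀ hfx
  rw [← h1, one_mul]

theorem Wt.pow {C H : Subgroup G} [C.Normal] {χ f : G → F} (W : Wt C H χ f) {g : G} (hg : g ∈ H)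
    (n : ℕ) : χ (g ^ n) = χ g ^ n := by
  induction n with
  | zero => rw [pow_zero, pow_zero, W.one]
  | succ n ih => rw [pow_succ, W.mul (H.pow_mem hg n) hg, ih, pow_succ]

theorem Wt.chi_ne {C H : Subgroup G} [C.Normal] {χ f : G → F} (W : Wt C H χ f) {g : G}
    (hg : g ∈ H) : χ g ≠ 0 := by
  intro h0
  have h1 := W.mul hg (H.inv_mem hg)
  rw [mul_inv_cancel, W.one, h0, zero_mul] at h1
  exact one_ne_zero h1

theorem c1_char {D : Subgroup G} [hD : D.Characteristic] (φ : MulAut G) {x : G} :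
    φ x ∈ D ↔ x ∈ D := by
  have h1 := hD.fixed φ
  constructor
  · intro h
    rw [← h1]
    exact h
  · intro h
    rw [← h1] at h
    exact h

/-- transport by an automorphism. PROOF. `φ` maps `C` to `C` and `H` to `H` (`Subgroup.Characteristic`). -/
theorem Wt.comp {C H : Subgroup G} [C.Characteristic] [H.Characteristic] {χ f : G → F}
    (W : Wt C H χ f) (φ : MulAut G) : Wt C H (fun x => χ (φ x)) (fun x => f (φ x)) := by
  refine ⟨?_, ?_, ?_⟩
  · intro x hx y hy
    change f (φ (x * y)) = f (φ x) + f (φ y)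
    rw [map_mul]
    exact W.add _ ((c1_char φ).2 hx) _ ((c1_char φ).2 hy)
  · obtain ⟨x, hx, hfx⟩ := W.ne
    refine ⟨φ.symm x, ?_, ?_⟩
    · rw [← c1_char φ, MulEquiv.apply_symm_apply]
      exact hx
    · rw [MulEquiv.apply_symm_apply]
      exact hfx
  · intro h hh x hx
    rw [map_mul, map_mul, map_inv]
    exact W.conj _ ((c1_char φ).2 hh) _ ((c1_char φ).2 hx)

end AG
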