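import Pool.Agent.AG.B1
import Pool.Agent.AG.C1

/-!
# [AG-C2] the elements `vv g x A n`
-/

set_option autoImplicit false

namespace AG

variable {G : Type*} [Group G] {F : Type*} [Field F]

theorem vv_mem {C : Subgroup G} [C.Normal] {g x : G} (hx : x ∈ C) (A : Finset ℕ) (n : ℕ) :
    vv g x A n ∈ C := by
  induction n with
  | zero => exact C.one_mem
  | succ n ih =>
    show vv g x A n * (if n ∈ A then g ^ n * x * (g ^ n)⁻¹ else 1) ∈ C
    refine C.mul_mem ih ?_
    split_ifs
    · exact Subgroup.Normal.conj_mem inferInstance x hx (g ^ n)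
    · exact C.one_mem

/-- PROOF. Induction on `n`: `vv g x A (n+1) g^(n+1) = (vv g x A n g^n) (x or 1) g`; so
`vv g x A n g^n ∈ ball S ((a + b) n)`, and `g^(-n) ∈ ball S (a n)`. -/
theorem vv_ball {S : Finset G} {g x : G} {a b : ℕ} (hg : g ∈ ball S a) (hx : x ∈ ball S b)
    (A : Finset ℕ) (n : ℕ) : vv g x A n ∈ ball S ((2 * a + b) * n) := by
  have h : vv g x A n * g ^ n ∈ ball S ((a + b) * n) := by
    induction n with
    | zero =>
      have : vv g x A 0 * g ^ 0 = 1 := by simp [vv]
      rw [this]
      exact one_mem_ball _ _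
    | succ n ih =>
      have h1 : vv g x A (n + 1) * g ^ (n + 1) =
          (vv g x A n * g ^ n) * ((if n ∈ A then x else 1) * g) := by
        show vv g x A n * (if n ∈ A then g ^ n * x * (g ^ n)⁻¹ else 1) * g ^ (n + 1) = _
        split_ifs
        · rw [pow_succ]; group
        · rw [pow_succ]; group
      have h2 : (if n ∈ A then x else 1) ∈ ball S b := by
        split_ifs
        · exact hx
        · exact one_mem_ball _ _
      rw [h1, Nat.mul_succ]
      refine mul_mem_ball ih ?_
      rw [Nat.add_comm a b]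
      exact mul_mem_ball h2 hg
  have h3 : (g ^ n)⁻¹ ∈ ball S (n * a) := inv_mem_ball (pow_mem_ball hg n)
  have h4 := mul_mem_ball h h3
  rw [mul_inv_cancel_right] at h4
  have h5 : (a + b) * n + n * a = (2 * a + b) * n := by ring
  rwa [h5] at h4

/-- PROOF. Induction on `n` (for `∑_{i < n, i ∈ A}`), `Wt.pow`. -/
theorem vv_val {C H : Subgroup G} [C.Normal] {χ f : G → F} (W : Wt C H χ f) {g x : G} (hg : g ∈ H)
    (hx : x ∈ C) (A : Finset ℕ) (n : ℕ) (hA : A ⊆ Finset.range n) :
    f (vv g x A n) = pv (χ g) A * f x := by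
  have h : ∀ m : ℕ, f (vv g x A m) = (∑ i ∈ (Finset.range m).filter (· ∈ A), χ g ^ i) * f x := by
    intro m
    induction m with
    | zero =>
      have : vv g x A 0 = 1 := rfl
      rw [this, W.add.one]
      simp
    | succ m ih =>
      show f (vv g x A m * (if m ∈ A then g ^ m * x * (g ^ m)⁻¹ else 1)) = _
      rw [Finset.range_add_one, Finset.filter_insert]
      split_ifs with hm
      · rw [W.add _ (vv_mem hx A m) _ (Subgroup.Normal.conj_mem inferInstance x hx (g ^ m)), ih,
          W.conj _ (H.pow_mem hg m) x hx, W.pow hg, Finset.sum_insert (by simp)]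
        ring
      · rw [mul_one, ih]
  rw [h n]
  have h2 : (Finset.range n).filter (· ∈ A) = A := by
    ext i
    rw [Finset.mem_filter]
    exact ⟨fun h => h.2, fun h => ⟨hA h, h⟩⟩
  rw [h2]
  rfl

end AG
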