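import Pool.Agent.AG.Defs

/-!
# [AG-I1] integrality over `ℤ[1/m]`
-/

set_option autoImplicit false

namespace AG

variable {F : Type*} [Field F] [CharZero F]

omit [CharZero F] in
/-- clearing denominators in `ℤ[1/m]` -/
theorem i1_clear (m : ℕ) (hm : (m : F) ≠ 0) (z : F) (hz : z ∈ Rm F m) :
    ∃ (j : ℕ) (a : ℤ), z * (m : F) ^ j = a := by
  unfold Rm at hz
  induction hz using Algebra.adjoin_induction with
  | mem x hx =>
    rw [Set.mem_singleton_iff] at hx
    refine ⟨1, 1, ?_⟩
    rw [hx, pow_one, inv_mul_cancel₀ hm, Int.cast_one]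
  | algebraMap r =>
    refine ⟨0, r, ?_⟩
    simp
  | add x y _ _ hx hy =>
    obtain ⟨j, a, h1⟩ := hx
    obtain ⟨k, b, h2⟩ := hy
    refine ⟨j + k, a * m ^ k + b * m ^ j, ?_⟩
    push_cast
    rw [← h1, ← h2, pow_add]
    ring
  | mul x y _ _ hx hy =>
    obtain ⟨j, a, h1⟩ := hx
    obtain ⟨k, b, h2⟩ := hy
    refine ⟨j + k, a * b, ?_⟩
    push_cast
    rw [← h1, ← h2, pow_add]
    ring

theorem i1_loc (m : ℕ) (hm : m ≠ 0) :
    IsLocalization (Submonoid.powers (m : ℤ)) (Rm F m) := by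
  have hmF : (m : F) ≠ 0 := by exact_mod_cast hm
  have hmem : (m : F)⁻¹ ∈ Rm F m := Algebra.subset_adjoin rfl
  refine ⟨?_, ?_, ?_⟩
  · rintro ⟨y, n, rfl⟩
    rw [isUnit_iff_exists_inv]
    refine ⟨⟨((m : F)⁻¹) ^ n, pow_mem hmem n⟩, ?_⟩
    apply Subtype.ext
    simp [hmF]
  · intro z
    obtain ⟨j, a, h⟩ := i1_clear m hmF (z : F) z.2
    refine ⟨(a, ⟨(m : ℤ) ^ j, j, rfl⟩), ?_⟩
    apply Subtype.ext
    simpa using h
  · intro x y hxy
    refine ⟨1, ?_⟩
    have h1 : ((algebraMap ℤ (Rm F m) x : Rm F m) : F) = ((algebraMap ℤ (Rm F m) y : Rm F m) : F) := by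
      rw [hxy]
    have h2 : (x : F) = (y : F) := by simpa using h1
    have h3 : x = y := by exact_mod_cast h2
    rw [h3]

/-- `ℤ[1/m]` is Noetherian (a finitely generated algebra over `ℤ`: `Algebra.FiniteType`, `isNoetherianRing`). -/
theorem Rm_noetherian (m : ℕ) : IsNoetherianRing (Rm F m) := by
  have h1 : Algebra.FiniteType ℤ (Rm F m) := by
    rw [← Subalgebra.fg_iff_finiteType]
    exact ⟨{((m : F)⁻¹)}, by unfold Rm; simp⟩
  exact Algebra.FiniteType.isNoetherianRing ℤ (Rm F m)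

/-- an element which is integral over `ℤ[1/m]` is `MInt`. PROOF. For every `r ∈ Rm F m` there is `j` with `m^j r ∈ ℤ`
(`Algebra.adjoin_induction`). If `u^k + r_1 u^(k-1) + ... + r_k = 0` and `m^j r_i ∈ ℤ` for all `i`, then `m^j u` is a root of the monic
polynomial with the coefficients `m^(j i) r_i ∈ ℤ` (for instance `Polynomial.scaleRoots`, or: `m^j u` is integral over `ℤ` because
...). -/
theorem mint_of_integral (m : ℕ) (hm : m ≠ 0) (u : F) (hu : IsIntegral (Rm F m) u) : MInt m u := by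
  have hloc := i1_loc (F := F) m hm
  obtain ⟨⟨y, n, hy⟩, h⟩ := IsIntegral.exists_multiple_integral_of_isLocalization
    (R := ℤ) (Rₘ := Rm F m) (Submonoid.powers (m : ℤ)) u hu
  refine ⟨n, ?_⟩
  have h1 : (⟨y, n, hy⟩ : Submonoid.powers (m : ℤ)) • u = (m : F) ^ n * u := by
    rw [Submonoid.smul_def]
    subst hy
    simp [zsmul_eq_mul]
  rw [h1] at h
  exact h

/-- PROOF. Let `N` be the `Rm`-span of the `u^i a`; `N ≤ span (Rm F m) T`, which is a Noetherian module, so `N` is finitely generated; `N ≠ 0` is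
stable under the multiplication by `u`: `isIntegral_of_smul_mem_submodule`, `mint_of_integral`. -/
theorem mint_of_powers (m : ℕ) (hm : m ≠ 0) (V : Set F) (hV : Fgm m V) (u a : F) (ha : a ≠ 0)
    (h : ∀ i : ℕ, u ^ i * a ∈ V) : MInt m u := by
  have hnoeth := Rm_noetherian (F := F) m
  obtain ⟨T, hT⟩ := hV
  set N : Submodule (Rm F m) F := Submodule.span (Rm F m) (Set.range (fun i : ℕ => u ^ i * a)) with hN
  have hle : N ≤ Submodule.span (Rm F m) (T : Set F) := by
    rw [hN, Submodule.span_le]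
    rintro _ ⟨i, rfl⟩
    exact hT (h i)
  have hfg : N.FG := Submodule.FG.of_le ⟨T, rfl⟩ hle
  have hne : N ≠ ⊥ := by
    intro h0
    have h1 : a ∈ N := by
      rw [hN]
      exact Submodule.subset_span ⟨0, by simp⟩
    rw [h0, Submodule.mem_bot] at h1
    exact ha h1
  have hstab : ∀ n ∈ N, u • n ∈ N := by
    intro n hn
    rw [hN] at hn ⊢
    induction hn using Submodule.span_induction with
    | mem x hx =>
      obtain ⟨i, rfl⟩ := hx
      apply Submodule.subset_span
      exact ⟨i + 1, by simp [pow_succ']; ring⟩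
    | zero => simp
    | add x y _ _ hx hy =>
      rw [smul_add]
      exact Submodule.add_mem _ hx hy
    | smul r x _ hx =>
      rw [smul_comm]
      exact Submodule.smul_mem _ r hx
  exact mint_of_integral m hm u (isIntegral_of_smul_mem_submodule N hne hfg u hstab)

end AG
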