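import Pool.Agent.AG.C2
import Pool.Agent.AG.I1

/-!
# [AG-C3] automorphisms which fix the weight
-/

set_option autoImplicit false

namespace AG

variable {G : Type*} [Group G] {F : Type*} [Field F] [CharZero F]

theorem c3_mem {D : Subgroup G} [D.Characteristic] (φ : MulAut G) {x : G} (hx : x ∈ D) :
    φ x ∈ D := by
  have h := (Subgroup.characteristic_iff_map_le.1 (inferInstance : D.Characteristic)) φ
  exact h (Subgroup.mem_map_of_mem _ hx)

omit [Field F] [CharZero F] in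
theorem c3_chi {H : Subgroup G} [H.Characteristic] {χ : G → F} (φ : MulAut G)
    (hφ : ∀ h ∈ H, χ (φ h) = χ h) (i : ℕ) : ∀ h ∈ H, χ ((φ ^ i) h) = χ h := by
  induction i with
  | zero => intro h _; simp
  | succ i ih =>
    intro h hh
    rw [pow_succ, MulAut.mul_apply, ih _ (c3_mem φ hh), hφ h hh]

/-- PROOF. Let `β = χ g`. `f ∘ φ^i` is a common eigenfunctional with the weight `χ` for every `i` (`Wt.comp`; or if it vanishes on `C`
the following is trivial: use only its additivity and the conjugation formula). So by `vv_val` (for `f ∘ φ^i`)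
`f (φ^i (vv A)) = pv β A * f (φ^i x)` and `f (φ^i (vv B)) = pv β B * f (φ^i x)`. With `φ (vv A) = vv B`:
`pv β A * f (φ^(i+1) x) = f (φ^(i+1) (vv A)) = f (φ^i (vv B)) = pv β B * f (φ^i x)`. So with `u = pv β B / pv β A`:
`f (φ^i x) = u^i f x` for all `i`, and all of them are in `f '' C`: `mint_of_powers`. -/
theorem ratio_mint {C H : Subgroup G} [C.Characteristic] [H.Characteristic] {χ f : G → F}
    (W : Wt C H χ f) (m : ℕ) (hm : m ≠ 0) (hV : Fgm m (f '' C)) {g x : G} (hg : g ∈ H) (hx : x ∈ C)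
    (hfx : f x ≠ 0) (φ : MulAut G) (hφ : ∀ h ∈ H, χ (φ h) = χ h) (n : ℕ) (A B : Finset ℕ)
    (hA : A ⊆ Finset.range n) (hB : B ⊆ Finset.range n) (h : φ (vv g x A n) = vv g x B n)
    (hA0 : pv (χ g) A ≠ 0) : MInt m (pv (χ g) B / pv (χ g) A) := by
  have key : ∀ i : ℕ, f ((φ ^ i) x) = (pv (χ g) B / pv (χ g) A) ^ i * f x := by
    intro i
    induction i with
    | zero => simp
    | succ i ih =>
      have e1 := vv_val (W.comp (φ ^ (i + 1))) hg hx A n hA
      have e2 := vv_val (W.comp (φ ^ i)) hg hx B n hB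
      simp only [c3_chi φ hφ _ g hg] at e1 e2
      have e3 : (φ ^ (i + 1)) (vv g x A n) = (φ ^ i) (vv g x B n) := by
        rw [pow_succ, MulAut.mul_apply, h]
      rw [e3, e2] at e1
      have e4 : f ((φ ^ (i + 1)) x) = pv (χ g) B * f ((φ ^ i) x) / pv (χ g) A := by
        rw [eq_div_iff hA0, e1]; ring
      rw [e4, ih]
      ring
  refine mint_of_powers m hm (f '' C) hV _ (f x) hfx ?_
  intro i
  exact ⟨(φ ^ i) x, c3_mem (φ ^ i) hx, key i⟩

/-- PROOF. `f (g^i x g^(-i)) = (χ g)^i f x`, `mint_of_powers`. -/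
theorem chi_mint {C H : Subgroup G} [C.Normal] {χ f : G → F}
    (W : Wt C H χ f) (m : ℕ) (hm : m ≠ 0) (hV : Fgm m (f '' C)) {g : G} (hg : g ∈ H) :
    MInt m (χ g) := by
  obtain ⟨x, hx, hfx⟩ := W.ne
  refine mint_of_powers m hm (f '' C) hV _ (f x) hfx ?_
  intro i
  refine ⟨g ^ i * x * (g ^ i)⁻¹, Subgroup.Normal.conj_mem inferInstance x hx _, ?_⟩
  rw [W.conj _ (Subgroup.pow_mem _ hg i) x hx, W.pow hg i]

end AG
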