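import Pool.Agent.AG.N3

/-!
# [AG-N4] ratios
-/

set_option autoImplicit false

namespace AG

/-- PROOF. The greatest common divisor `a` of `m^J` and `N` (`J` large) divides `m^e`, because every prime divisor of `a` divides `m` and
its exponent in `a` is at most `e` (`2 ^ exponent ≤ a ≤ N ≤ 2 ^ e`). `gcd (m^J, N) = x m^J + y N` (Bezout). -/
theorem gcd_dvd (m N J e : ℕ) (hm : m ≠ 0) (hN : N ≠ 0) (hNe : N ≤ 2 ^ e) :
    Nat.gcd (m ^ J) N ∣ m ^ e := by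
  set a := Nat.gcd (m ^ J) N with ha
  have h1 : a ∣ m ^ J := Nat.gcd_dvd_left _ _
  have h2 : a ∣ N := Nat.gcd_dvd_right _ _
  have ha0 : a ≠ 0 := fun h => hN (Nat.eq_zero_of_zero_dvd (h ▸ h2))
  have hle : a ≤ 2 ^ e := (Nat.le_of_dvd (Nat.pos_of_ne_zero hN) h2).trans hNe
  rw [← Nat.factorization_prime_le_iff_dvd ha0 (pow_ne_zero e hm)]
  intro p hp
  rw [Nat.factorization_pow, Finsupp.smul_apply, smul_eq_mul]
  rcases Nat.eq_zero_or_pos (a.factorization p) with h3 | h3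
  · rw [h3]
    exact Nat.zero_le _
  · have hpa : p ∣ a := Nat.dvd_of_factorization_pos h3.ne'
    have hpm : p ∣ m := hp.dvd_of_dvd_pow (hpa.trans h1)
    have h4 : 1 ≤ m.factorization p := hp.factorization_pos_of_dvd hm hpm
    have h5 : p ^ (a.factorization p) ≤ a := Nat.le_of_dvd (Nat.pos_of_ne_zero ha0)
      (Nat.ordProj_dvd a p)
    have h6 : 2 ^ (a.factorization p) ≤ 2 ^ e :=
      (Nat.pow_le_pow_left hp.two_le _).trans (h5.trans hle)
    have h7 : a.factorization p ≤ e := (Nat.pow_le_pow_iff_right (by norm_num)).1 h6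
    calc a.factorization p ≤ e * 1 := by rw [mul_one]; exact h7
      _ ≤ e * m.factorization p := Nat.mul_le_mul_left e h4

/-- If `m^j v` is integral and `N v` is integral, `0 < N ≤ 2^e`, then `m^e v` is integral. -/
theorem int_of_two {K : Type*} [Field K] [CharZero K] (m N j e : ℕ) (hm : m ≠ 0) (hN : N ≠ 0)
    (hNe : N ≤ 2 ^ e) (v : K) (h1 : IsIntegral ℤ ((m : K) ^ j * v)) (h2 : IsIntegral ℤ ((N : K) * v)) :
    IsIntegral ℤ ((m : K) ^ e * v) := by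
  obtain ⟨q, hq⟩ := gcd_dvd m N j e hm hN hNe
  have hb := Nat.gcd_eq_gcd_ab (m ^ j) N
  have hb' : ((Nat.gcd (m ^ j) N : ℕ) : K) =
      (m : K) ^ j * ((Nat.gcdA (m ^ j) N : ℤ) : K) + (N : K) * ((Nat.gcdB (m ^ j) N : ℤ) : K) := by
    have h3 := congrArg (fun z : ℤ => (z : K)) hb
    push_cast at h3
    exact h3
  have h3 : IsIntegral ℤ (((Nat.gcd (m ^ j) N : ℕ) : K) * v) := by
    rw [hb', show ((m : K) ^ j * ((Nat.gcdA (m ^ j) N : ℤ) : K) +
      (N : K) * ((Nat.gcdB (m ^ j) N : ℤ) : K)) * v =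
      ((Nat.gcdA (m ^ j) N : ℤ) : K) * ((m : K) ^ j * v) +
        ((Nat.gcdB (m ^ j) N : ℤ) : K) * ((N : K) * v) by ring]
    exact ((isIntegral_intCast _).mul h1).add ((isIntegral_intCast _).mul h2)
  have h4 : (m : K) ^ e = ((Nat.gcd (m ^ j) N : ℕ) : K) * (q : K) := by
    have h5 := congrArg (fun z : ℕ => (z : K)) hq
    push_cast at h5
    exact h5
  rw [h4, show ((Nat.gcd (m ^ j) N : ℕ) : K) * (q : K) * v =
    (q : K) * (((Nat.gcd (m ^ j) N : ℕ) : K) * v) by ring]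
  exact (isIntegral_natCast q).mul h3

/-- one direction of the integrality -/
theorem n4_ratio {K : Type*} [Field K] [CharZero K] (m b n : ℕ) (hm : m ≠ 0) (x y : K)
    (hy : IsIntegral ℤ ((m : K) ^ (b * n) * y)) (N : ℕ) (hN : N ≠ 0) (hNe : N ≤ 2 ^ (b * n))
    (hx : IsIntegral ℤ ((N : K) * x⁻¹)) (hu : MInt m (y / x)) :
    IsIntegral ℤ ((m : K) ^ (2 * b * n) * (y / x)) := by
  obtain ⟨j, hj⟩ := hu
  have h1 : IsIntegral ℤ ((m : K) ^ j * ((m : K) ^ (b * n) * (y / x))) := by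
    rw [show (m : K) ^ j * ((m : K) ^ (b * n) * (y / x)) =
      (m : K) ^ (b * n) * ((m : K) ^ j * (y / x)) by ring]
    exact ((isIntegral_natCast m).pow _).mul hj
  have h2 : IsIntegral ℤ ((N : K) * ((m : K) ^ (b * n) * (y / x))) := by
    rw [show (N : K) * ((m : K) ^ (b * n) * (y / x)) =
      ((m : K) ^ (b * n) * y) * ((N : K) * x⁻¹) by rw [div_eq_mul_inv]; ring]
    exact hy.mul hx
  have h3 := int_of_two m N j (b * n) hm hN hNe _ h1 h2
  rw [show (m : K) ^ (2 * b * n) * (y / x) = (m : K) ^ (b * n) * ((m : K) ^ (b * n) * (y / x)) by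
    rw [← mul_assoc, ← pow_add]
    congr 2
    ring]
  exact h3

/-- PROOF. `pv_height` for `A`, `B`, with the constant `b`. `v = m^(b n) u`, `u = pv β B / pv β A`: `N_A v` is integral; `m^j v` is
integral; so `m^(b n) v = m^(2 b n) u` is integral by `int_of_two` (`e = b n`). Similarly for `u⁻¹`.
`‖σ u‖ ≤ 2 ^ (b n) 2 ^ (b n)`. So `L₀ = 2 b`. -/
theorem ratio_bounds (K : Type*) [Field K] [NumberField K] (β : K) (m s : ℕ) (hm : m ≠ 0)
    (hβ : IsIntegral ℤ ((m : K) ^ s * β)) : ∃ L₀ : ℕ, ∀ (n : ℕ) (A B : Finset ℕ),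
      A ⊆ Finset.range n → B ⊆ Finset.range n → pv β A ≠ 0 → pv β B ≠ 0 →
      MInt m (pv β B / pv β A) → MInt m (pv β B / pv β A)⁻¹ →
        IsIntegral ℤ ((m : K) ^ (L₀ * n) * (pv β B / pv β A)) ∧
        IsIntegral ℤ ((m : K) ^ (L₀ * n) * (pv β B / pv β A)⁻¹) ∧
        ∀ σ : K →+* ℂ, ‖σ (pv β B / pv β A)‖ ≤ 2 ^ (L₀ * n) ∧
          ‖σ (pv β B / pv β A)⁻¹‖ ≤ 2 ^ (L₀ * n) := by
  obtain ⟨b, hb⟩ := pv_height K β m s hm hβ
  refine ⟨2 * b, ?_⟩
  intro n A B hA hB hA0 hB0 hu hu'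
  obtain ⟨hA1, hA2, NA, hA3, hA4, hA5⟩ := hb n A hA hA0
  obtain ⟨hB1, hB2, NB, hB3, hB4, hB5⟩ := hb n B hB hB0
  rw [inv_div] at hu' ⊢
  have hpow : (2 : ℝ) ^ (2 * b * n) = 2 ^ (b * n) * 2 ^ (b * n) := by
    rw [← pow_add]
    congr 1
    ring
  refine ⟨n4_ratio m b n hm _ _ hB2 NA hA3 hA4 hA5 hu,
    n4_ratio m b n hm _ _ hA2 NB hB3 hB4 hB5 hu', ?_⟩
  intro σ
  rw [hpow, div_eq_mul_inv, div_eq_mul_inv, map_mul, map_mul, norm_mul, norm_mul]
  exact ⟨mul_le_mul (hB1 σ).1 (hA1 σ).2 (norm_nonneg _) (by positivity),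
    mul_le_mul (hA1 σ).1 (hB1 σ).2 (norm_nonneg _) (by positivity)⟩

end AG
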