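import Pool.Agent.AG.Defs

/-!
# [AG-N2] the number of the units of `O_K[1/m]` of bounded height
-/

set_option autoImplicit false

namespace AG

open NumberField

/-- Floors of logarithms. PROOF. Let `Φ` be the finite set of the embeddings `σ : K →+* ℂ`. For `u` put
`c u σ = ⌊log (‖σ u‖) / log 2⌋ ∈ [-L, L]` (an integer); there are at most `(2 L + 1) ^ |Φ|` functions `c`. If
`c u = c u'` then `‖σ (u / u')‖ ≤ 2` for all `σ`. -/
theorem card_of_fibers (K : Type*) [Field K] [NumberField K] (M₀ : ℕ) (L : ℕ) (U : Finset K)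
    (hU : ∀ u ∈ U, u ≠ 0 ∧ ∀ σ : K →+* ℂ, ‖σ u‖ ≤ 2 ^ L ∧ ‖σ u⁻¹‖ ≤ 2 ^ L)
    (h : ∀ V ⊆ U, (∀ u ∈ V, ∀ v ∈ V, ∀ σ : K →+* ℂ, ‖σ (u / v)‖ ≤ 2) → V.card ≤ M₀) :
    U.card ≤ M₀ * (2 * L + 1) ^ Fintype.card (K →+* ℂ) := by
  classical
  let c : K → (K →+* ℂ) → ℤ := fun u σ => ⌊Real.logb 2 ‖σ u‖⌋
  let T : Finset ((K →+* ℂ) → ℤ) :=
    Fintype.piFinset fun _ => Finset.Icc (-(L : ℤ)) (L : ℤ)
  have hT : T.card = (2 * L + 1) ^ Fintype.card (K →+* ℂ) := by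
    rw [Fintype.card_piFinset, Finset.prod_const, Finset.card_univ, Int.card_Icc]
    congr 1
    omega
  have hpos : ∀ u ∈ U, ∀ σ : K →+* ℂ, 0 < ‖σ u‖ := fun u hu σ => by
    rw [norm_pos_iff]
    exact (map_ne_zero σ).2 (hU u hu).1
  have hmaps : ∀ u ∈ U, c u ∈ T := by
    intro u hu
    rw [Fintype.mem_piFinset]
    intro σ
    obtain ⟨h1, h2⟩ := (hU u hu).2 σ
    have h3 := hpos u hu σ
    rw [map_inv₀, norm_inv] at h2
    have h4 : Real.logb 2 ‖σ u‖ ≤ L := by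
      rw [Real.logb_le_iff_le_rpow (by norm_num) h3, Real.rpow_natCast]
      exact h1
    have h5 : -(L : ℝ) ≤ Real.logb 2 ‖σ u‖ := by
      rw [Real.le_logb_iff_rpow_le (by norm_num) h3, Real.rpow_neg (by norm_num),
        Real.rpow_natCast]
      exact (inv_le_comm₀ h3 (by positivity)).1 h2
    rw [Finset.mem_Icc]
    constructor
    · rw [Int.le_floor]
      push_cast
      exact h5
    · have h6 : ((⌊Real.logb 2 ‖σ u‖⌋ : ℤ) : ℝ) ≤ (L : ℝ) := (Int.floor_le _).trans h4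
      exact_mod_cast h6
  rw [← hT]
  refine Finset.card_le_mul_card_image_of_maps_to hmaps M₀ fun b _ => ?_
  refine h _ (Finset.filter_subset _ _) fun u hu v hv σ => ?_
  rw [Finset.mem_filter] at hu hv
  have h1 := congrFun (hu.2.trans hv.2.symm) σ
  change ⌊Real.logb 2 ‖σ u‖⌋ = ⌊Real.logb 2 ‖σ v‖⌋ at h1
  have h2 := Int.lt_floor_add_one (Real.logb 2 ‖σ u‖)
  have h3 := Int.floor_le (Real.logb 2 ‖σ v‖)
  rw [h1] at h2
  have hu0 := hpos u hu.1 σ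
  have hv0 := hpos v hv.1 σ
  have h4 : Real.logb 2 (‖σ u‖ / ‖σ v‖) ≤ 1 := by
    rw [Real.logb_div hu0.ne' hv0.ne']
    linarith
  rw [Real.logb_le_iff_le_rpow (by norm_num) (by positivity), Real.rpow_one] at h4
  rw [map_div₀, norm_div]
  exact h4

end AG
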