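import Pool.Agent.AG.N1
import Pool.Agent.AG.N2

/-!
# [AG-N5] the number of the units of `O_K[1/m]` of bounded height
-/

set_option autoImplicit false

namespace AG

open NumberField

/-- **Counting.** The number of the `u ∈ K^*` such that `m^L u` and `m^L / u` are integral and `u`, `1/u` have absolute values at most `2 ^ L` is at
most polynomial in `L`.

PROOF. Let `M₁` be the number of the elements of the finite set `{x : IsIntegral ℤ x ∧ ∀ σ, ‖σ x‖ ≤ 2}`
(`NumberField.Embeddings.finite_of_norm_le K ℂ 2`), and `e, t` the constants of `card_divisors` for the ideal `(m)` of `𝓞 K`. For `u ∈ U` let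
`a_u ∈ 𝓞 K` be `m^L u`; the ideal `(a_u)` divides `(m)^(2 L)` since `a_u (m^L/u) = m^(2L)`. So there are at most `(2 e L + 1)^t` ideals `(a_u)`.
Let `V ⊆ U` be a subset such that `‖σ (u/v)‖ ≤ 2` for all `u, v ∈ V`. Split `V` according to the ideal `(a_u)`; if
`(a_u) = (a_v)`, then `u / v = a_u / a_v` is integral (`Ideal.span_singleton_eq_span_singleton`); so (fix `v`, the map `u ↦ u / v` is injective) every part
has at most `M₁` elements: `|V| ≤ M₁ (2 e L + 1)^t`. Now `card_of_fibers` (with `M₀ = M₁ (2 e L + 1)^t`). -/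
theorem count_units (K : Type*) [Field K] [NumberField K] (m : ℕ) (hm : m ≠ 0) :
    ∃ M d e : ℕ, ∀ (L : ℕ) (U : Finset K), (∀ u ∈ U, u ≠ 0 ∧ IsIntegral ℤ ((m : K) ^ L * u) ∧
      IsIntegral ℤ ((m : K) ^ L * u⁻¹) ∧ ∀ σ : K →+* ℂ, ‖σ u‖ ≤ 2 ^ L ∧ ‖σ u⁻¹‖ ≤ 2 ^ L) →
      U.card ≤ M * (e * L + 2) ^ d := by
  classical
  have hmK : (m : K) ≠ 0 := by exact_mod_cast hm
  have hmO : (m : 𝓞 K) ≠ 0 := by
    intro h0
    apply hmK
    have h1 := congrArg (algebraMap (𝓞 K) K) h0
    rwa [map_natCast, map_zero] at h1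
  have hI : Ideal.span {(m : 𝓞 K)} ≠ ⊥ := by
    rw [Ne, Ideal.span_singleton_eq_bot]
    exact hmO
  obtain ⟨e, t, het⟩ := card_divisors (Ideal.span {(m : 𝓞 K)}) hI
  have hfin : {x : K | IsIntegral ℤ x ∧ ∀ σ : K →+* ℂ, ‖σ x‖ ≤ 2}.Finite :=
    NumberField.Embeddings.finite_of_norm_le K ℂ 2
  refine ⟨hfin.toFinset.card, t + Fintype.card (K →+* ℂ), 2 * e + 2, ?_⟩
  intro L U hU
  -- the integer `a_u = m ^ L u`
  have hlift : ∀ x : K, IsIntegral ℤ x → ∃ b : 𝓞 K, algebraMap (𝓞 K) K b = x :=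
    fun x hx => ⟨⟨x, hx⟩, rfl⟩
  have hexa : ∀ u : K, ∃ b : 𝓞 K, u ∈ U → algebraMap (𝓞 K) K b = (m : K) ^ L * u := by
    intro u
    by_cases hu : u ∈ U
    · obtain ⟨b, hb⟩ := hlift _ (hU u hu).2.1
      exact ⟨b, fun _ => hb⟩
    · exact ⟨0, fun h => absurd h hu⟩
  choose a ha using hexa
  have hinj : Function.Injective (algebraMap (𝓞 K) K) := FaithfulSMul.algebraMap_injective (𝓞 K) K
  have hdvd : ∀ u ∈ U, Ideal.span {a u} ∣ Ideal.span {(m : 𝓞 K)} ^ (2 * L) := by
    intro u hu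
    obtain ⟨hu0, _, h2, _⟩ := hU u hu
    rw [Ideal.span_singleton_pow, Ideal.dvd_span_singleton, Ideal.mem_span_singleton]
    obtain ⟨b, hb⟩ := hlift _ h2
    refine ⟨b, ?_⟩
    apply hinj
    rw [map_mul, ha u hu, hb, map_pow, map_natCast, two_mul, pow_add]
    field_simp
  have hV : ∀ V ⊆ U, (∀ u ∈ V, ∀ v ∈ V, ∀ σ : K →+* ℂ, ‖σ (u / v)‖ ≤ 2) →
      V.card ≤ hfin.toFinset.card * (e * (2 * L) + 1) ^ t := by
    intro V hVU hV2
    have h1 := Finset.card_le_mul_card_image (f := fun u => Ideal.span {a u}) V hfin.toFinset.card (by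
      intro J _
      rcases (V.filter fun u => Ideal.span {a u} = J).eq_empty_or_nonempty with h0 | ⟨v, hv⟩
      · rw [h0, Finset.card_empty]
        exact Nat.zero_le _
      · rw [Finset.mem_filter] at hv
        have hv0 : v ≠ 0 := (hU v (hVU hv.1)).1
        refine Finset.card_le_card_of_injOn (fun u => u / v) ?_ ?_
        · intro u hu
          rw [Finset.mem_coe, Finset.mem_filter] at hu
          rw [Finset.mem_coe, Set.Finite.mem_toFinset]
          refine ⟨?_, fun σ => hV2 u hu.1 v hv.1 σ⟩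
          have h2 : Ideal.span {a v} = Ideal.span {a u} := by rw [hv.2, hu.2]
          rw [Ideal.span_singleton_eq_span_singleton] at h2
          obtain ⟨ε, hε⟩ := h2
          have h3 := congrArg (algebraMap (𝓞 K) K) hε
          rw [map_mul, ha u (hVU hu.1), ha v (hVU hv.1)] at h3
          have h4 : u / v = algebraMap (𝓞 K) K (ε : 𝓞 K) := by
            have hmL : (m : K) ^ L ≠ 0 := pow_ne_zero _ hmK
            rw [div_eq_iff hv0]
            apply mul_left_cancel₀ hmL
            rw [← h3]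
            ring
          show IsIntegral ℤ (u / v)
          rw [h4]
          exact RingOfIntegers.isIntegral_coe (ε : 𝓞 K)
        · intro x _ y _ hxy
          simp only at hxy
          exact (div_left_inj' hv0).1 hxy)
    refine h1.trans (Nat.mul_le_mul_left _ ?_)
    apply het (2 * L)
    intro J hJ
    rw [Finset.mem_image] at hJ
    obtain ⟨u, hu, rfl⟩ := hJ
    exact hdvd u (hVU hu)
  have h2 := card_of_fibers K (hfin.toFinset.card * (e * (2 * L) + 1) ^ t) L U
    (fun u hu => ⟨(hU u hu).1, (hU u hu).2.2.2⟩) hV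
  refine h2.trans ?_
  rw [mul_assoc, pow_add]
  refine Nat.mul_le_mul_left _ (Nat.mul_le_mul ?_ ?_)
  · apply Nat.pow_le_pow_left
    nlinarith
  · apply Nat.pow_le_pow_left
    nlinarith

end AG
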