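import Pool.Agent.AG.C3
import Pool.Agent.AG.N5
import Pool.Agent.AG.N4

/-!
# [AG-C4] orbits contain few of the elements `vv g x A n`
-/

set_option autoImplicit false

namespace AG

variable {G : Type*} [Group G]

/-- the standing assumptions of the core theorem -/
structure Core (C H : Subgroup G) (χ f : G → QB) (m : ℕ) (g x : G) : Prop where
  wt : Wt C H χ f
  hm : m ≠ 0
  hV : Fgm m (f '' C)
  hg : g ∈ H
  hx : x ∈ C
  hfx : f x ≠ 0
  free : ∀ A B : Finset ℕ, pv (χ g) A = pv (χ g) B → A = B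

theorem c4_int (x : QB) : IsIntegral ℚ x := by
  have h : IsAlgebraic ℚ x := by
    have h0 := (AlgebraicClosure.isAlgebraic ℚ).isAlgebraic x
    obtain ⟨p, hp, hpx⟩ := h0
    refine ⟨p, hp, ?_⟩
    rw [Polynomial.aeval_def] at hpx ⊢
    rw [← hpx]
    congr 1
  exact h.isIntegral

theorem c4_pv_map {K L : Type*} [Field K] [Field L] (φ : K →+* L) (β : K) (A : Finset ℕ) :
    φ (pv β A) = pv (φ β) A := by
  unfold pv
  rw [map_sum]
  exact Finset.sum_congr rfl fun i _ => map_pow _ _ _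

theorem c4_mint {K L : Type*} [Field K] [Field L] [Algebra K L] (m : ℕ) (u : K)
    (h : MInt m (algebraMap K L u)) : MInt m u := by
  obtain ⟨j, hj⟩ := h
  refine ⟨j, ?_⟩
  have h1 : (m : L) ^ j * algebraMap K L u = algebraMap K L ((m : K) ^ j * u) := by
    rw [map_mul, map_pow, map_natCast]
  rw [h1] at hj
  exact (isIntegral_algebraMap_iff (algebraMap K L).injective).1 hj

/-- PROOF. `β = χ g`, `K = ℚ⟮β⟯ ≤ QB` (`IntermediateField.adjoin ℚ {β}`), a number field, `β' ∈ K` the generator. By `chi_mint` there is `s` with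
`m^s β` integral, hence `m^s β'` integral (`isIntegral_algebraMap_iff`). If `𝒜` is empty: clear. Fix `A₀ ∈ 𝒜`. For `A ∈ 𝒜` let
`u_A = pv β' A / pv β' A₀ ∈ K` (`pv ≠ 0` by `free`, as `pv β ∅ = 0`). `ratio_mint` for `φ` and for `φ⁻¹` (which fixes the weight too, `H` being characteristic):
`u_A` and `u_A⁻¹` are `MInt`. `ratio_bounds` with the constant `L₀`, then `count_units` for `L = L₀ n` and `U = {u_A}`; `A ↦ u_A` is injective by
`free`. -/
theorem fiber_bound {C H : Subgroup G} [C.Characteristic] [H.Characteristic] {χ f : G → QB} {m : ℕ}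
    {g x : G} (c : Core C H χ f m g x) : ∃ M d e : ℕ, ∀ (n : ℕ) (𝒜 : Finset (Finset ℕ)),
      (∀ A ∈ 𝒜, A ⊆ Finset.range n ∧ A.Nonempty) →
      (∀ A ∈ 𝒜, ∀ B ∈ 𝒜, ∃ φ : MulAut G, (∀ h ∈ H, χ (φ h) = χ h) ∧ φ (vv g x A n) = vv g x B n) →
        𝒜.card ≤ M * (e * n + 2) ^ d := by
  classical
  obtain ⟨s, hs⟩ := chi_mint c.wt m c.hm c.hV c.hg
  have hβi : IsIntegral ℚ (χ g) := c4_int (χ g)
  have hfin : FiniteDimensional ℚ (IntermediateField.adjoin ℚ {χ g}) :=
    IntermediateField.adjoin.finiteDimensional hβi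
  have hNF : NumberField (IntermediateField.adjoin ℚ {χ g}) :=
    { to_charZero := inferInstance
      to_finiteDimensional := hfin }
  obtain ⟨β, hβ⟩ : ∃ β : IntermediateField.adjoin ℚ {χ g},
      algebraMap (IntermediateField.adjoin ℚ {χ g}) QB β = χ g :=
    ⟨IntermediateField.AdjoinSimple.gen ℚ (χ g),
      IntermediateField.AdjoinSimple.algebraMap_gen ℚ (χ g)⟩
  have hβs : IsIntegral ℤ ((m : IntermediateField.adjoin ℚ {χ g}) ^ s * β) := by
    have h1 : (m : QB) ^ s * χ g = algebraMap (IntermediateField.adjoin ℚ {χ g}) QB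
        ((m : IntermediateField.adjoin ℚ {χ g}) ^ s * β) := by
      rw [map_mul, map_pow, map_natCast, hβ]
    rw [h1] at hs
    exact (isIntegral_algebraMap_iff
      (algebraMap (IntermediateField.adjoin ℚ {χ g}) QB).injective).1 hs
  obtain ⟨L₀, hL₀⟩ := ratio_bounds (IntermediateField.adjoin ℚ {χ g}) β m s c.hm hβs
  obtain ⟨M, d, e, hMde⟩ := count_units (IntermediateField.adjoin ℚ {χ g}) m c.hm
  refine ⟨M, d, e * L₀, fun n 𝒜 h𝒜 hφ => ?_⟩
  rcases 𝒜.eq_empty_or_nonempty with rfl | ⟨A₀, hA₀⟩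
  · simp
  have hmap : ∀ A : Finset ℕ, algebraMap (IntermediateField.adjoin ℚ {χ g}) QB (pv β A)
      = pv (χ g) A := by
    intro A
    rw [c4_pv_map, hβ]
  have hne' : ∀ A ∈ 𝒜, pv (χ g) A ≠ 0 := by
    intro A hA h0
    have h1 : pv (χ g) A = pv (χ g) ∅ := by
      rw [h0]; simp [pv]
    have h2 := c.free A ∅ h1
    exact (h𝒜 A hA).2.ne_empty h2
  have hne : ∀ A ∈ 𝒜, pv β A ≠ 0 := by
    intro A hA h0
    apply hne' A hA
    rw [← hmap, h0, map_zero]
  have hmint : ∀ A ∈ 𝒜, ∀ B ∈ 𝒜, MInt m (pv β B / pv β A) := by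
    intro A hA B hB
    obtain ⟨φ, hφ1, hφ2⟩ := hφ A hA B hB
    apply c4_mint (L := QB)
    rw [map_div₀, hmap, hmap]
    exact ratio_mint c.wt m c.hm c.hV c.hg c.hx c.hfx φ hφ1 n A B (h𝒜 A hA).1 (h𝒜 B hB).1 hφ2
      (hne' A hA)
  have hcard : (𝒜.image (fun A => pv β A / pv β A₀)).card = 𝒜.card := by
    apply Finset.card_image_of_injOn
    intro A hA B hB hAB
    have h1 : pv β A = pv β B := by
      have h2 : pv β A / pv β A₀ = pv β B / pv β A₀ := hAB
      exact (div_left_inj' (hne A₀ hA₀)).1 h2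
    apply c.free
    rw [← hmap, ← hmap, h1]
  rw [← hcard]
  have hfinal := hMde (L₀ * n) (𝒜.image (fun A => pv β A / pv β A₀)) (by
    intro u hu
    obtain ⟨A, hA, rfl⟩ := Finset.mem_image.1 hu
    have h3 : MInt m (pv β A / pv β A₀)⁻¹ := by
      rw [inv_div]
      exact hmint A hA A₀ hA₀
    have h4 := hL₀ n A₀ A (h𝒜 A₀ hA₀).1 (h𝒜 A hA).1 (hne A₀ hA₀) (hne A hA)
      (hmint A₀ hA₀ A hA) h3
    exact ⟨div_ne_zero (hne A hA) (hne A₀ hA₀), h4.1, h4.2.1, h4.2.2⟩)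
  calc (𝒜.image (fun A => pv β A / pv β A₀)).card ≤ M * (e * (L₀ * n) + 2) ^ d := hfinal
    _ = M * (e * L₀ * n + 2) ^ d := by rw [mul_assoc]

end AG
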