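import Pool.Agent.AG.C7
import Pool.Agent.AG.B2

/-!
# [AG-C5] the core theorem
-/

set_option autoImplicit false

namespace AG

variable {G : Type*} [Group G]

/-- **Core theorem.**

PROOF. Let `g ∈ ball S a`, `x ∈ ball S b`, `L = 2 a + b`. For `n` consider the `2^n - 1` nonempty subsets `A` of `range n` and the map
`A ↦ autOrbit (vv g x A n)` to the set of the orbits with an element in `ball S (L n)` (`vv_ball`), which has `autGrowth S (L n)` elements
(finite, `ball_finite`). Every fibre has at most `M (e n + 2)^d` elements (`autOrbit_eq_iff`, `orbit_bound`). So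
`2^n - 1 ≤ autGrowth S (L n) * (M (e n + 2)^d)` (`Finset.card_le_mul_card_image_of_maps_to`), and `dom_of_bound`. -/
theorem core (S : Finset G) (hS : Subgroup.closure (S : Set G) = ⊤) {C H : Subgroup G}
    [C.Characteristic] [H.Characteristic] [FiniteDimensional QB (Additive C →+ QB)] (hH : H.FG)
    {χ f : G → QB} {m : ℕ} {g x : G} (c : Core C H χ f m g x) :
    Dom (fun n => 2 ^ n) (autGrowth S) := by
  classical
  obtain ⟨a, ha⟩ := exists_mem_ball (S := S) (g := g) (by rw [hS]; exact Subgroup.mem_top g)
  obtain ⟨b, hb⟩ := exists_mem_ball (S := S) (g := x) (by rw [hS]; exact Subgroup.mem_top x)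
  obtain ⟨M, d, e, hM⟩ := orbit_bound hH c
  have hmono : Monotone (autGrowth S) := fun m n h => autGrowth_mono S h
  refine dom_of_bound (autGrowth S) hmono M e d (2 * a + b) fun n => ?_
  -- the finite set of orbits
  have hfin : (autOrbit '' ball S ((2 * a + b) * n)).Finite := (ball_finite S _).image _
  set T : Finset (Set G) := hfin.toFinset with hT
  have hTcard : T.card = autGrowth S ((2 * a + b) * n) := by
    unfold autGrowth
    rw [Set.ncard_eq_toFinset_card _ hfin]
  set P : Finset (Finset ℕ) := (Finset.range n).powerset.erase ∅ with hP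
  have hPcard : 2 ^ n = 1 + P.card := by
    have h1 : P.card + 1 = (Finset.range n).powerset.card :=
      Finset.card_erase_add_one (Finset.empty_mem_powerset _)
    rw [Finset.card_powerset, Finset.card_range] at h1
    omega
  have hmaps : ∀ A ∈ P, autOrbit (vv g x A n) ∈ T := by
    intro A _
    rw [hT, Set.Finite.mem_toFinset]
    exact ⟨_, vv_ball ha hb A n, rfl⟩
  have hfib : ∀ y ∈ T, (P.filter (fun A => autOrbit (vv g x A n) = y)).card ≤
      M * (e * n + 2) ^ d := by
    intro y _
    apply hM n
    · intro A hA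
      rw [Finset.mem_filter, hP, Finset.mem_erase, Finset.mem_powerset] at hA
      exact ⟨hA.1.2, Finset.nonempty_iff_ne_empty.mpr hA.1.1⟩
    · intro A hA B hB
      rw [Finset.mem_filter] at hA hB
      exact (autOrbit_eq_iff _ _).mp (hA.2.trans hB.2.symm)
  have hcard := Finset.card_le_mul_card_image_of_maps_to hmaps (M * (e * n + 2) ^ d) hfib
  rw [hTcard] at hcard
  rw [hPcard]
  have : (M * (e * n + 2) ^ d) * autGrowth S ((2 * a + b) * n) =
    autGrowth S ((2 * a + b) * n) * (M * (e * n + 2) ^ d) := Nat.mul_comm _ _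
  omega

end AG
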