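import Pool.Agent.AG.C1

/-!
# [AG-C6] finitely many weights
-/

set_option autoImplicit false

namespace AG

variable {G : Type*} [Group G] {F : Type*} [Field F]

/-- precomposition with the conjugation by `t` -/
noncomputable def c6_E (F : Type*) [Field F] (C : Subgroup G) [C.Normal] (t : G) :
    (Additive C →+ F) →ₗ[F] (Additive C →+ F) where
  toFun f := f.comp (MonoidHom.toAdditive ((MulAut.conjNormal t : MulAut C) : C →* C))
  map_add' _ _ := rfl
  map_smul' _ _ := rfl

theorem c6_E_apply (C : Subgroup G) [C.Normal] (t : G) (f : Additive C →+ F) (x : C) :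
    c6_E F C t f (Additive.ofMul x) = f (Additive.ofMul (MulAut.conjNormal t x)) := rfl

/-- the additive map attached to an additive function -/
def c6_f {C : Subgroup G} {f : G → F} (h : AddOn C f) : Additive C →+ F where
  toFun x := f (x.toMul : C)
  map_zero' := h.one
  map_add' x y := h _ (x.toMul : C).2 _ (y.toMul : C).2

theorem c6_f_apply {C : Subgroup G} {f : G → F} (h : AddOn C f) (x : C) :
    c6_f h (Additive.ofMul x) = f x := rfl

theorem c6_eig {C H : Subgroup G} [C.Normal] {χ f : G → F} (W : Wt C H χ f) {t : G} (ht : t ∈ H) :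
    Module.End.HasEigenvalue (c6_E F C t : Module.End F (Additive C →+ F)) (χ t) := by
  apply Module.End.hasEigenvalue_of_hasEigenvector (x := c6_f W.add)
  rw [Module.End.hasEigenvector_iff]
  constructor
  · rw [Module.End.mem_eigenspace_iff]
    ext x
    change c6_E F C t (c6_f W.add) (Additive.ofMul x) = χ t * c6_f W.add (Additive.ofMul x)
    rw [c6_E_apply, c6_f_apply, c6_f_apply, MulAut.conjNormal_apply]
    exact W.conj t ht _ x.2
  · intro h0
    obtain ⟨x, hx, hfx⟩ := W.ne
    apply hfx
    have h1 := DFunLike.congr_fun h0 (Additive.ofMul (⟨x, hx⟩ : C))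
    rw [c6_f_apply] at h1
    exact h1

theorem c6_ext {C H : Subgroup G} [C.Normal] {χ f χ' f' : G → F} (W : Wt C H χ f)
    (W' : Wt C H χ' f') (T : Set G) (hT : Subgroup.closure T = H) (h : ∀ t ∈ T, χ t = χ' t) :
    ∀ g ∈ H, χ g = χ' g := by
  intro g hg
  have hTH : T ⊆ H := hT ▸ Subgroup.subset_closure
  let K : Subgroup G :=
    { carrier := {y | y ∈ H ∧ χ y = χ' y}
      mul_mem' := by
        rintro a b ⟨ha, ha'⟩ ⟨hb, hb'⟩
        exact ⟨H.mul_mem ha hb, by rw [W.mul ha hb, W'.mul ha hb, ha', hb']⟩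
      one_mem' := ⟨H.one_mem, by rw [W.one, W'.one]⟩
      inv_mem' := by
        rintro a ⟨ha, ha'⟩
        refine ⟨H.inv_mem ha, ?_⟩
        have h1 := W.mul ha (H.inv_mem ha)
        have h2 := W'.mul ha (H.inv_mem ha)
        rw [mul_inv_cancel, W.one] at h1
        rw [mul_inv_cancel, W'.one, ← ha'] at h2
        exact mul_left_cancel₀ (W.chi_ne ha) (h1.symm.trans h2) }
  have hK : H ≤ K := by
    rw [← hT, Subgroup.closure_le]
    intro t ht
    exact ⟨hTH ht, h t ht⟩
  exact (hK hg).2

/-- **Finitely many weights.**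

PROOF. `H = closure T`, `T` finite. For `t ∈ T` the value `χ t` is an eigenvalue of the endomorphism `f ↦ f ∘ (conjugation by t)` of the finite
dimensional space `Additive C →+ F`; these have finitely many eigenvalues (`Module.End.finite_hasEigenvalue`). By `Wt.mul` (and
`χ t⁻¹ = (χ t)⁻¹`) the restriction of `χ` to `H` is determined by the values on `T`. -/
theorem finite_weights (C H : Subgroup G) [C.Normal] [FiniteDimensional F (Additive C →+ F)]
    (hH : H.FG) : {ω : H → F | ∃ χ f : G → F, Wt C H χ f ∧ ∀ h : H, ω h = χ h}.Finite := by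
  obtain ⟨T, hT⟩ := hH
  have hTH : ∀ t : T, (t : G) ∈ H := fun t => by
    have h1 : (T : Set G) ⊆ H := hT ▸ Subgroup.subset_closure
    exact h1 t.2
  let R : (H → F) → (T → F) := fun ω t => ω ⟨t, hTH t⟩
  apply Set.Finite.of_finite_image (f := R)
  · have hfin : (Set.pi Set.univ fun t : T => {z : F | Module.End.HasEigenvalue
        (c6_E F C (t : G) : Module.End F (Additive C →+ F)) z}).Finite := by
      apply Set.Finite.pi
      intro t
      exact Module.End.finite_hasEigenvalue _
    apply hfin.subset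
    rintro _ ⟨ω, ⟨χ, f, W, hω⟩, rfl⟩ t _
    change Module.End.HasEigenvalue _ (ω ⟨t, hTH t⟩)
    rw [hω]
    exact c6_eig W (hTH t)
  · rintro ω ⟨χ, f, W, hω⟩ ω' ⟨χ', f', W', hω'⟩ hR
    funext h
    rw [hω, hω']
    refine c6_ext W W' (T : Set G) hT ?_ h h.2
    intro t ht
    have h1 := congrFun hR ⟨t, ht⟩
    change ω ⟨t, _⟩ = ω' ⟨t, _⟩ at h1
    rw [hω, hω'] at h1
    exact h1

end AG
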