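import Pool.Agent.AG.C4
import Pool.Agent.AG.C6

/-!
# [AG-C7] orbits contain few of the elements `vv g x A n`
-/

set_option autoImplicit false

namespace AG

variable {G : Type*} [Group G]

/-- PROOF. Let `N` be the number of the weights (`finite_weights`; `ω = χ ∘ φ` restricted to `H` is a weight for every `φ`, `Wt.comp`). Fix
`A₀ ∈ 𝒜` and for `A ∈ 𝒜` choose `φ_A` with `φ_A (vv A₀) = vv A`, `ω_A = χ ∘ φ_A` on `H`. Split `𝒜` by the value of `ω_A` (`Finset.card_le_mul_card_image`);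
if `ω_A = ω_B` then `φ = φ_B φ_A⁻¹` maps `vv A` to `vv B` and `χ (φ h) = χ (φ_B (φ_A⁻¹ h)) = χ (φ_A (φ_A⁻¹ h)) = χ h` for `h ∈ H`
(`φ_A⁻¹ h ∈ H`). So each part has at most `M (e n + 2)^d` elements by `fiber_bound`. -/
theorem orbit_bound {C H : Subgroup G} [C.Characteristic] [H.Characteristic]
    [FiniteDimensional QB (Additive C →+ QB)] (hH : H.FG) {χ f : G → QB} {m : ℕ}
    {g x : G} (c : Core C H χ f m g x) : ∃ M d e : ℕ, ∀ (n : ℕ) (𝒜 : Finset (Finset ℕ)),
      (∀ A ∈ 𝒜, A ⊆ Finset.range n ∧ A.Nonempty) →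
      (∀ A ∈ 𝒜, ∀ B ∈ 𝒜, ∃ φ : MulAut G, φ (vv g x A n) = vv g x B n) →
        𝒜.card ≤ M * (e * n + 2) ^ d := by
  classical
  obtain ⟨M, d, e, hM⟩ := fiber_bound c
  have hfin := finite_weights (F := QB) C H hH
  set W : Finset (H → QB) := hfin.toFinset with hW
  refine ⟨W.card * M, d, e, fun n 𝒜 h1 h2 => ?_⟩
  rcases 𝒜.eq_empty_or_nonempty with h0 | ⟨A0, hA0⟩
  · rw [h0]; simp
  have h3 : ∀ A : Finset ℕ, ∃ φ : MulAut G, A ∈ 𝒜 → φ (vv g x A0 n) = vv g x A n := by
    intro A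
    by_cases hA : A ∈ 𝒜
    · obtain ⟨φ, hφ⟩ := h2 A0 hA0 A hA
      exact ⟨φ, fun _ => hφ⟩
    · exact ⟨1, fun h => absurd h hA⟩
  choose φ hφ using h3
  have hmaps : ∀ A ∈ 𝒜, (fun h : H => χ (φ A h)) ∈ W := by
    intro A _
    rw [hW, Set.Finite.mem_toFinset]
    exact ⟨fun y => χ (φ A y), fun y => f (φ A y), c.wt.comp (φ A), fun h => rfl⟩
  have hfib : ∀ ω ∈ W, (𝒜.filter (fun A => (fun h : H => χ (φ A h)) = ω)).card ≤
      M * (e * n + 2) ^ d := by
    intro ω _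
    apply hM n
    · intro A hA
      exact h1 A (Finset.mem_filter.mp hA).1
    · intro A hA B hB
      rw [Finset.mem_filter] at hA hB
      refine ⟨φ B * (φ A)⁻¹, ?_, ?_⟩
      · intro h hh
        have hmem : (φ A)⁻¹ h ∈ H := by
          have : (φ A)⁻¹ h ∈ H.comap ((φ A)⁻¹⁻¹ : MulAut G).toMonoidHom := by
            rw [Subgroup.mem_comap]
            simpa using hh
          rwa [Subgroup.Characteristic.fixed (self := inferInstance)] at this
        have h5 : (fun h : H => χ (φ A h)) = (fun h : H => χ (φ B h)) := hA.2.trans hB.2.symm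
        have h6 := congrFun h5 ⟨_, hmem⟩
        simp only at h6
        rw [MulAut.mul_apply, ← h6]
        simp
      · rw [MulAut.mul_apply, ← hφ A hA.1, ← hφ B hB.1]
        simp
  have hcard := Finset.card_le_mul_card_image_of_maps_to hmaps (M * (e * n + 2) ^ d) hfib
  calc 𝒜.card ≤ M * (e * n + 2) ^ d * W.card := hcard
    _ = W.card * M * (e * n + 2) ^ d := by ring

end AG
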