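import Mathlib

/-!
# [AG] automorphic growth of virtually solvable groups of finite rank (MP_893f58_al): definitions
-/

set_option autoImplicit false

namespace AG

section

variable {G : Type*} [Group G]

/-- the elements of word length at most `n` with respect to `S` -/
def ball (S : Finset G) (n : ℕ) : Set G :=
  {g | ∃ l : List G, l.length ≤ n ∧ (∀ x ∈ l, x ∈ S ∨ x⁻¹ ∈ S) ∧ l.prod = g}

/-- the orbit of `g` under the automorphism group of `G` -/
def autOrbit (g : G) : Set G := {h | ∃ φ : MulAut G, φ g = h}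

/-- the word growth function -/
noncomputable def wordGrowth (S : Finset G) (n : ℕ) : ℕ := (ball S n).ncard

/-- the automorphic growth function: the number of `Aut G`-orbits with an element of length at most `n` -/
noncomputable def autGrowth (S : Finset G) (n : ℕ) : ℕ := (autOrbit '' ball S n).ncard

end

/-- `f ≼ g` -/
def Dom (f g : ℕ → ℕ) : Prop := ∃ C : ℕ, 1 ≤ C ∧ ∀ n, f n ≤ C * g (C * n + C) + C

/-- `f ≃ 2^n` -/
def Exponential (f : ℕ → ℕ) : Prop := Dom f (fun n => 2 ^ n) ∧ Dom (fun n => 2 ^ n) f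

/-- `G` has a solvable subgroup of finite index. -/
def VirtSolvable (G : Type*) [Group G] : Prop :=
  ∃ H : Subgroup G, H.FiniteIndex ∧ Group.IsSolvable H

/-- Every finitely generated subgroup can be generated by `r` elements. -/
def RankLe (G : Type*) [Group G] (r : ℕ) : Prop :=
  ∀ K : Subgroup G, K.FG → ∃ T : Finset G, T.card ≤ r ∧ Subgroup.closure (T : Set G) = K

/-- finite Prüfer rank -/
def FinRank (G : Type*) [Group G] : Prop := ∃ r : ℕ, RankLe G r

/-! ## auxiliary notions -/

/-- polynomially bounded growth -/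
def PolyG {G : Type*} [Group G] (T : Finset G) : Prop :=
  ∃ C d : ℕ, ∀ n, (ball T n).ncard ≤ C * (n + 1) ^ d

/-- `f` is additive on `D` (only the values on `D` matter) -/
def AddOn {G : Type*} [Group G] {F : Type*} [Field F] (D : Subgroup G) (f : G → F) : Prop :=
  ∀ x ∈ D, ∀ y ∈ D, f (x * y) = f x + f y

/-- `f` is a nonzero eigenfunctional of `h` on `D` with eigenvalue `z` -/
def Eig {G : Type*} [Group G] {F : Type*} [Field F] (D : Subgroup G) (h : G) (f : G → F) (z : F) :
    Prop :=
  AddOn D f ∧ (∃ x ∈ D, f x ≠ 0) ∧ ∀ x ∈ D, f (h * x * h⁻¹) = z * f x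

/-- `f` is a nonzero common eigenfunctional of `H` on `C`, with the weight `χ` (only the values on `H` matter) -/
structure Wt {G : Type*} [Group G] {F : Type*} [Field F] (C H : Subgroup G) (χ f : G → F) :
    Prop where
  add : AddOn C f
  ne : ∃ x ∈ C, f x ≠ 0
  conj : ∀ h ∈ H, ∀ x ∈ C, f (h * x * h⁻¹) = χ h * f x

/-- `∑_{i ∈ A} β ^ i` -/
def pv {F : Type*} [Field F] (β : F) (A : Finset ℕ) : F := ∑ i ∈ A, β ^ i

/-- `ℤ[1/m]` -/
def Rm (F : Type*) [Field F] (m : ℕ) : Subalgebra ℤ F := Algebra.adjoin ℤ {((m : F)⁻¹)}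

/-- `V` is contained in a finitely generated `ℤ[1/m]`-submodule -/
def Fgm {F : Type*} [Field F] (m : ℕ) (V : Set F) : Prop :=
  ∃ T : Finset F, V ⊆ (Submodule.span (Rm F m) (T : Set F) : Set F)

/-- `u` is integral over `ℤ[1/m]` -/
def MInt {F : Type*} [Field F] (m : ℕ) (u : F) : Prop := ∃ j : ℕ, IsIntegral ℤ ((m : F) ^ j * u)

/-- `∏_{i < n, i ∈ A} g^i x g^(-i)` -/
def vv {G : Type*} [Group G] (g x : G) (A : Finset ℕ) : ℕ → G
  | 0 => 1
  | n + 1 => vv g x A n * (if n ∈ A then g ^ n * x * (g ^ n)⁻¹ else 1)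

/-- the field of algebraic numbers -/
abbrev QB : Type := AlgebraicClosure ℚ

end AG
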