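import Pool.Agent.AG.Defs

/-!
# [AG-I3] bases for digit expansions
-/

set_option autoImplicit false

namespace AG

open Polynomial

theorem i3_range {F : Type*} [Field F] (β : F) (A : Finset ℕ) {N : ℕ} (hN : ∀ i ∈ A, i < N) :
    pv β A = ∑ i ∈ Finset.range N, (if i ∈ A then β ^ i else 0) := by
  unfold pv
  rw [← Finset.sum_filter]
  refine Finset.sum_congr ?_ fun _ _ => rfl
  ext i
  simp only [Finset.mem_filter, Finset.mem_range]
  exact ⟨fun h => ⟨hN i h, h⟩, fun h => h.2⟩

/-- one side: the largest element `n` of the symmetric difference is in `A` -/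
theorem i3_side {F : Type*} [Field F] (β : F) (A B : Finset ℕ) (h : pv β A = pv β B) (n : ℕ)
    (hA : n ∈ A) (hB : n ∉ B) (hgt : ∀ i, n < i → (i ∈ A ↔ i ∈ B)) :
    ∃ c : ℕ → ℤ, (∀ i, |c i| ≤ 1) ∧ β ^ n = ∑ i ∈ Finset.range n, (c i : F) * β ^ i := by
  refine ⟨fun i => (if i ∈ B then 1 else 0) - (if i ∈ A then 1 else 0), fun i => ?_, ?_⟩
  · by_cases h1 : i ∈ A <;> by_cases h2 : i ∈ B <;> simp [h1, h2]
  · set N := (A ∪ B).sup id + 1 with hN
    have hAN : ∀ i ∈ A, i < N := fun i hi =>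
      Nat.lt_succ_of_le (Finset.le_sup (f := id) (Finset.mem_union_left B hi))
    have hBN : ∀ i ∈ B, i < N := fun i hi =>
      Nat.lt_succ_of_le (Finset.le_sup (f := id) (Finset.mem_union_right A hi))
    have hnN := hAN n hA
    have h0 : ∑ i ∈ Finset.range N, ((if i ∈ A then β ^ i else 0) - (if i ∈ B then β ^ i else 0))
        = 0 := by
      rw [Finset.sum_sub_distrib, ← i3_range β A hAN, ← i3_range β B hBN, h, sub_self]
    have hsub : Finset.range (n + 1) ⊆ Finset.range N := by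
      intro i hi
      rw [Finset.mem_range] at hi ⊢
      omega
    rw [← Finset.sum_subset hsub (fun i hi hi' => by
      rw [Finset.mem_range] at hi hi'
      have h1 := hgt i (by omega)
      by_cases h2 : i ∈ A
      · simp [h2, h1.1 h2]
      · have h3 : i ∉ B := fun h4 => h2 (h1.2 h4)
        simp [h2, h3])] at h0
    rw [Finset.sum_range_succ] at h0
    simp only [hA, hB, if_true, if_false, sub_zero] at h0
    have h4 : ∑ i ∈ Finset.range n,
        ((((if i ∈ B then 1 else 0) - (if i ∈ A then 1 else 0) : ℤ)) : F) * β ^ i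
        = -∑ i ∈ Finset.range n, ((if i ∈ A then β ^ i else 0) - (if i ∈ B then β ^ i else 0)) := by
      rw [← Finset.sum_neg_distrib]
      refine Finset.sum_congr rfl fun i _ => ?_
      by_cases h1 : i ∈ A <;> by_cases h2 : i ∈ B <;> simp [h1, h2]
    rw [h4]
    linear_combination h0

theorem i3_key {F : Type*} [Field F] (β : F) (A B : Finset ℕ) (h : pv β A = pv β B)
    (hne : A ≠ B) : ∃ (n : ℕ) (c : ℕ → ℤ), (∀ i, |c i| ≤ 1) ∧
      β ^ n = ∑ i ∈ Finset.range n, (c i : F) * β ^ i := by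
  have hS : (symmDiff A B).Nonempty := by
    rw [Finset.nonempty_iff_ne_empty]
    intro h0
    exact hne (symmDiff_eq_bot.mp h0)
  set n := (symmDiff A B).max' hS with hn
  have hnm : n ∈ symmDiff A B := Finset.max'_mem _ hS
  have hgt : ∀ i, n < i → (i ∈ A ↔ i ∈ B) := by
    intro i hi
    by_contra hcon
    have h1 : i ∈ symmDiff A B := by
      rw [Finset.mem_symmDiff]
      tauto
    exact absurd (Finset.le_max' _ i h1) (not_le.mpr hi)
  rw [Finset.mem_symmDiff] at hnm
  rcases hnm with ⟨h1, h2⟩ | ⟨h1, h2⟩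
  · obtain ⟨c, hc⟩ := i3_side β A B h n h1 h2 hgt
    exact ⟨n, c, hc⟩
  · obtain ⟨c, hc⟩ := i3_side β B A h.symm n h1 h2 fun i hi => (hgt i hi).symm
    exact ⟨n, c, hc⟩

/-- PROOF. If `A ≠ B` let `n` be the largest element of the symmetric difference, for instance `n ∈ A`, `n ∉ B`; the terms with `i > n` cancel, so
`β ^ n = ∑_{i ∈ B, i < n} β ^ i - ∑_{i ∈ A, i < n} β ^ i`: `β` is a root of a monic polynomial of degree `n` with integral coefficients (degree `n ≥ 1`: for `n = 0` we would have `1 = 0`). -/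
theorem free_of_not_integral (β : QB) (hβ : ¬ IsIntegral ℤ β) (A B : Finset ℕ)
    (h : pv β A = pv β B) : A = B := by
  by_contra hne
  obtain ⟨n, c, hc, hn⟩ := i3_key β A B h hne
  refine hβ ⟨X ^ n - ∑ i ∈ Finset.range n, C (c i) * X ^ i, ?_, ?_⟩
  · refine monic_X_pow_sub ?_
    refine lt_of_le_of_lt (degree_sum_le _ _) ?_
    rw [Finset.sup_lt_iff (by exact WithBot.bot_lt_coe n)]
    intro i hi
    exact lt_of_le_of_lt (degree_C_mul_X_pow_le _ _)
      (by exact_mod_cast Finset.mem_range.mp hi)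
  · rw [eval₂_sub, eval₂_X_pow, eval₂_finsetSum, hn, sub_eq_zero]
    refine Finset.sum_congr rfl fun i _ => ?_
    rw [eval₂_mul, eval₂_C, eval₂_X_pow]
    simp

theorem i3_geom {x : ℝ} (hx : 2 ≤ x) (n : ℕ) : ∑ i ∈ Finset.range n, x ^ i ≤ x ^ n - 1 := by
  induction n with
  | zero => simp
  | succ n ih =>
    rw [Finset.sum_range_succ, pow_succ]
    have h1 : 0 ≤ x ^ n := pow_nonneg (by linarith) n
    nlinarith

/-- PROOF. Same beginning; `|σ β|^n ≤ ∑_{i < n} |σ β|^i = (|σ β|^n - 1) / (|σ β| - 1) < |σ β|^n` because of `|σ β| ≥ 2` (each `i < n` occurs with a coefficient `-1, 0, 1`). -/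
theorem free_of_large (β : QB) (σ : QB →+* ℂ) (hσ : 2 ≤ ‖σ β‖) (A B : Finset ℕ)
    (h : pv β A = pv β B) : A = B := by
  by_contra hne
  obtain ⟨n, c, hc, hn⟩ := i3_key β A B h hne
  have h1 : ‖σ β‖ ^ n ≤ ∑ i ∈ Finset.range n, ‖σ β‖ ^ i := by
    have h2 : σ β ^ n = ∑ i ∈ Finset.range n, (c i : ℂ) * σ β ^ i := by
      have := congrArg σ hn
      rw [map_pow, map_sum] at this
      rw [this]
      refine Finset.sum_congr rfl fun i _ => ?_
      rw [map_mul, map_pow, map_intCast]
    rw [← norm_pow, h2]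
    refine (norm_sum_le _ _).trans (Finset.sum_le_sum fun i _ => ?_)
    rw [norm_mul, norm_pow]
    have h3 : ‖(c i : ℂ)‖ ≤ 1 := by
      rw [Complex.norm_intCast]
      exact_mod_cast hc i
    exact mul_le_of_le_one_left (by positivity) h3
  have h2 := i3_geom hσ n
  linarith

/-- PROOF. If `z` is not integral: `t = 1`. If `z` is integral: `K = ℚ⟮z⟯`; by `NumberField.Embeddings.pow_eq_one_of_norm_le_one` there is `φ : K →+* ℂ` with `‖φ z‖ > 1`; extend `φ` to `σ : QB →+* ℂ`
(`IsAlgClosed.lift`; `QB` is algebraic over `K`). `‖σ z‖^t ≥ 2` for some `t ≥ 1`; `free_of_large`. -/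
theorem exists_free (z : QB) (hz0 : z ≠ 0) (hz : ∀ k : ℕ, 0 < k → z ^ k ≠ 1) :
    ∃ t : ℕ, 0 < t ∧ ∀ A B : Finset ℕ, pv (z ^ t) A = pv (z ^ t) B → A = B := by
  by_cases hint : IsIntegral ℤ z
  · have hA : Algebra.IsAlgebraic ℚ QB := AlgebraicClosure.isAlgebraic ℚ
    have halg : IsIntegral ℚ z := (hA.isAlgebraic z).isIntegral
    set K := IntermediateField.adjoin ℚ {z} with hK
    have hfd : FiniteDimensional ℚ K := IntermediateField.adjoin.finiteDimensional halg
    have hnf : NumberField K := { to_charZero := inferInstance, to_finiteDimensional := hfd }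
    have hzK : z ∈ K := IntermediateField.mem_adjoin_simple_self ℚ z
    set y : K := ⟨z, hzK⟩ with hy
    have hyint : IsIntegral ℤ y := by
      have : IsIntegral ℤ (algebraMap K QB y) := hint
      exact (isIntegral_algebraMap_iff (algebraMap K QB).injective).mp this
    have hex : ∃ φ : K →+* ℂ, 1 < ‖φ y‖ := by
      by_contra hcon
      push Not at hcon
      obtain ⟨k, hk, hk1⟩ := NumberField.Embeddings.pow_eq_one_of_norm_le_one (K := K) (A := ℂ)
        (x := y) (fun h0 => hz0 (congrArg (fun w : K => (w : QB)) h0)) hyint hcon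
      exact hz k hk (congrArg (fun w : K => (w : QB)) hk1)
    obtain ⟨φ, hφ⟩ := hex
    let _ : Algebra K ℂ := φ.toAlgebra
    have : Algebra.IsAlgebraic K QB := Algebra.IsAlgebraic.tower_top (K := ℚ) K
    let σ : QB →ₐ[K] ℂ := IsAlgClosed.lift
    have hσ : σ z = φ y := σ.commutes y
    obtain ⟨t, ht⟩ := pow_unbounded_of_one_lt 2 hφ
    have ht0 : 0 < t := by
      rcases Nat.eq_zero_or_pos t with h | h
      · subst h
        norm_num at ht
      · exact h
    refine ⟨t, ht0, fun A B h => free_of_large (z ^ t) (σ : QB →+* ℂ) ?_ A B h⟩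
    have : (σ : QB →+* ℂ) (z ^ t) = φ y ^ t := by
      rw [map_pow]
      congr 1
    rw [this, norm_pow]
    exact ht.le
  · exact ⟨1, one_pos, fun A B h => by
      rw [pow_one] at h
      exact free_of_not_integral z hint A B h⟩

end AG
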