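import Mathlib

/-!
# [AG-G4] finiteness properties of nilpotent groups
-/

set_option autoImplicit false

open scoped commutatorElement

namespace AG

/-- subgroups of finitely generated abelian groups are finitely generated -/
theorem g4_comm_fg {A : Type*} [CommGroup A] [Group.FG A] (B : Subgroup A) : B.FG := by
  have : Module.Finite ℤ (Additive A) := Module.Finite.iff_addGroup_fg.2 inferInstance
  rw [Subgroup.fg_iff_add_fg]
  have h : (AddSubgroup.toIntSubmodule (Subgroup.toAddSubgroup B)).FG :=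
    IsNoetherian.noetherian _
  rw [Submodule.fg_iff_addSubgroup_fg] at h
  exact h

theorem g4_central {Q : Type*} [Group Q] (X : Finset Q) (hX : (X : Set Q) ⊆ Subgroup.center Q)
    (B : Subgroup Q) (hB : B ≤ Subgroup.closure (X : Set Q)) : B.FG := by
  let _i : CommGroup (Subgroup.closure (X : Set Q)) :=
    Subgroup.closureCommGroupOfComm (fun x hx y _ => ((Subgroup.mem_center_iff.1 (hX hx)) y).symm)
  have : Group.FG (Subgroup.closure (X : Set Q)) :=
    (Group.fg_iff_subgroup_fg _).2 ⟨X, rfl⟩
  have h := g4_comm_fg (B.subgroupOf (Subgroup.closure (X : Set Q)))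
  classical
  obtain ⟨S, hS⟩ := h
  refine ⟨S.image (Subgroup.closure (X : Set Q)).subtype, ?_⟩
  rw [Finset.coe_image, ← MonoidHom.map_closure, hS, Subgroup.subgroupOf_map_subtype,
    inf_eq_left.2 hB]

theorem g4_step {G : Type*} [Group G] [Group.FG G] (D E : Subgroup G) [D.Normal] [E.Normal]
    (hED : E ≤ D) (hcomm : ∀ x ∈ D, ∀ g : G, ⁅x, g⁆ ∈ E) (X : Finset G)
    (hX : Subgroup.normalClosure (X : Set G) = D) :
    ∃ X' : Finset G, Subgroup.normalClosure (X' : Set G) = E := by
  classical
  obtain ⟨Y, hY⟩ := Group.FG.out (G := G)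
  obtain ⟨X₁, hX₁⟩ : ∃ X₁ : Finset G, X₁ = (X ×ˢ Y).image (fun p => ⁅p.1, p.2⁆) := ⟨_, rfl⟩
  obtain ⟨N₁, hN₁⟩ : ∃ N₁ : Subgroup G, N₁ = Subgroup.normalClosure (X₁ : Set G) := ⟨_, rfl⟩
  have hNn : N₁.Normal := by rw [hN₁]; infer_instance
  have hXD : ∀ x ∈ X, x ∈ D := fun x hx => by
    rw [← hX]; exact Subgroup.subset_normalClosure hx
  have hX₁E : (X₁ : Set G) ⊆ E := by
    intro z hz
    rw [hX₁, Finset.coe_image] at hz
    obtain ⟨⟨a, b⟩, hab, rfl⟩ := hz
    rw [Finset.mem_coe, Finset.mem_product] at hab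
    exact hcomm a (hXD a hab.1) b
  have hN₁E : N₁ ≤ E := by
    rw [hN₁]; exact Subgroup.normalClosure_le_normal hX₁E
  have hcen : ∀ x ∈ X, QuotientGroup.mk' N₁ x ∈ Subgroup.center (G ⧸ N₁) := by
    intro x hx
    have h1 : (⊤ : Subgroup G) ≤
        (Subgroup.centralizer {QuotientGroup.mk' N₁ x}).comap (QuotientGroup.mk' N₁) := by
      rw [← hY, Subgroup.closure_le]
      intro y hy
      rw [SetLike.mem_coe, Subgroup.mem_comap, Subgroup.mem_centralizer_iff]
      rintro _ rfl
      have h2 : ⁅x, y⁆ ∈ N₁ := by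
        rw [hN₁]
        apply Subgroup.subset_normalClosure
        rw [hX₁, Finset.coe_image]
        exact ⟨(x, y), Finset.mem_coe.2 (Finset.mem_product.2 ⟨hx, hy⟩), rfl⟩
      have h3 : QuotientGroup.mk' N₁ ⁅x, y⁆ = 1 := (QuotientGroup.eq_one_iff _).2 h2
      rw [map_commutatorElement, commutatorElement_eq_one_iff_mul_comm] at h3
      exact h3
    rw [Subgroup.mem_center_iff]
    intro z
    obtain ⟨g, rfl⟩ := QuotientGroup.mk'_surjective N₁ z
    have h4 := h1 (Subgroup.mem_top g)
    rw [Subgroup.mem_comap, Subgroup.mem_centralizer_iff] at h4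
    exact (h4 _ rfl).symm
  have hXcen : ((X.image (QuotientGroup.mk' N₁) : Finset (G ⧸ N₁)) : Set (G ⧸ N₁)) ⊆
      Subgroup.center (G ⧸ N₁) := by
    intro z hz
    rw [Finset.coe_image] at hz
    obtain ⟨x, hx, rfl⟩ := hz
    exact hcen x hx
  have hclcen : Subgroup.closure ((X.image (QuotientGroup.mk' N₁) : Finset (G ⧸ N₁)) : Set (G ⧸ N₁)) ≤
      Subgroup.center (G ⧸ N₁) := (Subgroup.closure_le _).2 hXcen
  have hnorm : (Subgroup.closure
      ((X.image (QuotientGroup.mk' N₁) : Finset (G ⧸ N₁)) : Set (G ⧸ N₁))).Normal := by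
    constructor
    intro z hz g
    have h5 := Subgroup.mem_center_iff.1 (hclcen hz) g
    rw [h5, mul_inv_cancel_right]
    exact hz
  have hmapD : D.map (QuotientGroup.mk' N₁) ≤ Subgroup.closure
      ((X.image (QuotientGroup.mk' N₁) : Finset (G ⧸ N₁)) : Set (G ⧸ N₁)) := by
    rw [← hX, Subgroup.map_normalClosure _ _ (QuotientGroup.mk'_surjective N₁)]
    apply Subgroup.normalClosure_le_normal
    rw [Finset.coe_image]
    exact Subgroup.subset_closure
  have hBfg : (E.map (QuotientGroup.mk' N₁)).FG :=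
    g4_central _ hXcen _ ((Subgroup.map_mono hED).trans hmapD)
  obtain ⟨Z, hZ⟩ := hBfg
  have hZsub : (Z : Set (G ⧸ N₁)) ⊆ (QuotientGroup.mk' N₁) '' (E : Set G) := by
    intro z hz
    have h6 : z ∈ E.map (QuotientGroup.mk' N₁) := by
      rw [← hZ]; exact Subgroup.subset_closure hz
    obtain ⟨g, hg, rfl⟩ := h6
    exact ⟨g, hg, rfl⟩
  obtain ⟨X₂, hX₂E, hX₂Z⟩ := Finset.subset_set_image_iff.1 hZsub
  refine ⟨X₁ ∪ X₂, le_antisymm ?_ ?_⟩
  · apply Subgroup.normalClosure_le_normal
    rw [Finset.coe_union]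
    exact Set.union_subset hX₁E hX₂E
  · intro w hw
    have hN₁' : N₁ ≤ Subgroup.normalClosure ((X₁ ∪ X₂ : Finset G) : Set G) := by
      rw [hN₁]
      apply Subgroup.normalClosure_mono
      rw [Finset.coe_union]
      exact Set.subset_union_left
    have h7 : QuotientGroup.mk' N₁ w ∈ (Subgroup.normalClosure
        ((X₁ ∪ X₂ : Finset G) : Set G)).map (QuotientGroup.mk' N₁) := by
      have h8 : QuotientGroup.mk' N₁ w ∈ E.map (QuotientGroup.mk' N₁) := ⟨w, hw, rfl⟩
      rw [← hZ] at h8
      refine (Subgroup.closure_le _).2 ?_ h8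
      intro z hz
      rw [← hX₂Z, Finset.coe_image] at hz
      obtain ⟨g, hg, rfl⟩ := hz
      refine ⟨g, Subgroup.subset_normalClosure ?_, rfl⟩
      rw [Finset.coe_union]
      exact Or.inr hg
    obtain ⟨w', hw', h9⟩ := h7
    have h10 : w'⁻¹ * w ∈ N₁ := by
      rw [← QuotientGroup.eq]
      exact h9
    have h11 : w = w' * (w'⁻¹ * w) := by group
    rw [h11]
    exact mul_mem hw' (hN₁' h10)

/-- **Normal subgroups with nilpotent quotient are finitely normally generated.**

PROOF. Let `Y` be a finite generating set of `G`, `L j = ⊤.lowerCentralSeries j`, `D j = D ⊔ L j` (normal, `D 0 = ⊤`, `D c = D`, `⁅D j, ⊤⁆ ≤ D (j+1)`). By induction on `j`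
there is a finite set `X` with `D j = normalClosure X`; `j = 0`: `X = Y`. Step: let `X₁ = {⁅x, y⁆ : x ∈ X, y ∈ Y}`, `N₁ = normalClosure X₁ ≤ D (j+1)`. In
`Q = G ⧸ N₁` the images of the `x ∈ X` commute with the images of the `y ∈ Y`, so they are central, and the image `A` of `D j` (the normal closure of the image of `X`) is the
subgroup generated by the image of `X`: a finitely generated abelian group (in the center of `Q`). Its subgroup, the image of `D (j+1)`, is finitely
generated (subgroups of finitely generated abelian groups). So `D (j+1) = normalClosure (X₁ ∪ X₂)`, `X₂` a finite set of representatives of generators. -/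
theorem normally_fg (G : Type*) [Group G] [Group.FG G] (D : Subgroup G) [D.Normal] (c : ℕ)
    (hc : (⊤ : Subgroup G).lowerCentralSeries c ≤ D) :
    ∃ X : Finset G, Subgroup.normalClosure (X : Set G) = D := by
  have main : ∀ j : ℕ, ∃ X : Finset G, Subgroup.normalClosure (X : Set G) =
      D ⊔ (⊤ : Subgroup G).lowerCentralSeries j := by
    intro j
    induction j with
    | zero =>
      obtain ⟨Y, hY⟩ := Group.FG.out (G := G)
      refine ⟨Y, ?_⟩
      rw [Subgroup.lowerCentralSeries_zero, sup_top_eq]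
      apply top_unique
      rw [← hY]
      exact Subgroup.closure_le_normalClosure
    | succ j ih =>
      obtain ⟨X, hX⟩ := ih
      have h0 : ((⊤ : Subgroup G).lowerCentralSeries j).Normal := inferInstance
      have h0' : ((⊤ : Subgroup G).lowerCentralSeries (j + 1)).Normal := inferInstance
      refine g4_step (D ⊔ (⊤ : Subgroup G).lowerCentralSeries j)
        (D ⊔ (⊤ : Subgroup G).lowerCentralSeries (j + 1))
        (sup_le_sup_left (Subgroup.lowerCentralSeries_antitone _ (Nat.le_succ j)) D) ?_ X hX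
      have hle : D ⊔ (⊤ : Subgroup G).lowerCentralSeries j ≤
          (Subgroup.center (G ⧸ (D ⊔ (⊤ : Subgroup G).lowerCentralSeries (j + 1)))).comap
            (QuotientGroup.mk' (D ⊔ (⊤ : Subgroup G).lowerCentralSeries (j + 1))) := by
        refine sup_le ?_ ?_
        · intro x hx
          have h1 : QuotientGroup.mk' (D ⊔ (⊤ : Subgroup G).lowerCentralSeries (j + 1)) x = 1 :=
            (QuotientGroup.eq_one_iff _).2 (Subgroup.mem_sup_left hx)
          rw [Subgroup.mem_comap, h1]
          exact one_mem _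
        · intro x hx
          rw [Subgroup.mem_comap, Subgroup.mem_center_iff]
          intro z
          obtain ⟨g, rfl⟩ := QuotientGroup.mk'_surjective _ z
          have h2 : ⁅x, g⁆ ∈ D ⊔ (⊤ : Subgroup G).lowerCentralSeries (j + 1) := by
            apply Subgroup.mem_sup_right
            rw [Subgroup.lowerCentralSeries_succ]
            exact Subgroup.commutator_mem_commutator hx (Subgroup.mem_top g)
          have h3 : QuotientGroup.mk' (D ⊔ (⊤ : Subgroup G).lowerCentralSeries (j + 1)) ⁅x, g⁆ = 1 :=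
            (QuotientGroup.eq_one_iff _).2 h2
          rw [map_commutatorElement, commutatorElement_eq_one_iff_mul_comm] at h3
          exact h3.symm
      intro x hx g
      have h4 := Subgroup.mem_center_iff.1 (Subgroup.mem_comap.1 (hle hx))
        (QuotientGroup.mk' (D ⊔ (⊤ : Subgroup G).lowerCentralSeries (j + 1)) g)
      rw [← QuotientGroup.eq_one_iff]
      change QuotientGroup.mk' (D ⊔ (⊤ : Subgroup G).lowerCentralSeries (j + 1)) ⁅x, g⁆ = 1
      rw [map_commutatorElement, commutatorElement_eq_one_iff_mul_comm]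
      exact h4.symm
  obtain ⟨X, hX⟩ := main c
  exact ⟨X, by rw [hX, sup_eq_left.2 hc]⟩

end AG
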