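import Pool.Agent.AG.Defs

/-!
# [AG-G5] groups of finite rank
-/

set_option autoImplicit false

namespace AG

variable {G : Type*} [Group G]

theorem g5_lift (D : Subgroup G) [DecidablePred (· ∈ D)] (T : Finset G)
    (hT : Subgroup.closure (T : Set G) ≤ D) (d : D) (hd : (d : G) ∈ Subgroup.closure (T : Set G)) :
    d ∈ Subgroup.closure ((T.subtype (· ∈ D) : Finset D) : Set D) := by
  have h1 : Subgroup.map D.subtype (Subgroup.closure ((T.subtype (· ∈ D) : Finset D) : Set D)) =
      Subgroup.closure (T : Set G) := by
    rw [MonoidHom.map_closure]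
    congr 1
    ext x
    constructor
    · rintro ⟨y, hy, rfl⟩
      exact Finset.mem_subtype.1 hy
    · intro hx
      exact ⟨⟨x, hT (Subgroup.subset_closure hx)⟩, Finset.mem_subtype.2 hx, rfl⟩
  rw [← h1] at hd
  obtain ⟨y, hy, hyd⟩ := hd
  have : y = d := Subtype.ext hyd
  rw [← this]
  exact hy

theorem g5_ev_closure {D W F : Type*} [Group D] [Field F] [AddCommGroup W] [Module F W] (ev : D → W)
    (hev : ∀ x y, ev (x * y) = ev x + ev y) (S : Set D) (d : D) (hd : d ∈ Subgroup.closure S) :
    ev d ∈ Submodule.span F (ev '' S) := by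
  have h1 : ev 1 = 0 := by
    have := hev 1 1
    rw [mul_one] at this
    exact left_eq_add.1 this
  induction hd using Subgroup.closure_induction with
  | mem x hx => exact Submodule.subset_span ⟨x, hx, rfl⟩
  | one => rw [h1]; exact Submodule.zero_mem _
  | mul x y _ _ hx hy =>
    rw [hev]
    exact Submodule.add_mem _ hx hy
  | inv x _ hx =>
    have : ev x⁻¹ = -ev x := by
      rw [eq_neg_iff_add_eq_zero, ← hev, inv_mul_cancel, h1]
    rw [this]
    exact Submodule.neg_mem _ hx

theorem g5_span {D V F : Type*} [Field F] [AddCommGroup V] [Module F V]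
    [FiniteDimensional F V] (ev : D → Module.Dual F V) (hsep : ∀ v, (∀ d, ev d v = 0) → v = 0) :
    Submodule.span F (Set.range ev) = ⊤ := by
  have h1 : (Submodule.span F (Set.range ev)).dualCoannihilator = ⊥ := by
    rw [Submodule.eq_bot_iff]
    intro v hv
    rw [Submodule.mem_dualCoannihilator] at hv
    exact hsep v fun d => hv (ev d) (Submodule.subset_span ⟨d, rfl⟩)
  have h2 := Subspace.dualCoannihilator_dualAnnihilator_eq (W := Submodule.span F (Set.range ev))
  rw [h1, Submodule.dualAnnihilator_bot] at h2
  exact h2.symm

theorem g5_finrank {r : ℕ} (hG : RankLe G r) (D : Subgroup G) {V F : Type*} [Field F]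
    [AddCommGroup V] [Module F V] [FiniteDimensional F V] (ev : D → Module.Dual F V)
    (hev : ∀ x y, ev (x * y) = ev x + ev y) (hsep : ∀ v, (∀ d, ev d v = 0) → v = 0) :
    Module.finrank F V ≤ r := by
  classical
  have h1 := g5_span ev hsep
  have h2 : (Submodule.span F (Set.range ev)).FG := by
    rw [h1]; exact Module.finite_def.1 inferInstance
  obtain ⟨s', hs', hs2⟩ := (Submodule.fg_span_iff_fg_span_finset_subset _).1 h2
  rw [← Set.image_univ] at hs'
  obtain ⟨s, _, rfl⟩ := Finset.subset_set_image_iff.1 hs'
  let L : Finset G := s.image fun d : D => (d : G)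
  obtain ⟨T, hTr, hT⟩ := hG (Subgroup.closure (L : Set G)) ⟨L, rfl⟩
  have hLD : Subgroup.closure (L : Set G) ≤ D := by
    rw [Subgroup.closure_le]
    intro x hx
    obtain ⟨q, _, rfl⟩ := Finset.mem_image.1 (Finset.mem_coe.1 hx)
    exact q.2
  let T' : Finset (Module.Dual F V) := (T.subtype (· ∈ D)).image ev
  have hT'r : T'.card ≤ r := by
    refine Finset.card_image_le.trans ?_
    rw [Finset.card_subtype]
    exact (Finset.card_filter_le _ _).trans hTr
  have htop : Submodule.span F (T' : Set (Module.Dual F V)) = ⊤ := by
    rw [eq_top_iff, ← h1, hs2, Submodule.span_le]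
    intro φ hφ
    obtain ⟨d, hd, rfl⟩ := Finset.mem_image.1 (Finset.mem_coe.1 hφ)
    have h3 : (d : G) ∈ Subgroup.closure (T : Set G) := by
      rw [hT]
      exact Subgroup.subset_closure (Finset.mem_coe.2 (Finset.mem_image_of_mem _ hd))
    have h4 := g5_ev_closure (F := F) ev hev _ d (g5_lift D T (hT ▸ hLD) d h3)
    have h5 : (T' : Set (Module.Dual F V)) =
        ev '' ((T.subtype (· ∈ D) : Finset D) : Set D) := by
      simp [T']
    rw [h5]
    exact h4
  have h6 : Module.finrank F (Submodule.span F (T' : Set (Module.Dual F V))) ≤ T'.card :=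
    finrank_span_finset_le_card (R := F) T'
  rw [htop, finrank_top, Subspace.dual_finrank_eq] at h6
  exact h6.trans hT'r

/-- PROOF. Let `f_0, ..., f_r : Additive D →+ F` be linearly independent (`r + 1` of them). There are `d_0, ..., d_r ∈ D` such that the matrix `(f_i d_j)` is invertible (the evaluations
span the dual space of the span of the `f_i`; or induction on `r`: choose `d_r` with `f_r d_r ≠ 0` and subtract multiples of `f_r` from the others). The subgroup generated by the `d_j` is generated by
`e_1, ..., e_r`, so every `d_j` is modulo `⁅D, D⁆` a product of powers of the `e_k`: `f_i d_j = ∑_k a_{jk} f_i e_k`, `a_{jk} ∈ ℤ` (`Subgroup.closure_induction`): the rank of the matrix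
is at most `r`. Contradiction. So every linearly independent family has at most `r` elements (`FiniteDimensional`: `Module.finite_of_...`/`LinearIndependent` bound). -/
theorem finiteDimensional_of_rank {r : ℕ} (hG : RankLe G r) (D : Subgroup G) (F : Type*) [Field F] :
    FiniteDimensional F (Additive D →+ F) := by
  have h1 : Module.rank F (Additive D →+ F) ≤ r := by
    refine rank_le fun s hs => ?_
    have _ : FiniteDimensional F (Submodule.span F (s : Set (Additive D →+ F))) :=
      FiniteDimensional.span_finset F s
    rw [← finrank_span_finset_eq_card hs]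
    let ev : D → Module.Dual F (Submodule.span F (s : Set (Additive D →+ F))) := fun d =>
      { toFun := fun v => v.1 (Additive.ofMul d)
        map_add' := fun _ _ => rfl
        map_smul' := fun _ _ => rfl }
    refine g5_finrank (F := F) (V := Submodule.span F (s : Set (Additive D →+ F))) hG D ev ?_ ?_
    · intro x y
      ext v
      exact map_add v.1 (Additive.ofMul x) (Additive.ofMul y)
    · intro v hv
      apply Subtype.ext
      ext d
      exact hv d
  exact Module.rank_lt_aleph0_iff.1 (lt_of_le_of_lt h1 Cardinal.natCast_lt_aleph0)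

end AG
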