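import Pool.Agent.AG.I1

/-!
# [AG-I4] finitely generated subrings
-/

set_option autoImplicit false

namespace AG

variable {F : Type*} [Field F] [CharZero F]

/-- Every finite set of algebraic numbers is contained in a subring of the form `Fgm`.

PROOF. Each algebraic number `a` has a positive integer `k` with `k a` integral (`exists_integral_multiple` / `IsAlgebraic`); let `m` be the
product of all these `k`; then `a = m⁻¹ (m a)` is integral over `Rm F m`. The subring generated over `Rm F m` by finitely many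
integral elements is a finitely generated module (`fg_adjoin_of_finite`), hence `Fgm`. -/
theorem exists_fgm (X : Finset F) (hX : ∀ x ∈ X, IsAlgebraic ℚ x) : ∃ m : ℕ, m ≠ 0 ∧
    Fgm m ((Subring.closure (X : Set F) : Subring F) : Set F) := by
  classical
  have h1 : ∀ x : F, ∃ k : ℕ, k ≠ 0 ∧ (x ∈ X → IsIntegral ℤ ((k : F) * x)) := by
    intro x
    by_cases hx : x ∈ X
    · have h2 : IsAlgebraic ℤ x := (IsFractionRing.isAlgebraic_iff ℤ ℚ F).2 (hX x hx)
      obtain ⟨y, hy, hyi⟩ := h2.exists_integral_multiple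
      refine ⟨y.natAbs, Int.natAbs_ne_zero.2 hy, fun _ => ?_⟩
      rw [zsmul_eq_mul] at hyi
      rcases Int.natAbs_eq y with h3 | h3
      · have h4 : ((y.natAbs : ℕ) : F) = (y : F) := by
          rw [← Int.cast_natCast (R := F) y.natAbs, ← h3]
        rw [h4]
        exact hyi
      · have h4 : ((y.natAbs : ℕ) : F) = -(y : F) := by
          have h5 : ((y.natAbs : ℕ) : ℤ) = -y := by omega
          rw [← Int.cast_natCast (R := F) y.natAbs, h5, Int.cast_neg]
        rw [h4, neg_mul]
        exact hyi.neg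
    · exact ⟨1, one_ne_zero, fun h => absurd h hx⟩
  choose k hk0 hki using h1
  set m : ℕ := ∏ x ∈ X, k x with hm
  have hm0 : m ≠ 0 := Finset.prod_ne_zero_iff.2 fun x _ => hk0 x
  have hmF : (m : F) ≠ 0 := Nat.cast_ne_zero.2 hm0
  have hint : ∀ x ∈ (X : Set F), IsIntegral (Rm F m) x := by
    intro x hx
    have h2 : IsIntegral ℤ ((m : F) * x) := by
      have h3 : (m : F) * x = ((∏ y ∈ X.erase x, k y : ℕ) : F) * ((k x : F) * x) := by
        have h4 : m = (∏ y ∈ X.erase x, k y) * k x := by
          rw [hm, Finset.prod_erase_mul X k hx]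
        have h5 : (m : F) = ((∏ y ∈ X.erase x, k y : ℕ) : F) * (k x : F) := by
          rw [h4]
          push_cast
          rfl
        rw [h5, mul_assoc]
      rw [h3]
      have h6 : IsIntegral ℤ (((∏ y ∈ X.erase x, k y : ℕ) : ℤ) : F) :=
        isIntegral_algebraMap (R := ℤ) (A := F)
      have h7 : (((∏ y ∈ X.erase x, k y : ℕ) : ℤ) : F) = ((∏ y ∈ X.erase x, k y : ℕ) : F) := by
        push_cast
        rfl
      rw [h7] at h6
      exact h6.mul (hki x hx)
    have h8 : IsIntegral (Rm F m) ((m : F) * x) := h2.tower_top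
    have h9 : IsIntegral (Rm F m) ((m : F)⁻¹) :=
      isIntegral_algebraMap (R := Rm F m) (A := F)
        (x := ⟨(m : F)⁻¹, Algebra.subset_adjoin (Set.mem_singleton _)⟩)
    have h10 := h9.mul h8
    rwa [← mul_assoc, inv_mul_cancel₀ hmF, one_mul] at h10
  refine ⟨m, hm0, ?_⟩
  obtain ⟨T, hT⟩ := fg_adjoin_of_finite X.finite_toSet hint
  refine ⟨T, ?_⟩
  rw [hT]
  have h11 : Subring.closure (X : Set F) ≤ (Algebra.adjoin (Rm F m) (X : Set F)).toSubring :=
    Subring.closure_le.2 Algebra.subset_adjoin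
  exact h11

/-- linear combinations. PROOF. `∑ c_i v_i`, `v_i ∈ span T`, lies in the span of the products `c_i t`, `t ∈ T`. -/
theorem Fgm.lin {m : ℕ} {k : ℕ} (c : Fin k → F) {V : Set F} (hV : Fgm m V) :
    Fgm m {y | ∃ v : Fin k → F, (∀ i, v i ∈ V) ∧ y = ∑ i, c i * v i} := by
  classical
  obtain ⟨T, hT⟩ := hV
  refine ⟨(Finset.univ ×ˢ T).image fun p : Fin k × F => c p.1 * p.2, ?_⟩
  rintro y ⟨v, hv, rfl⟩
  refine Submodule.sum_mem _ fun i _ => ?_
  have h1 : v i ∈ Submodule.span (Rm F m) (T : Set F) := hT (hv i)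
  have h2 : Submodule.span (Rm F m) (T : Set F) ≤
      (Submodule.span (Rm F m)
        (((Finset.univ ×ˢ T).image fun p : Fin k × F => c p.1 * p.2 : Finset F) : Set F)).comap
        (LinearMap.mulLeft (Rm F m) (c i)) := by
    rw [Submodule.span_le]
    intro t ht
    refine Submodule.subset_span ?_
    rw [Finset.mem_coe, Finset.mem_image]
    exact ⟨(i, t), Finset.mem_product.2 ⟨Finset.mem_univ _, ht⟩, rfl⟩
  exact h2 h1

theorem Fgm.mono {m : ℕ} {V W : Set F} (hV : Fgm m V) (h : W ⊆ V) : Fgm m W := by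
  obtain ⟨T, hT⟩ := hV
  exact ⟨T, h.trans hT⟩

end AG
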