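import Pool.Agent.AG.R1
import Pool.Agent.AG.I4
import Pool.Agent.AG.G4
import Pool.Agent.AG.G5

/-!
# [AG-S2] the values of the additive functions are `m`-integral for one `m`
-/

set_option autoImplicit false

namespace AG

variable {G : Type*} [Group G]

theorem s2_alg (x : QB) : IsAlgebraic ℚ x := by
  have h := (AlgebraicClosure.isAlgebraic ℚ).isAlgebraic x
  convert h
  · rfl
  · exact Subsingleton.elim _ _

theorem s2_lcs (H : Subgroup G) (n : ℕ) :
    ((⊤ : Subgroup H).lowerCentralSeries n).map H.subtype ≤ H.lowerCentralSeries n := by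
  induction n with
  | zero =>
    rw [Subgroup.lowerCentralSeries_zero, Subgroup.lowerCentralSeries_zero]
    rintro _ ⟨x, -, rfl⟩
    exact x.2
  | succ n ih =>
    rw [Subgroup.lowerCentralSeries_succ, Subgroup.lowerCentralSeries_succ,
      Subgroup.map_commutator]
    refine Subgroup.commutator_mono ih ?_
    rintro _ ⟨x, -, rfl⟩
    exact x.2

/-- the matrix of the action on the additive functions -/
noncomputable def s2_M (D : Subgroup G) [D.Normal] {k : ℕ}
    (b : Module.Basis (Fin k) QB (Additive D →+ QB)) (h : G) : Matrix (Fin k) (Fin k) QB :=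
  LinearMap.toMatrix b b (rep D QB h)

theorem s2_M_mul (D : Subgroup G) [D.Normal] {k : ℕ}
    (b : Module.Basis (Fin k) QB (Additive D →+ QB)) (h h' : G) :
    s2_M D b (h * h') = s2_M D b h * s2_M D b h' := by
  unfold s2_M
  rw [map_mul, LinearMap.toMatrix_mul]

theorem s2_M_one (D : Subgroup G) [D.Normal] {k : ℕ}
    (b : Module.Basis (Fin k) QB (Additive D →+ QB)) : s2_M D b 1 = 1 := by
  unfold s2_M
  rw [map_one, LinearMap.toMatrix_one]

theorem s2_ext_conj (D : Subgroup G) [D.Normal] {k : ℕ}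
    (b : Module.Basis (Fin k) QB (Additive D →+ QB)) (h d : G) (hd : d ∈ D) (i : Fin k) :
    ext D (b i) (h⁻¹ * d * h) = ∑ j, s2_M D b h j i * ext D (b j) d := by
  have hd' : h⁻¹ * d * h ∈ D := by
    have := (inferInstance : D.Normal).conj_mem d hd h⁻¹
    rwa [inv_inv] at this
  rw [ext_of_mem D (b i) _ hd', ← rep_apply D h (b i) d hd hd']
  have h1 : rep D QB h (b i) = ∑ j, s2_M D b h j i • b j := by
    conv_lhs => rw [← b.sum_repr (rep D QB h (b i))]
    refine Finset.sum_congr rfl fun j _ => ?_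
    unfold s2_M
    rw [LinearMap.toMatrix_apply]
  rw [h1, AddMonoidHom.finsetSum_apply]
  refine Finset.sum_congr rfl fun j _ => ?_
  rw [ext_of_mem D (b j) d hd]
  rfl

/-- the entries of the matrices of the elements of a subgroup are in the ring generated by the
entries of the matrices of the generators and their inverses -/
theorem s2_entries (D : Subgroup G) [D.Normal] {k : ℕ}
    (b : Module.Basis (Fin k) QB (Additive D →+ QB)) (S : Set G) (R : Subring QB)
    (hS : ∀ t ∈ S, ∀ i j, s2_M D b t i j ∈ R ∧ s2_M D b t⁻¹ i j ∈ R) (h : G)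
    (hh : h ∈ Subgroup.closure S) (i j : Fin k) : s2_M D b h i j ∈ R := by
  have h1 : h ∈ Submonoid.closure (S ∪ S⁻¹) := by
    rw [← Subgroup.closure_toSubmonoid]
    exact hh
  revert i j
  induction h1 using Submonoid.closure_induction with
  | mem x hx =>
    intro i j
    rcases hx with hx | hx
    · exact (hS x hx i j).1
    · have := (hS x⁻¹ hx i j).2
      rwa [inv_inv] at this
  | one =>
    intro i j
    rw [s2_M_one, Matrix.one_apply]
    split_ifs
    · exact one_mem R
    · exact zero_mem R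
  | mul x y hx hy ihx ihy =>
    intro i j
    have hx' : x ∈ Subgroup.closure S := by
      have := hx
      rw [← Subgroup.closure_toSubmonoid] at this
      exact this
    have hy' : y ∈ Subgroup.closure S := by
      have := hy
      rw [← Subgroup.closure_toSubmonoid] at this
      exact this
    rw [s2_M_mul, Matrix.mul_apply]
    exact sum_mem fun l _ => mul_mem (ihx hx' i l) (ihy hy' l j)

/-- the elements of `D` where all the basis functions have values in `R` -/
def s2_W (D : Subgroup G) {k : ℕ} (v : Fin k → Additive D →+ QB) (R : Subring QB) : Subgroup G where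
  carrier := {g | g ∈ D ∧ ∀ i, ext D (v i) g ∈ R}
  one_mem' := by
    refine ⟨one_mem D, fun i => ?_⟩
    rw [ext_of_mem D (v i) 1 (one_mem D)]
    have : (Additive.ofMul (⟨1, one_mem D⟩ : D)) = 0 := rfl
    rw [this, map_zero]
    exact zero_mem R
  mul_mem' := by
    rintro x y ⟨hx, hx'⟩ ⟨hy, hy'⟩
    refine ⟨mul_mem hx hy, fun i => ?_⟩
    rw [ext_addOn D (v i) x hx y hy]
    exact add_mem (hx' i) (hy' i)
  inv_mem' := by
    rintro x ⟨hx, hx'⟩
    refine ⟨inv_mem hx, fun i => ?_⟩
    have h1 := ext_of_mem D (v i) x⁻¹ (inv_mem hx)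
    have h2 : (Additive.ofMul (⟨x⁻¹, inv_mem hx⟩ : D)) = -Additive.ofMul (⟨x, hx⟩ : D) := rfl
    rw [h1, h2, map_neg, ← ext_of_mem D (v i) x hx]
    exact neg_mem (hx' i)

open Classical in
/-- PROOF. `E = Additive D →+ QB` is finite dimensional (`finiteDimensional_of_rank`) with a basis `e_1, ..., e_k` (as functions on `G`: `ext`). By `normally_fg` (for the group `H` and
`D.subgroupOf H`) there is a finite `X ⊆ D` such that `D` is generated by the `h x h⁻¹`, `h ∈ H`, `x ∈ X`. Let `T = T⁻¹` be a finite generating set of `H`. For `t ∈ T`: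
`e_i (t d t⁻¹) = ∑_j a_ij(t) e_j d` for all `d ∈ D` (`rep D t⁻¹` maps `E` to `E`). Let `R₀` be the subring generated by the finitely many `a_ij(t)`, `e_i x`
(`x ∈ X`). By induction on the length of `h` (`h = h' t` or `t h'`; use `h = t h'`): `e_i (h x h⁻¹) ∈ R₀` for all `i` (`e_i (t (h' x h'⁻¹) t⁻¹) = ∑ a_ij(t) e_j (h' x h'⁻¹)`), so `e_i d ∈ R₀` for all `d ∈ D`. `exists_fgm`: `m` with
`Fgm m R₀`. For `f = ∑ c_i e_i` on `D`: `Fgm.lin`. -/
theorem arith {r : ℕ} (hG : RankLe G r) (D H : Subgroup G) [D.Normal] (hH : H.FG) (hDH : D ≤ H)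
    (c : ℕ) (hc : H.lowerCentralSeries c ≤ D) :
    ∃ m : ℕ, m ≠ 0 ∧ ∀ f : G → QB, AddOn D f → Fgm m (f '' D) := by
  have := finiteDimensional_of_rank hG D QB
  have : Group.FG H := (Group.fg_iff_subgroup_fg H).2 hH
  have hcH : (⊤ : Subgroup H).lowerCentralSeries c ≤ D.subgroupOf H := by
    intro x hx
    rw [Subgroup.mem_subgroupOf]
    exact hc (s2_lcs H c ⟨x, hx, rfl⟩)
  obtain ⟨X, hX⟩ := normally_fg H (D.subgroupOf H) c hcH
  obtain ⟨S, hS⟩ := hH
  let b := Module.finBasis QB (Additive D →+ QB)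
  let Y : Finset QB :=
    (S ×ˢ (Finset.univ : Finset (Fin (Module.finrank QB (Additive D →+ QB)) ×
      Fin (Module.finrank QB (Additive D →+ QB))))).image (fun p => s2_M D b p.1 p.2.1 p.2.2) ∪
    (S ×ˢ (Finset.univ : Finset (Fin (Module.finrank QB (Additive D →+ QB)) ×
      Fin (Module.finrank QB (Additive D →+ QB))))).image (fun p => s2_M D b p.1⁻¹ p.2.1 p.2.2) ∪
    (X ×ˢ (Finset.univ : Finset (Fin (Module.finrank QB (Additive D →+ QB))))).image
      (fun p => ext D (b p.2) (p.1 : G))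
  obtain ⟨m, hm, hF⟩ := exists_fgm Y (fun x _ => s2_alg x)
  set R : Subring QB := Subring.closure (Y : Set QB) with hR
  have hYR : ∀ y ∈ Y, y ∈ R := fun y hy => Subring.subset_closure hy
  have hent : ∀ h ∈ H, ∀ i j, s2_M D b h i j ∈ R := by
    intro h hh i j
    refine s2_entries D b (S : Set G) R (fun t ht i j => ⟨hYR _ ?_, hYR _ ?_⟩) h (hS ▸ hh) i j
    · refine Finset.mem_union_left _ (Finset.mem_union_left _ (Finset.mem_image.2 ⟨(t, i, j), ?_, rfl⟩))
      exact Finset.mem_product.2 ⟨ht, Finset.mem_univ _⟩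
    · refine Finset.mem_union_left _ (Finset.mem_union_right _ (Finset.mem_image.2 ⟨(t, i, j), ?_, rfl⟩))
      exact Finset.mem_product.2 ⟨ht, Finset.mem_univ _⟩
  have hXD : ∀ x ∈ X, (x : G) ∈ D := by
    intro x hx
    have h1 : x ∈ D.subgroupOf H := by
      rw [← hX]
      exact Subgroup.subset_normalClosure hx
    exact Subgroup.mem_subgroupOf.1 h1
  have hW : D ≤ s2_W D b R := by
    have h1 : D.subgroupOf H ≤ (s2_W D b R).comap H.subtype := by
      rw [← hX]
      unfold Subgroup.normalClosure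
      rw [Subgroup.closure_le]
      intro y hy
      rw [Group.mem_conjugatesOfSet_iff] at hy
      obtain ⟨x, hx, hxy⟩ := hy
      obtain ⟨g, rfl⟩ := isConj_iff.1 hxy
      have hxD := hXD x hx
      have e1 : ((g * x * g⁻¹ : H) : G) = ((g⁻¹ : H) : G)⁻¹ * (x : G) * ((g⁻¹ : H) : G) := by
        push_cast
        rw [inv_inv]
      have e2 : H.subtype (g * x * g⁻¹) = ((g⁻¹ : H) : G)⁻¹ * (x : G) * ((g⁻¹ : H) : G) := e1
      change H.subtype (g * x * g⁻¹) ∈ s2_W D b R
      rw [e2]
      refine ⟨?_, fun i => ?_⟩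
      · have := (inferInstance : D.Normal).conj_mem (x : G) hxD ((g⁻¹ : H) : G)⁻¹
        rwa [inv_inv] at this
      · rw [s2_ext_conj D b _ _ hxD i]
        refine sum_mem fun j _ => mul_mem (hent _ (g⁻¹ : H).2 j i) (hYR _ ?_)
        exact Finset.mem_union_right _ (Finset.mem_image.2 ⟨(x, j),
          Finset.mem_product.2 ⟨hx, Finset.mem_univ _⟩, rfl⟩)
    intro d hd
    exact h1 (show (⟨d, hDH hd⟩ : H) ∈ D.subgroupOf H from Subgroup.mem_subgroupOf.2 hd)
  refine ⟨m, hm, fun f hf => ?_⟩
  refine (hF.lin (fun i => b.repr (res D f hf) i)).mono ?_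
  rintro _ ⟨d, hd, rfl⟩
  have hd' : d ∈ D := hd
  refine ⟨fun i => ext D (b i) d, fun i => (hW hd').2 i, ?_⟩
  have h1 : res D f hf = ∑ i, b.repr (res D f hf) i • b i := (b.sum_repr _).symm
  have h2 : f d = res D f hf (Additive.ofMul ⟨d, hd'⟩) := (res_apply D f hf d hd').symm
  rw [h2]
  conv_lhs => rw [h1]
  rw [AddMonoidHom.finsetSum_apply]
  refine Finset.sum_congr rfl fun i _ => ?_
  beta_reduce
  rw [ext_of_mem D (b i) d hd']
  rfl

end AG
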