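import Mathlib

/-!
# [AG-G2] centralizers of sections
-/

set_option autoImplicit false

namespace AG

variable {G : Type*} [Group G]

/-- the elements which act trivially on `D / K` by conjugation -/
def cent (D K : Subgroup G) [D.Normal] [K.Normal] : Subgroup G where
  carrier := {z | ∀ d ∈ D, z * d * z⁻¹ * d⁻¹ ∈ K}
  one_mem' := by
    intro d _
    simp
  mul_mem' := by
    intro z w hz hw d hd
    have h1 : z * (w * d * w⁻¹ * d⁻¹) * z⁻¹ ∈ K :=
      Subgroup.Normal.conj_mem inferInstance _ (hw d hd) z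
    have h2 := K.mul_mem h1 (hz d hd)
    have h3 : z * w * d * (z * w)⁻¹ * d⁻¹ =
        z * (w * d * w⁻¹ * d⁻¹) * z⁻¹ * (z * d * z⁻¹ * d⁻¹) := by group
    rw [h3]
    exact h2
  inv_mem' := by
    intro z hz d hd
    have hd' : z⁻¹ * d * z⁻¹⁻¹ ∈ D := Subgroup.Normal.conj_mem inferInstance _ hd z⁻¹
    have h1 := K.inv_mem (hz _ hd')
    have h3 : z⁻¹ * d * z⁻¹⁻¹ * d⁻¹ =
        (z * (z⁻¹ * d * z⁻¹⁻¹) * z⁻¹ * (z⁻¹ * d * z⁻¹⁻¹)⁻¹)⁻¹ := by group
    rw [h3]
    exact h1

theorem mem_cent (D K : Subgroup G) [D.Normal] [K.Normal] (z : G) :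
    z ∈ cent D K ↔ ∀ d ∈ D, z * d * z⁻¹ * d⁻¹ ∈ K := Iff.rfl

theorem cent_char (D K : Subgroup G) [D.Characteristic] [K.Characteristic] :
    (cent D K).Characteristic := by
  have hchar : ∀ (E : Subgroup G) (_ : E.Characteristic) (φ : G ≃* G) (x : G),
      φ x ∈ E ↔ x ∈ E := by
    intro E hE φ x
    have h1 := hE.fixed φ
    constructor
    · intro h
      rw [← h1]
      exact h
    · intro h
      rw [← h1] at h
      exact h
  rw [Subgroup.characteristic_iff_le_comap]
  intro φ z hz
  rw [Subgroup.mem_comap, mem_cent]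
  intro d hd
  have hd' : φ.symm d ∈ D := by
    rw [← hchar D inferInstance φ, MulEquiv.apply_symm_apply]
    exact hd
  have h1 := (hchar K inferInstance φ _).2 (hz _ hd')
  rw [map_mul, map_mul, map_mul, map_inv, map_inv, MulEquiv.apply_symm_apply] at h1
  exact h1

/-- PROOF. In `Q = G ⧸ K` the image `D'` of `D` is a finite normal subgroup (`D' ≃ D ⧸ K.subgroupOf D`; or: `D ⊆ ⋃ d_i K` for finitely many `d_i`).
`G → MulAut D'`, `g ↦` conjugation (`MulAut.conjNormal.comp (QuotientGroup.mk' K)`), has finite image, so its kernel has finite index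
(`Subgroup.finiteIndex_ker`), and the kernel is contained in `cent D K` (`Subgroup.finiteIndex_of_le`). -/
theorem cent_finiteIndex (D K : Subgroup G) [D.Normal] [K.Normal] (hKD : K ≤ D)
    (hfin : K.relIndex D ≠ 0) : (cent D K).FiniteIndex := by
  have _ := hKD
  let D' : Subgroup (G ⧸ K) := D.map (QuotientGroup.mk' K)
  have hN : D'.Normal := Subgroup.Normal.map inferInstance _ (QuotientGroup.mk'_surjective K)
  have hfinD' : Finite D' := by
    let f : D →* G ⧸ K := (QuotientGroup.mk' K).comp D.subtype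
    have hker : f.ker = K.subgroupOf D := by
      ext x
      rw [MonoidHom.mem_ker, Subgroup.mem_subgroupOf]
      exact QuotientGroup.eq_one_iff _
    have hrange : f.range = D' := by
      change ((QuotientGroup.mk' K).comp D.subtype).range = D.map (QuotientGroup.mk' K)
      rw [MonoidHom.range_comp, Subgroup.range_subtype]
    have h1 : Nat.card f.range ≠ 0 := by
      rw [← Subgroup.index_ker, hker]
      exact hfin
    rw [hrange] at h1
    exact Nat.finite_of_card_ne_zero h1
  have hfinA : Finite (MulAut D') := Finite.of_injective (fun e : MulAut D' => e.toEquiv)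
    MulEquiv.toEquiv_injective
  let ψ : G →* MulAut D' := MulAut.conjNormal.comp (QuotientGroup.mk' K)
  have hk : ψ.ker ≤ cent D K := by
    intro z hz d hd
    have hd' : QuotientGroup.mk' K d ∈ D' := Subgroup.mem_map_of_mem _ hd
    have h1 := DFunLike.congr_fun (MonoidHom.mem_ker.1 hz) (⟨_, hd'⟩ : D')
    have h2 := congrArg (Subtype.val) h1
    change ((MulAut.conjNormal (QuotientGroup.mk' K z) (⟨_, hd'⟩ : D') : D') : G ⧸ K) =
      QuotientGroup.mk' K d at h2
    rw [MulAut.conjNormal_apply] at h2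
    rw [← QuotientGroup.eq_one_iff]
    have h3 : ((z * d * z⁻¹ * d⁻¹ : G) : G ⧸ K) = QuotientGroup.mk' K z * QuotientGroup.mk' K d *
        (QuotientGroup.mk' K z)⁻¹ * (QuotientGroup.mk' K d)⁻¹ := rfl
    rw [h3, h2, mul_inv_cancel]
  have : ψ.ker.FiniteIndex := Subgroup.finiteIndex_ker ψ
  exact Subgroup.finiteIndex_of_le hk

end AG
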