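import Pool.Agent.AG.Defs

/-!
# [AG-G8] abelian sections of finite exponent
-/

set_option autoImplicit false

open scoped commutatorElement

namespace AG

variable {G : Type*} [Group G]

theorem g8_closure {Q : Type*} [CommGroup Q] (e : ℕ) (he : e ≠ 0) (hexp : ∀ x : Q, x ^ e = 1)
    (T : Finset Q) {x : Q} (hx : x ∈ Subgroup.closure (T : Set Q)) :
    ∃ f : T → Fin e, x = ∏ t : T, (t : Q) ^ (f t : ℕ) := by
  classical
  obtain ⟨f, hf⟩ : ∃ f : Q → ℕ, x = ∏ t : T, (t : Q) ^ f t := by
    induction hx using Subgroup.closure_induction with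
    | mem x hx =>
      refine ⟨fun y => if y = x then 1 else 0, ?_⟩
      rw [Finset.prod_eq_single (⟨x, hx⟩ : T)]
      · simp
      · intro b _ hb
        have : (b : Q) ≠ x := fun h => hb (Subtype.ext h)
        simp [this]
      · intro h; exact absurd (Finset.mem_univ _) h
    | one => exact ⟨fun _ => 0, by simp⟩
    | mul x y _ _ hx hy =>
      obtain ⟨f, hf⟩ := hx
      obtain ⟨g, hg⟩ := hy
      refine ⟨fun t => f t + g t, ?_⟩
      rw [hf, hg, ← Finset.prod_mul_distrib]
      exact Finset.prod_congr rfl fun t _ => (pow_add _ _ _).symm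
    | inv x _ hx =>
      obtain ⟨f, hf⟩ := hx
      refine ⟨fun t => f t * (e - 1), ?_⟩
      have h1 : x⁻¹ = x ^ (e - 1) := by
        rw [inv_eq_iff_mul_eq_one, ← pow_succ', Nat.sub_add_cancel (Nat.pos_of_ne_zero he), hexp]
      rw [h1, hf, ← Finset.prod_pow]
      exact Finset.prod_congr rfl fun t _ => (pow_mul _ _ _).symm
  refine ⟨fun t => ⟨f t % e, Nat.mod_lt _ (Nat.pos_of_ne_zero he)⟩, ?_⟩
  rw [hf]
  exact Finset.prod_congr rfl fun t _ => pow_eq_pow_mod _ (hexp _)

theorem g8_lift (D : Subgroup G) [DecidablePred (· ∈ D)] (T : Finset G)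
    (hT : Subgroup.closure (T : Set G) ≤ D) (d : D) (hd : (d : G) ∈ Subgroup.closure (T : Set G)) :
    d ∈ Subgroup.closure ((T.subtype (· ∈ D) : Finset D) : Set D) := by
  have h1 : Subgroup.map D.subtype (Subgroup.closure ((T.subtype (· ∈ D) : Finset D) : Set D)) =
      Subgroup.closure (T : Set G) := by
    rw [MonoidHom.map_closure]
    congr 1
    ext x
    constructor
    · rintro ⟨y, hy, rfl⟩
      exact Finset.mem_subtype.1 hy
    · intro hx
      exact ⟨⟨x, hT (Subgroup.subset_closure hx)⟩, Finset.mem_subtype.2 hx, rfl⟩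
  rw [← h1] at hd
  obtain ⟨y, hy, hyd⟩ := hd
  have : y = d := Subtype.ext hyd
  rw [← this]
  exact hy

/-- Abelian sections of finite exponent are finite.

PROOF. `x_0, ..., x_N ∈ D` representing more than `e ^ r` different cosets of `K`: the subgroup generated by them is `closure T`, `|T| ≤ r`; modulo `K` it is abelian of exponent dividing `e` and
generated by `r` elements, so it has at most `e ^ r` elements modulo `K` (every element is congruent to a product of `t ^ i_t`, `0 ≤ i_t < e`). -/
theorem relIndex_ne_zero {r : ℕ} (hG : RankLe G r) (D K : Subgroup G) [D.Normal] [K.Normal]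
    (hKD : K ≤ D) (hab : ⁅D, D⁆ ≤ K) (e : ℕ) (he : e ≠ 0) (hexp : ∀ x ∈ D, x ^ e ∈ K) :
    K.relIndex D ≠ 0 := by
  classical
  intro h0
  have hinf : Infinite (D ⧸ K.subgroupOf D) := Subgroup.index_eq_zero_iff_infinite.1 h0
  let _ : CommGroup (D ⧸ K.subgroupOf D) :=
    { (inferInstance : Group (D ⧸ K.subgroupOf D)) with
      mul_comm := by
        intro a b
        induction a using QuotientGroup.induction_on with | _ a => ?_
        induction b using QuotientGroup.induction_on with | _ b => ?_
        rw [← QuotientGroup.mk_mul, ← QuotientGroup.mk_mul, QuotientGroup.eq,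
          Subgroup.mem_subgroupOf]
        apply hab
        have h1 := Subgroup.commutator_mem_commutator (H₁ := D) (H₂ := D)
          (D.inv_mem b.2) (D.inv_mem a.2)
        have h2 : (((a * b)⁻¹ * (b * a) : D) : G) = ⁅(b : G)⁻¹, (a : G)⁻¹⁆ := by
          rw [commutatorElement_def]
          push_cast
          group
        rw [h2]
        exact h1 }
  have hexpQ : ∀ x : D ⧸ K.subgroupOf D, x ^ e = 1 := by
    intro x
    induction x using QuotientGroup.induction_on with | _ x => ?_
    rw [← QuotientGroup.mk_pow, QuotientGroup.eq_one_iff, Subgroup.mem_subgroupOf]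
    exact_mod_cast hexp x x.2
  obtain ⟨s, hs⟩ := Infinite.exists_subset_card_eq (D ⧸ K.subgroupOf D) (e ^ r + 1)
  let L : Finset G := s.image fun q => ((q.out : D) : G)
  obtain ⟨T, hTr, hT⟩ := hG (Subgroup.closure (L : Set G)) ⟨L, rfl⟩
  have hLD : Subgroup.closure (L : Set G) ≤ D := by
    rw [Subgroup.closure_le]
    intro x hx
    obtain ⟨q, _, rfl⟩ := Finset.mem_image.1 (Finset.mem_coe.1 hx)
    exact q.out.2
  let T' : Finset (D ⧸ K.subgroupOf D) :=
    (T.subtype (· ∈ D)).image (QuotientGroup.mk' (K.subgroupOf D))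
  have hT'r : T'.card ≤ r := by
    refine Finset.card_image_le.trans ?_
    rw [Finset.card_subtype]
    exact (Finset.card_filter_le _ _).trans hTr
  have hmem : ∀ q ∈ s, q ∈ Subgroup.closure (T' : Set (D ⧸ K.subgroupOf D)) := by
    intro q hq
    have h1 : ((q.out : D) : G) ∈ Subgroup.closure (T : Set G) := by
      rw [hT]
      exact Subgroup.subset_closure (Finset.mem_coe.2 (Finset.mem_image_of_mem _ hq))
    have h2 := g8_lift D T (hT ▸ hLD) _ h1
    have h3 := Subgroup.mem_map_of_mem (QuotientGroup.mk' (K.subgroupOf D)) h2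
    rw [MonoidHom.map_closure] at h3
    have h4 : QuotientGroup.mk' (K.subgroupOf D) q.out = q := Quotient.out_eq' q
    rw [h4] at h3
    have h5 : (T' : Set (D ⧸ K.subgroupOf D)) =
        (QuotientGroup.mk' (K.subgroupOf D)) '' ((T.subtype (· ∈ D) : Finset D) : Set D) := by
      simp [T']
    rw [h5]
    exact h3
  have hsub : s ⊆ (Finset.univ : Finset (T' → Fin e)).image
      (fun f => ∏ t : T', (t : D ⧸ K.subgroupOf D) ^ (f t : ℕ)) := by
    intro q hq
    obtain ⟨f, hf⟩ := g8_closure e he hexpQ T' (hmem q hq)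
    exact Finset.mem_image.2 ⟨f, Finset.mem_univ _, hf.symm⟩
  have h1 := (Finset.card_le_card hsub).trans Finset.card_image_le
  rw [hs, Finset.card_univ, Fintype.card_fun, Fintype.card_fin, Fintype.card_coe] at h1
  have h2 : e ^ T'.card ≤ e ^ r := Nat.pow_le_pow_right (Nat.pos_of_ne_zero he) hT'r
  omega

end AG
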