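import Pool.Agent.AG.Defs

/-!
# [AG-I2] roots of unity congruent to 1
-/

set_option autoImplicit false

namespace AG

/-- PROOF. `b = (z - 1) / p`, `K = ℚ⟮z⟯` a number field (`z` is algebraic), `b` is in `K` and integral, and `‖σ b‖ ≤ 2 / 3 < 1` for all `σ : K →+* ℂ` (`‖σ z‖ = 1`). If `b ≠ 0` then
`NumberField.Embeddings.pow_eq_one_of_norm_le_one` says that `b` is a root of unity, so `‖σ b‖ = 1`: contradiction. So `b = 0`. -/
theorem root_unity (p : ℕ) (hp : 3 ≤ p) (z : QB) (k : ℕ) (hk : 0 < k) (hz : z ^ k = 1)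
    (h : IsIntegral ℤ ((z - 1) / (p : QB))) : z = 1 := by
  have hzi : IsIntegral ℚ z := by
    refine IsIntegral.of_pow hk ?_
    rw [hz]
    exact isIntegral_one
  have hfd : FiniteDimensional ℚ (IntermediateField.adjoin ℚ {z}) :=
    IntermediateField.adjoin.finiteDimensional hzi
  have hnf : NumberField (IntermediateField.adjoin ℚ {z}) :=
    { to_charZero := inferInstance, to_finiteDimensional := hfd }
  set K := IntermediateField.adjoin ℚ {z} with hK
  let z' : K := ⟨z, IntermediateField.mem_adjoin_simple_self ℚ z⟩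
  have hz' : z' ^ k = 1 := Subtype.ext hz
  set b : K := (z' - 1) / (p : K) with hb
  have hbz : algebraMap K QB b = (z - 1) / (p : QB) := by
    rw [hb, map_div₀, map_sub, map_one, map_natCast]
    rfl
  have hbi : IsIntegral ℤ b := by
    rw [← isIntegral_algebraMap_iff (algebraMap K QB).injective, hbz]
    exact h
  have hp0 : (0 : ℝ) < p := by
    have : 0 < p := by omega
    exact_mod_cast this
  have hp3 : (3 : ℝ) ≤ p := by exact_mod_cast hp
  have hn : ∀ σ : K →+* ℂ, ‖σ b‖ ≤ 2 / 3 := by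
    intro σ
    have h1 : ‖σ z'‖ = 1 := by
      refine Complex.norm_eq_one_of_pow_eq_one (n := k) ?_ hk.ne'
      rw [← map_pow, hz', map_one]
    rw [hb, map_div₀, map_sub, map_one, map_natCast, norm_div, Complex.norm_natCast,
      div_le_iff₀ hp0]
    calc ‖σ z' - 1‖ ≤ ‖σ z'‖ + ‖(1 : ℂ)‖ := norm_sub_le _ _
      _ = 2 := by rw [h1, norm_one]; norm_num
      _ ≤ 2 / 3 * p := by linarith
  by_cases hb0 : b = 0
  · have h1 : (z - 1) / (p : QB) = 0 := by rw [← hbz, hb0, map_zero]
    have h2 : (p : QB) ≠ 0 := Nat.cast_ne_zero.2 (by omega)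
    rcases div_eq_zero_iff.1 h1 with h3 | h3
    · exact sub_eq_zero.1 h3
    · exact absurd h3 h2
  · exfalso
    obtain ⟨n, hn0, hn1⟩ := NumberField.Embeddings.pow_eq_one_of_norm_le_one K ℂ hb0 hbi
      (fun σ => (hn σ).trans (by norm_num))
    obtain ⟨σ⟩ : Nonempty (K →+* ℂ) := inferInstance
    have h1 : ‖σ b‖ = 1 := by
      refine Complex.norm_eq_one_of_pow_eq_one (n := n) ?_ hn0.ne'
      rw [← map_pow, hn1, map_one]
    have h2 := hn σ
    rw [h1] at h2
    norm_num at h2

/-- PROOF. `m^j b` is integral, `p b = z - 1` is integral (`z` is a root of unity), `m^j` and `p` are coprime: `b` is integral (Bezout). `root_unity`. -/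
theorem root_unity' (m p : ℕ) (hp : 3 ≤ p) (hpm : Nat.Coprime m p) (z : QB) (k : ℕ) (hk : 0 < k)
    (hz : z ^ k = 1) (h : MInt m ((z - 1) / (p : QB))) : z = 1 := by
  obtain ⟨j, hj⟩ := h
  refine root_unity p hp z k hk hz ?_
  have hp0 : (p : QB) ≠ 0 := Nat.cast_ne_zero.2 (by omega)
  have hzi : IsIntegral ℤ z := by
    refine IsIntegral.of_pow hk ?_
    rw [hz]
    exact isIntegral_one
  set b : QB := (z - 1) / (p : QB) with hb
  have hpb : (p : QB) * b = z - 1 := by
    rw [hb]
    field_simp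
  have hpbi : IsIntegral ℤ ((p : QB) * b) := by
    rw [hpb]
    exact hzi.sub isIntegral_one
  have hcop : Nat.gcd (m ^ j) p = 1 := Nat.Coprime.pow_left j hpm
  have hbez := Nat.gcd_eq_gcd_ab (m ^ j) p
  rw [hcop] at hbez
  have h1 : b = (((m ^ j).gcdA p : ℤ) : QB) * ((m : QB) ^ j * b) +
      (((m ^ j).gcdB p : ℤ) : QB) * ((p : QB) * b) := by
    have h2 := congrArg (fun n : ℤ => (n : QB)) hbez
    push_cast at h2
    linear_combination b * h2
  rw [h1]
  exact ((isIntegral_algebraMap (R := ℤ) (A := QB) (x := _)).mul hj).add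
    ((isIntegral_algebraMap (R := ℤ) (A := QB) (x := _)).mul hpbi)

end AG
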