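import Pool.Agent.AG.I1
import Pool.Agent.AG.I2
import Pool.Agent.AG.C1
import Pool.Agent.AG.G2
import Pool.Agent.AG.G5
import Pool.Agent.AG.G8

/-!
# [AG-S3] a subgroup of finite index without nontrivial roots of unity as eigenvalues
-/

set_option autoImplicit false

namespace AG

variable {G : Type*} [Group G]

/-- the subgroup generated by the commutators and the `p`-th powers of `D` -/
def s3_K (D : Subgroup G) (p : ℕ) : Subgroup G :=
  Subgroup.closure ((⁅D, D⁆ : Subgroup G) ∪ {x | ∃ d ∈ D, x = d ^ p})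

theorem s3_K_char (D : Subgroup G) [D.Characteristic] (p : ℕ) : (s3_K D p).Characteristic := by
  rw [Subgroup.characteristic_iff_map_le]
  intro φ
  unfold s3_K
  rw [MonoidHom.map_closure]
  apply Subgroup.closure_mono
  have hDφ : ∀ d ∈ D, φ d ∈ D := fun d hd =>
    (Subgroup.characteristic_iff_map_le.1 (inferInstance : D.Characteristic) φ)
      (Subgroup.mem_map_of_mem _ hd)
  rintro _ ⟨x, hx, rfl⟩
  rcases hx with hx | ⟨d, hd, rfl⟩
  · left
    exact (Subgroup.characteristic_iff_map_le.1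
      (inferInstance : (⁅D, D⁆ : Subgroup G).Characteristic) φ)
      (Subgroup.mem_map_of_mem _ hx)
  · right
    exact ⟨φ d, hDφ d hd, by simp⟩

theorem s3_comm_le_K (D : Subgroup G) (p : ℕ) : ⁅D, D⁆ ≤ s3_K D p :=
  fun _ hx => Subgroup.subset_closure (Or.inl hx)

theorem s3_pow_mem (D : Subgroup G) (p : ℕ) (x : G) (hx : x ∈ D) : x ^ p ∈ s3_K D p :=
  Subgroup.subset_closure (Or.inr ⟨x, hx, rfl⟩)

theorem s3_val {F : Type*} [Field F] (D : Subgroup G) (p : ℕ) (f : G → F) (hf : AddOn D f)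
    (x : G) (hx : x ∈ s3_K D p) : x ∈ D ∧ ∃ e ∈ D, f x = (p : F) * f e := by
  unfold s3_K at hx
  induction hx using Subgroup.closure_induction with
  | mem x hx =>
    rcases hx with hx | ⟨d, hd, rfl⟩
    · refine ⟨Subgroup.commutator_le_self D hx, 1, D.one_mem, ?_⟩
      rw [hf.comm hx, hf.one, mul_zero]
    · exact ⟨D.pow_mem hd p, d, hd, hf.pow hd p⟩
  | one => exact ⟨D.one_mem, 1, D.one_mem, by rw [hf.one, mul_zero]⟩
  | mul a b _ _ iha ihb =>
    obtain ⟨ha, e, he, h1⟩ := iha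
    obtain ⟨hb, e', he', h2⟩ := ihb
    refine ⟨D.mul_mem ha hb, e * e', D.mul_mem he he', ?_⟩
    rw [hf a ha b hb, hf e he e' he', h1, h2, mul_add]
  | inv a _ iha =>
    obtain ⟨ha, e, he, h1⟩ := iha
    refine ⟨D.inv_mem ha, e⁻¹, D.inv_mem he, ?_⟩
    rw [hf.inv ha, hf.inv he, h1, mul_neg]

theorem s3_K_le (D : Subgroup G) (p : ℕ) : s3_K D p ≤ D := by
  unfold s3_K
  rw [Subgroup.closure_le]
  rintro x (hx | ⟨d, hd, rfl⟩)
  · exact Subgroup.commutator_le_self D hx
  · exact D.pow_mem hd p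

/-- PROOF. `p` a prime number `> m + 2` (coprime to `m`), `K = ⁅D, D⁆ ⊔ closure {d ^ p : d ∈ D}`, characteristic, `K.relIndex D ≠ 0` by `relIndex_ne_zero`. `Z = cent D K` (`cent_char`, `cent_finiteIndex`); `D ≤ Z` since `⁅D, D⁆ ≤ K`.
Let `h ∈ Z`, `Eig D h f z`, `z ^ k = 1`. `f` maps `K` to `p f(D)` (`AddOn.comm`, `AddOn.pow`), so for `d ∈ D`: `(z - 1) f d = f (h d h⁻¹ d⁻¹) = p f e` for some `e ∈ D`: with `b = (z - 1) / p` we have `b f(D) ⊆ f(D)`, so
`b ^ i * f x ∈ f '' D` for all `i` (`x ∈ D` with `f x ≠ 0`). `mint_of_powers`, `root_unity'`. -/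
theorem neat {r : ℕ} (hG : RankLe G r) (D : Subgroup G) [D.Characteristic] (m : ℕ) (hm : m ≠ 0)
    (hV : ∀ f : G → QB, AddOn D f → Fgm m (f '' D)) :
    ∃ Z : Subgroup G, Z.Characteristic ∧ Z.FiniteIndex ∧ D ≤ Z ∧
      ∀ h ∈ Z, ∀ (f : G → QB) (z : QB), Eig D h f z → ∀ k : ℕ, 0 < k → z ^ k = 1 → z = 1 := by
  obtain ⟨p, hp, hpp⟩ := Nat.exists_infinite_primes (m + 3)
  have hp3 : 3 ≤ p := by omega
  have hp0 : p ≠ 0 := by omega
  have hcop : Nat.Coprime m p := by
    rw [Nat.coprime_comm, Nat.Prime.coprime_iff_not_dvd hpp]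
    intro hd
    have := Nat.le_of_dvd (Nat.pos_of_ne_zero hm) hd
    omega
  have hKc : (s3_K D p).Characteristic := s3_K_char D p
  have hrel := relIndex_ne_zero hG D (s3_K D p) (s3_K_le D p) (s3_comm_le_K D p) p hp0
    (s3_pow_mem D p)
  refine ⟨cent D (s3_K D p), cent_char D _, cent_finiteIndex D _ (s3_K_le D p) hrel, ?_, ?_⟩
  · intro z hz
    rw [mem_cent]
    intro d hd
    apply s3_comm_le_K D p
    have := Subgroup.commutator_mem_commutator hz hd
    rwa [commutatorElement_def] at this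
  · rintro h hh f z ⟨hf, ⟨x, hx, hfx⟩, hz⟩ k hk hzk
    rw [mem_cent] at hh
    have hp0' : (p : QB) ≠ 0 := by exact_mod_cast hp0
    have step : ∀ d ∈ D, ∃ e ∈ D, (z - 1) / (p : QB) * f d = f e := by
      intro d hd
      obtain ⟨_, e, he, h1⟩ := s3_val D p f hf _ (hh d hd)
      refine ⟨e, he, ?_⟩
      have hcd : h * d * h⁻¹ ∈ D := (inferInstance : D.Normal).conj_mem d hd h
      rw [hf _ hcd _ (D.inv_mem hd), hz d hd, hf.inv hd] at h1
      rw [div_mul_eq_mul_div, div_eq_iff hp0']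
      linear_combination h1
    have hpow : ∀ i : ℕ, ((z - 1) / (p : QB)) ^ i * f x ∈ f '' (D : Set G) := by
      intro i
      induction i with
      | zero => exact ⟨x, hx, by simp⟩
      | succ i ih =>
        obtain ⟨y, hy, h2⟩ := ih
        obtain ⟨e, he, h3⟩ := step y hy
        refine ⟨e, he, ?_⟩
        rw [← h3, h2, pow_succ']
        ring
    exact root_unity' m p hp3 hcop z k hk hzk
      (mint_of_powers m hm _ (hV f hf) _ (f x) hfx hpow)

end AG
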