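import Pool.Agent.AG.S4
import Pool.Agent.AG.G8
import Pool.Agent.AG.G4

/-!
# [AG-S6] the unipotent case: conclusion
-/

set_option autoImplicit false

open scoped commutatorElement

namespace AG

variable {G : Type*} [Group G]

/-- the elements of `H` lying in `T` whose `e`-th power is in `K` -/
theorem s6_pow {K T H : Subgroup G} [K.Normal] [T.Normal] (hTK : ⁅T, T⁆ ≤ K) (e : ℕ)
    (X : Set H) (hX : Subgroup.normalClosure X = T.subgroupOf H)
    (hXe : ∀ x ∈ X, (x : G) ^ e ∈ K) (hTH : T ≤ H) : ∀ t ∈ T, t ^ e ∈ K := by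
  have hcomm : ∀ a ∈ T, ∀ b ∈ T, Commute (QuotientGroup.mk' K a) (QuotientGroup.mk' K b) := by
    intro a ha b hb
    have h1 : ⁅a, b⁆ ∈ K := hTK (Subgroup.commutator_mem_commutator ha hb)
    have h2 : QuotientGroup.mk' K ⁅a, b⁆ = 1 := by
      rw [QuotientGroup.mk'_apply, QuotientGroup.eq_one_iff]; exact h1
    rw [map_commutatorElement, commutatorElement_eq_one_iff_commute] at h2
    exact h2
  have hone : ∀ a : G, a ∈ K ↔ QuotientGroup.mk' K a = 1 := by
    intro a
    rw [QuotientGroup.mk'_apply, QuotientGroup.eq_one_iff]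
  let P : Subgroup H :=
    { carrier := {t | (t : G) ∈ T ∧ (t : G) ^ e ∈ K}
      one_mem' := by
        refine ⟨T.one_mem, ?_⟩
        simp
      mul_mem' := by
        rintro a b ⟨ha, ha'⟩ ⟨hb, hb'⟩
        refine ⟨T.mul_mem ha hb, ?_⟩
        rw [hone] at ha' hb' ⊢
        rw [map_pow] at ha' hb' ⊢
        rw [Subgroup.coe_mul, map_mul, (hcomm _ ha _ hb).mul_pow, ha', hb', one_mul]
      inv_mem' := by
        rintro a ⟨ha, ha'⟩
        refine ⟨T.inv_mem ha, ?_⟩
        rw [Subgroup.coe_inv, inv_pow]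
        exact K.inv_mem ha' }
  have hPn : P.Normal := by
    constructor
    rintro t ⟨h1, h2⟩ g
    refine ⟨(inferInstance : T.Normal).conj_mem _ h1 _, ?_⟩
    have h3 : ((g * t * g⁻¹ : H) : G) = (g : G) * t * (g : G)⁻¹ := by simp
    rw [h3, conj_pow]
    exact (inferInstance : K.Normal).conj_mem _ h2 _
  have hXP : X ⊆ P := by
    intro x hx
    refine ⟨?_, hXe x hx⟩
    have h1 : x ∈ T.subgroupOf H := by
      rw [← hX]; exact Subgroup.subset_normalClosure hx
    exact Subgroup.mem_subgroupOf.1 h1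
  have h1 := Subgroup.normalClosure_le_normal hXP
  rw [hX] at h1
  intro t ht
  have h2 : (⟨t, hTH ht⟩ : H) ∈ P := h1 (Subgroup.mem_subgroupOf.2 ht)
  exact h2.2

/-- PROOF. `mm_le_tor` gives `k`; `H.lowerCentralSeries (c + j) ≤ MM D H j` (induction on `j`), so `H.lowerCentralSeries (c + k) ≤ tor D`. `H` is finitely generated (`Subgroup.fg_of_index_ne_zero`), `normally_fg` for
the group `H` and `(tor D).subgroupOf H`: a finite set `X` whose normal closure in `H` is `tor D`. By `torsion_of_forall` every `x ∈ X` has a power in `⁅D, D⁆`; let `e` be the product of these exponents: `{t ∈ tor D : t ^ e ∈ ⁅D, D⁆}` is a subgroup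
(`tor D / ⁅D, D⁆` is abelian), normal in `H` and contains `X`: it is `tor D`. `relIndex_ne_zero` for `tor D` and `⁅D, D⁆`; `Z = cent (tor D) ⁅D, D⁆` has finite index. `K = H ⊓ Z`:
`K.lowerCentralSeries (c + k + 1) = ⁅K.lowerCentralSeries (c + k), K⁆ ≤ ⁅tor D, Z⁆ ≤ ⁅D, D⁆`. -/
theorem unip_case [Group.FG G] {r : ℕ} (hG : RankLe G r) (D H : Subgroup G) [D.Characteristic]
    [H.Characteristic] [H.FiniteIndex] (hDH : D ≤ H) (c : ℕ) (hc : H.lowerCentralSeries c ≤ D)
    (hu : ∀ h ∈ H, ∀ (f : G → QB) (z : QB), Eig D h f z → z = 1) :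
    ∃ K : Subgroup G, K.FiniteIndex ∧ ∃ c', K.lowerCentralSeries c' ≤ ⁅D, D⁆ := by
  obtain ⟨k, hk⟩ := mm_le_tor hG D H hDH c hc hu
  have hser : ∀ j, H.lowerCentralSeries (c + j) ≤ MM D H j := by
    intro j
    induction j with
    | zero => exact hc
    | succ j ih =>
      rw [← Nat.add_assoc, Subgroup.lowerCentralSeries_succ]
      exact Subgroup.commutator_mono ih le_rfl
  have hT : H.lowerCentralSeries (c + k) ≤ tor D := (hser k).trans hk
  have hTchar : (tor D).Characteristic := tor_char D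
  have : (tor D).Normal := inferInstance
  have hTH : tor D ≤ H := (tor_le D).trans hDH
  obtain ⟨X, hX⟩ := normally_fg H ((tor D).subgroupOf H) (c + k) (by
    have h1 := Subgroup.top_subtype_lowerCentralSeries H (c + k)
    have h2 : ((⊤ : Subgroup H).lowerCentralSeries (c + k)).map H.subtype ≤ tor D := by
      rw [h1]; exact hT
    exact Subgroup.map_le_iff_le_comap.1 h2)
  have hpow : ∀ x ∈ X, ∃ m : ℕ, 0 < m ∧ (x : G) ^ m ∈ ⁅D, D⁆ := by
    intro x hx
    have h1 : x ∈ (tor D).subgroupOf H := by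
      rw [← hX]; exact Subgroup.subset_normalClosure hx
    have h2 : (x : G) ∈ tor D := Subgroup.mem_subgroupOf.1 h1
    exact torsion_of_forall (F := QB) D x h2.1 h2.2
  choose! m hm1 hm2 using hpow
  set e := ∏ x ∈ X, m x with he
  have he0 : e ≠ 0 := by
    rw [he, Finset.prod_ne_zero_iff]
    intro x hx
    exact (hm1 x hx).ne'
  have hXe : ∀ x ∈ (X : Set H), (x : G) ^ e ∈ ⁅D, D⁆ := by
    intro x hx
    obtain ⟨j, hj⟩ : m x ∣ e := Finset.dvd_prod_of_mem m hx
    rw [hj, pow_mul]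
    exact Subgroup.pow_mem _ (hm2 x hx) j
  have hTT : ⁅tor D, tor D⁆ ≤ ⁅D, D⁆ := Subgroup.commutator_mono (tor_le D) (tor_le D)
  have hexp := s6_pow hTT e (X : Set H) hX hXe hTH
  have hKT : ⁅D, D⁆ ≤ tor D := comm_le_tor D
  have hrel := relIndex_ne_zero hG (tor D) ⁅D, D⁆ hKT hTT e he0 hexp
  have := cent_finiteIndex (tor D) ⁅D, D⁆ hKT hrel
  refine ⟨H ⊓ cent (tor D) ⁅D, D⁆, inferInstance, c + k + 1, ?_⟩
  rw [Subgroup.lowerCentralSeries_succ]
  have h1 : (H ⊓ cent (tor D) ⁅D, D⁆).lowerCentralSeries (c + k) ≤ tor D :=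
    (Subgroup.lowerCentralSeries_mono _ inf_le_left).trans hT
  refine (Subgroup.commutator_mono h1 (inf_le_right : _ ≤ cent (tor D) ⁅D, D⁆)).trans ?_
  rw [Subgroup.commutator_le]
  intro t ht z hz
  have h2 := (mem_cent _ _ z).1 hz t ht
  rw [← commutatorElement_inv, Subgroup.inv_mem_iff]
  exact h2

end AG
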