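import Pool.Agent.AG.S1
import Pool.Agent.AG.S2
import Pool.Agent.AG.S3
import Pool.Agent.AG.S6
import Pool.Agent.AG.I3
import Pool.Agent.AG.C4

/-!
# [AG-S5] the structure theorem
-/

set_option autoImplicit false

namespace AG

/-- PROOF. `chain`: `D`, `H₁`, `c`. `H₁` is finitely generated; `arith`: `m`. `neat`: `Z`. `H = H₁ ⊓ Z`: characteristic, of finite index, `D ≤ H`, `H.lowerCentralSeries c ≤ D`. By `unip_case` and the last property of `chain` there are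
`h ∈ H`, `f`, `z ≠ 1` with `Eig D h f z`; `z` is not a root of unity (`Z`), `z ≠ 0`. By `eig_iff` `z` is an eigenvalue of `rep D QB h⁻¹`. `exists_eig'` for `ρ = (rep D QB).comp H.subtype` and the element `h⁻¹` (`neat` by `eig_iff` and `Z`): a common eigenvector `e`,
`ρ h⁻¹ e = z • e`. `f' = ext D e`; choose `χ` with `ρ n⁻¹ e = χ n • e` for `n ∈ H`; then `f' (n x n⁻¹) = χ n f' x` (`Wt D H χ f'`), and `χ h = z` (`e ≠ 0`). `exists_free`: `t`; `g = h ^ t`, `χ g = z ^ t` (`Wt.pow`). `x ∈ D` with `f' x ≠ 0`. -/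
theorem exists_core (G : Type*) [Group G] [Group.FG G] {r : ℕ} (hG : RankLe G r)
    (hs : VirtSolvable G) (hn : ¬ Group.IsVirtuallyNilpotent G) :
    ∃ C H : Subgroup G, C.Characteristic ∧ H.Characteristic ∧ H.FG ∧
      ∃ (χ f : G → QB) (m : ℕ) (g x : G), Core C H χ f m g x := by
  classical
  obtain ⟨D, H₁, hDc, hH₁c, hH₁f, hDH₁, ⟨c, hc⟩, hlast⟩ := chain G hs hn
  have hH₁g : H₁.FG := (Group.fg_iff_subgroup_fg H₁).1 (Subgroup.fg_of_index_ne_zero H₁)
  obtain ⟨m, hm, hV⟩ := arith hG D H₁ hH₁g hDH₁ c hc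
  obtain ⟨Z, hZc, hZf, hDZ, hZ⟩ := neat hG D m hm hV
  have hHc : (H₁ ⊓ Z).Characteristic := inferInstance
  have hHf : (H₁ ⊓ Z).FiniteIndex := inferInstance
  have hDH : D ≤ H₁ ⊓ Z := le_inf hDH₁ hDZ
  have hcH : (H₁ ⊓ Z).lowerCentralSeries c ≤ D :=
    (Subgroup.lowerCentralSeries_mono c (inf_le_left : H₁ ⊓ Z ≤ H₁)).trans hc
  have hZH : ∀ h ∈ H₁ ⊓ Z, ∀ (f : G → QB) (z : QB), Eig D h f z → ∀ k : ℕ, 0 < k → z ^ k = 1 →
      z = 1 := fun h hh => hZ h (Subgroup.mem_inf.1 hh).2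
  generalize hHdef : H₁ ⊓ Z = H at hHc hHf hDH hcH hZH
  have hHFG : Group.FG H := Subgroup.fg_of_index_ne_zero H
  have hHg : H.FG := (Group.fg_iff_subgroup_fg H).1 hHFG
  -- a nontrivial eigenvalue
  obtain ⟨h, hh, f, z, hE, hz1⟩ : ∃ h ∈ H, ∃ (f : G → QB) (z : QB), Eig D h f z ∧ z ≠ 1 := by
    by_contra hcon
    push Not at hcon
    obtain ⟨K, hK, c', hc'⟩ := unip_case hG D H hDH c hcH hcon
    exact hlast K hK c' hc'
  have hroot : ∀ k : ℕ, 0 < k → z ^ k ≠ 1 := fun k hk hzk => hz1 (hZH h hh f z hE k hk hzk)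
  have hz0 : z ≠ 0 := by
    rintro rfl
    obtain ⟨_, ⟨x, hx, hfx⟩, hconj⟩ := hE
    apply hfx
    have hx' : h⁻¹ * x * h ∈ D := by
      have := (inferInstance : D.Normal).conj_mem x hx h⁻¹
      rwa [inv_inv] at this
    have := hconj _ hx'
    rw [zero_mul] at this
    rw [← this]
    congr 1
    simp only [mul_assoc, mul_inv_cancel_left, mul_inv_cancel, mul_one]
  have hev : (rep D QB h⁻¹).HasEigenvalue z := (eig_iff D h z).2 ⟨f, hE⟩
  have hfd : FiniteDimensional QB (Additive D →+ QB) := finiteDimensional_of_rank hG D QB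
  -- the representation of `H`
  have hker : (⊤ : Subgroup H).lowerCentralSeries c ≤ ((rep D QB).comp H.subtype).ker := by
    intro n hnc
    rw [MonoidHom.mem_ker, MonoidHom.comp_apply]
    apply rep_of_mem
    apply hcH
    rw [← Subgroup.top_subtype_lowerCentralSeries H c]
    exact Subgroup.mem_map_of_mem _ hnc
  have hneat : ∀ (n : H) (z' : QB) (k : ℕ), 0 < k → z' ^ k = 1 →
      (((rep D QB).comp H.subtype) n).HasEigenvalue z' → z' = 1 := by
    intro n z' k hk hzk hev'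
    have h1 : (rep D QB ((n : G)⁻¹)⁻¹).HasEigenvalue z' := by
      rw [inv_inv]
      exact hev'
    obtain ⟨f', hf'⟩ := (eig_iff D ((n : G)⁻¹) z').1 h1
    exact hZH _ (H.inv_mem n.2) f' z' hf' k hk hzk
  obtain ⟨e, he0, hecom, heh⟩ := exists_eig' ((rep D QB).comp H.subtype) c hker hneat
    ⟨h⁻¹, H.inv_mem hh⟩ z hev
  choose χ₀ hχ₀ using hecom
  let χ : G → QB := fun n => if hn : n ∈ H then χ₀ ⟨n, hn⟩⁻¹ else 0
  have hχ : ∀ n (hn : n ∈ H), rep D QB n⁻¹ e = χ n • e := by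
    intro n hn
    have h1 : χ n = χ₀ ⟨n, hn⟩⁻¹ := dif_pos hn
    rw [h1]
    exact hχ₀ ⟨n, hn⟩⁻¹
  obtain ⟨x, hx, hfx⟩ : ∃ x ∈ D, ext D e x ≠ 0 := by
    by_contra hcon
    push Not at hcon
    apply he0
    apply AddMonoidHom.ext
    intro y
    obtain ⟨⟨d, hd⟩, rfl⟩ := Additive.ofMul.surjective y
    have := hcon d hd
    rw [ext_of_mem D e d hd] at this
    exact this
  have W : Wt D H χ (ext D e) := by
    refine ⟨ext_addOn D e, ⟨x, hx, hfx⟩, ?_⟩
    intro n hn y hy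
    have hy' : n * y * n⁻¹ ∈ D := (inferInstance : D.Normal).conj_mem y hy n
    rw [ext_of_mem D e y hy, ext_of_mem D e _ hy']
    have h3 := DFunLike.congr_fun (hχ n hn) (Additive.ofMul ⟨y, hy⟩)
    have h4 : n⁻¹⁻¹ * y * n⁻¹ ∈ D := by rw [inv_inv]; exact hy'
    rw [rep_apply D n⁻¹ e y hy h4] at h3
    have h5 : (⟨n⁻¹⁻¹ * y * n⁻¹, h4⟩ : D) = ⟨n * y * n⁻¹, hy'⟩ := by
      apply Subtype.ext
      simp
    rw [h5] at h3
    exact h3
  have hχh : χ h = z := by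
    have h1 : rep D QB h⁻¹ e = z • e := heh
    rw [hχ h hh] at h1
    have h2 : (χ h - z) • e = 0 := by rw [sub_smul, h1, sub_self]
    rcases smul_eq_zero.1 h2 with h3 | h3
    · exact sub_eq_zero.1 h3
    · exact absurd h3 he0
  obtain ⟨t, ht, hfree⟩ := exists_free z hz0 hroot
  refine ⟨D, H, hDc, hHc, hHg, χ, ext D e, m, h ^ t, x, ?_⟩
  refine ⟨W, hm, hV _ (ext_addOn D e), H.pow_mem hh t, hx, hfx, ?_⟩
  intro A B hAB
  rw [W.pow hh t, hχh] at hAB
  exact hfree A B hAB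

end AG
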