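import Pool.Agent.AG.V3

/-!
# [AG-V4] finitely generated virtually nilpotent groups have polynomial growth
-/

set_option autoImplicit false

namespace AG

/-- PROOF. `N ≤ G` nilpotent of finite index; it is finitely generated (`Subgroup.fg_of_index_ne_zero`); `exists_polyG` for `N` gives `T₀ : Finset N`; let `T : Finset G` be its image: `closure T = N`, `ball T n` is the image of `ball T₀ n` (every list of letters of `T` and
their inverses is the image of such a list for `T₀`), so `PolyG T`. Let `R` be a finite set with `G = R * N` (representatives of `G ⧸ N`, `Quotient.out`). For every letter `x` (`x ∈ S` or `x⁻¹ ∈ S`) and `r ∈ R` there are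
`r' ∈ R`, `v ∈ N` with `x * r = r' * v`; let `k` be such that all these `v` (finitely many) lie in `ball T k` (`exists_ball_subset`), also `1 = r₀ * v₀` with
`v₀ ∈ ball T k`. Induction on the list: `ball S n ⊆ {r * v : r ∈ R, v ∈ ball T (k * (n + 1))}`: `x * (r * v) = r' * (v' * v)`. Hence `(ball S n).ncard ≤ R.card * (C * (k * (n + 1) + 1) ^ d)
≤ (R.card * C * (k + 1) ^ d) * (n + 1) ^ d`. -/
theorem polyG_of_virtually_nilpotent {G : Type*} [Group G] (S : Finset G)
    (hS : Subgroup.closure (S : Set G) = ⊤) (h : Group.IsVirtuallyNilpotent G) : PolyG S := by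
  classical
  obtain ⟨N, hN, hfi⟩ := h
  have hfgG : Group.FG G := ⟨⟨S, hS⟩⟩
  have hfgN : Group.FG N := Subgroup.fg_of_index_ne_zero N
  have hNil : Group.IsNilpotent N := hN
  obtain ⟨T₀, hT₀, C, d, hC⟩ := exists_polyG N
  set T : Finset G := T₀.image (fun x : N => (x : G)) with hT
  -- the closure of `T`
  have hcl : Subgroup.closure (T : Set G) = N := by
    have h1 : (T : Set G) = N.subtype '' (T₀ : Set N) := by
      rw [hT, Finset.coe_image]
      rfl
    rw [h1, ← MonoidHom.map_closure, hT₀, ← MonoidHom.range_eq_map, Subgroup.range_subtype]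
  -- the balls of `T`
  have hbT : ∀ n, (ball T n).ncard ≤ C * (n + 1) ^ d := by
    intro n
    have h1 : ball T n ⊆ (fun x : N => (x : G)) '' ball T₀ n := by
      intro q hq
      obtain ⟨g, hg, hgq⟩ := ball_lift N.subtype (S := T₀) (S' := T) (k := 1) (by
        intro s hs
        obtain ⟨t, ht, rfl⟩ := Finset.mem_image.1 hs
        exact ⟨t, mem_ball_one ht, rfl⟩) n hq
      rw [one_mul] at hg
      exact ⟨g, hg, hgq⟩
    exact ((Set.ncard_le_ncard h1 ((ball_finite T₀ n).image _)).trans
      (Set.ncard_image_le (ball_finite T₀ n))).trans (hC n)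
  -- representatives
  have hfin : Finite (G ⧸ N) := Subgroup.finite_quotient_of_finiteIndex
  have hft : Fintype (G ⧸ N) := Fintype.ofFinite _
  set rep : G → G := fun g => (QuotientGroup.mk g : G ⧸ N).out with hrep
  set R : Finset G := Finset.univ.image (fun q : G ⧸ N => q.out) with hR
  have hrepR : ∀ g, rep g ∈ R := fun g => Finset.mem_image.2 ⟨_, Finset.mem_univ _, rfl⟩
  have hrepN : ∀ g, (rep g)⁻¹ * g ∈ N := by
    intro g
    rw [← QuotientGroup.eq]
    exact QuotientGroup.out_eq' _
  set L : Finset G := S ∪ S.image (fun x => x⁻¹) with hL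
  have hLmem : ∀ x, x ∈ S ∨ x⁻¹ ∈ S → x ∈ L := by
    intro x hx
    rw [hL, Finset.mem_union]
    rcases hx with hx | hx
    · exact Or.inl hx
    · exact Or.inr (Finset.mem_image.2 ⟨x⁻¹, hx, inv_inv x⟩)
  set U : Finset G := insert ((rep 1)⁻¹ * 1)
    ((L ×ˢ R).image (fun z : G × G => (rep (z.1 * z.2))⁻¹ * (z.1 * z.2))) with hU
  obtain ⟨k, hk⟩ := exists_ball_subset T U (by
    intro t ht
    rw [hcl]
    rw [hU, Finset.mem_insert] at ht
    rcases ht with rfl | ht
    · exact hrepN 1
    · obtain ⟨z, _, rfl⟩ := Finset.mem_image.1 ht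
      exact hrepN _)
  have hlist : ∀ l : List G, (∀ x ∈ l, x ∈ S ∨ x⁻¹ ∈ S) →
      ∃ r ∈ R, ∃ w ∈ ball T (k * (l.length + 1)), l.prod = r * w := by
    intro l
    induction l with
    | nil =>
      intro _
      refine ⟨rep 1, hrepR 1, (rep 1)⁻¹ * 1, ?_, ?_⟩
      · simpa using hk _ (Finset.mem_insert_self _ _)
      · simp
    | cons x l ih =>
      intro hx
      obtain ⟨r, hr, w, hw, hprod⟩ := ih (fun y hy => hx y (List.mem_cons_of_mem _ hy))
      refine ⟨rep (x * r), hrepR _, ((rep (x * r))⁻¹ * (x * r)) * w, ?_, ?_⟩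
      · have h1 : (rep (x * r))⁻¹ * (x * r) ∈ ball T k := by
          apply hk
          rw [hU, Finset.mem_insert]
          right
          exact Finset.mem_image.2 ⟨(x, r), Finset.mem_product.2
            ⟨hLmem x (hx x List.mem_cons_self), hr⟩, rfl⟩
        have h2 := mul_mem_ball h1 hw
        have e : k + k * (l.length + 1) = k * ((x :: l).length + 1) := by
          rw [List.length_cons]; ring
        rw [e] at h2
        exact h2
      · rw [List.prod_cons, hprod]
        group
  refine ⟨R.card * C * (k + 1) ^ d, d, ?_⟩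
  intro n
  have hsub : ball S n ⊆ (fun z : G × G => z.1 * z.2) '' ((R : Set G) ×ˢ ball T (k * (n + 1))) := by
    rintro g ⟨l, hl, hlS, rfl⟩
    obtain ⟨r, hr, w, hw, hprod⟩ := hlist l hlS
    refine ⟨(r, w), ⟨hr, ball_mono T (Nat.mul_le_mul_left k (by omega)) hw⟩, hprod.symm⟩
  have hfinP : ((R : Set G) ×ˢ ball T (k * (n + 1))).Finite :=
    R.finite_toSet.prod (ball_finite T _)
  calc (ball S n).ncard ≤ ((fun z : G × G => z.1 * z.2) ''
        ((R : Set G) ×ˢ ball T (k * (n + 1)))).ncard := Set.ncard_le_ncard hsub (hfinP.image _)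
    _ ≤ ((R : Set G) ×ˢ ball T (k * (n + 1))).ncard := Set.ncard_image_le hfinP
    _ = R.card * (ball T (k * (n + 1))).ncard := by
      rw [Set.ncard_prod, Set.ncard_coe_finset]
    _ ≤ R.card * (C * (k * (n + 1) + 1) ^ d) := Nat.mul_le_mul_left _ (hbT _)
    _ ≤ R.card * (C * ((k + 1) * (n + 1)) ^ d) := by
      apply Nat.mul_le_mul_left
      apply Nat.mul_le_mul_left
      apply Nat.pow_le_pow_left
      nlinarith
    _ = R.card * C * (k + 1) ^ d * (n + 1) ^ d := by
      rw [mul_pow]; ring

end AG
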