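import Pool.Agent.AG.B2
import Pool.Agent.AG.C5
import Pool.Agent.AG.S5
import Pool.Agent.AG.V4

/-!
# [AG-F1] the final theorem
-/

set_option autoImplicit false

namespace AG

/-- assembly (helper81) -/
theorem main {G : Type*} [Group G] (S : Finset G) (hS : Subgroup.closure (S : Set G) = ⊤)
    (N : Subgroup G) [N.Characteristic] (hs : VirtSolvable (G ⧸ N)) (hr : FinRank (G ⧸ N))
    (S' : Finset (G ⧸ N)) (hS' : Subgroup.closure (S' : Set (G ⧸ N)) = ⊤)
    (hexp : Exponential (wordGrowth S')) : Exponential (autGrowth S) := by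
  refine ⟨dom_autGrowth S, quot_dom N S hS S' ?_⟩
  obtain ⟨r, hr⟩ := hr
  have hfg : Group.FG (G ⧸ N) := ⟨⟨S', hS'⟩⟩
  have hn : ¬ Group.IsVirtuallyNilpotent (G ⧸ N) := fun h =>
    not_dom_of_poly S' (polyG_of_virtually_nilpotent S' hS' h) hexp.2
  obtain ⟨C, H, hC, hH, hHfg, χ, f, m, g, x, c⟩ := exists_core (G ⧸ N) hr hs hn
  haveI : FiniteDimensional QB (Additive C →+ QB) := finiteDimensional_of_rank hr C QB
  exact core S' hS' hHfg c

end AG
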