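import Mathlib

/-!
# [AG-G1] characteristic subgroups of finite index
-/

set_option autoImplicit false

namespace AG

theorem g1_finite_hom (G : Type*) [Group G] [Group.FG G] (P : Type*) [Group P] [Finite P] :
    Finite (G →* P) := by
  obtain ⟨S, hS⟩ := (Group.fg_def (G := G)).mp inferInstance
  refine Finite.of_injective (fun (f : G →* P) (s : (S : Set G)) => f s.1) ?_
  intro f g h
  apply MonoidHom.eq_of_eqOn_dense hS
  intro s hs
  exact congrFun h ⟨s, hs⟩

/-- PROOF. `n = H.index`, `G ⧸ H ≃ Fin n`, so `H ≥ ker` of a homomorphism `G →* Equiv.Perm (Fin n)` (`MulAction.toPermHom G (G ⧸ H)`, its kernel is `H.normalCore`). Let `K` be the intersection of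
the kernels of all homomorphisms `G →* Equiv.Perm (Fin n)`: there are finitely many of them (a homomorphism is determined by the images of the finitely many generators of `G`), so `K` has finite index
(`Subgroup.finiteIndex_iInf`), and `K` is characteristic (`ρ ↦ ρ.comp φ` permutes the homomorphisms). -/
theorem exists_char (G : Type*) [Group G] [Group.FG G] (H : Subgroup G) [H.FiniteIndex] :
    ∃ K : Subgroup G, K ≤ H ∧ K.Characteristic ∧ K.FiniteIndex := by
  haveI hfin : Finite (G ⧸ H) := Subgroup.finite_quotient_of_finiteIndex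
  obtain ⟨n, ⟨e⟩⟩ := Finite.exists_equiv_fin (G ⧸ H)
  haveI := g1_finite_hom G (Equiv.Perm (Fin n))
  refine ⟨⨅ f : G →* Equiv.Perm (Fin n), f.ker, ?_, ?_, ?_⟩
  · let ρ : G →* Equiv.Perm (Fin n) :=
      (e.permCongrHom : Equiv.Perm (G ⧸ H) ≃* Equiv.Perm (Fin n)).toMonoidHom.comp
        (MulAction.toPermHom G (G ⧸ H))
    have h1 : ρ.ker ≤ H := by
      have h2 : ρ.ker = (MulAction.toPermHom G (G ⧸ H)).ker := by
        ext x
        rw [MonoidHom.mem_ker, MonoidHom.mem_ker]
        show e.permCongrHom ((MulAction.toPermHom G (G ⧸ H)) x) = 1 ↔ _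
        rw [map_eq_one_iff _ (MulEquiv.injective _)]
      rw [h2, ← Subgroup.normalCore_eq_ker]
      exact Subgroup.normalCore_le H
    exact (iInf_le _ ρ).trans h1
  · rw [Subgroup.characteristic_iff_le_comap]
    intro φ x hx
    rw [Subgroup.mem_comap]
    rw [Subgroup.mem_iInf] at hx ⊢
    intro f
    have := hx (f.comp φ.toMonoidHom)
    rw [MonoidHom.mem_ker] at this ⊢
    exact this
  · exact Subgroup.finiteIndex_iInf fun f => inferInstance

end AG
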