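import Pool.Agent.AG.C1

/-!
# [AG-G6] additive functions separate points up to torsion
-/

set_option autoImplicit false

namespace AG

variable {G : Type*} [Group G]

/-- PROOF. Suppose that `d ^ k ∉ ⁅D, D⁆` for all `k ≥ 1`. Let `A = Additive (Abelianization D)` and `a ∈ A` the class of `d`: it has infinite order, `ℤ → A`, `n ↦ n • a`, is injective. `F` is a
divisible group, so `n • a ↦ n` extends to `A → F`. -/
theorem torsion_of_forall {F : Type*} [Field F] [CharZero F] (D : Subgroup G) (d : G) (hd : d ∈ D)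
    (h : ∀ f : G → F, AddOn D f → f d = 0) : ∃ k : ℕ, 0 < k ∧ d ^ k ∈ ⁅D, D⁆ := by
  classical
  by_contra hcon
  push Not at hcon
  set a : Additive (Abelianization D) := Additive.ofMul (Abelianization.of ⟨d, hd⟩) with ha
  have hmem : ∀ x : D, x ∈ commutator D → (x : G) ∈ ⁅D, D⁆ := by
    intro x hx
    have h1 : (commutator D).map D.subtype = ⁅D, D⁆ := by
      rw [commutator_def, Subgroup.map_commutator, ← MonoidHom.range_eq_map, Subgroup.range_subtype]
    rw [← h1]
    exact ⟨x, hx, rfl⟩
  have hnat : ∀ n : ℕ, 0 < n → n • a ≠ 0 := by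
    intro n hn h0
    have h1 : Abelianization.of ((⟨d, hd⟩ : D) ^ n) = 1 := by
      rw [map_pow]
      exact congrArg Additive.toMul h0
    have h2 : ((⟨d, hd⟩ : D) ^ n) ∈ commutator D := by
      rw [← Abelianization.ker_of, MonoidHom.mem_ker]
      exact h1
    exact hcon n hn (by simpa using hmem _ h2)
  have hinj : Function.Injective (zmultiplesHom (Additive (Abelianization D)) a) := by
    rw [injective_iff_map_eq_zero]
    intro n hn
    rw [zmultiplesHom_apply] at hn
    by_contra hne
    have h1 : n.natAbs • a = 0 := by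
      rcases Int.natAbs_eq n with h2 | h2
      · rw [h2, natCast_zsmul] at hn
        exact hn
      · rw [h2, neg_smul, natCast_zsmul, neg_eq_zero] at hn
        exact hn
    exact hnat n.natAbs (Int.natAbs_pos.mpr hne) h1
  obtain ⟨g, hg⟩ := Module.Baer.extension_property_addMonoidHom (Module.Baer.of_divisible F)
    (zmultiplesHom (Additive (Abelianization D)) a) hinj (Int.castAddHom F)
  have hga : g a = 1 := by
    have := DFunLike.congr_fun hg (1 : ℤ)
    simpa using this
  set f : G → F := fun x => if hx : x ∈ D then g (Additive.ofMul (Abelianization.of ⟨x, hx⟩)) else 0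
    with hf
  have hadd : AddOn D f := by
    intro x hx y hy
    simp only [hf, hx, hy, D.mul_mem hx hy, dif_pos]
    rw [← map_add, ← ofMul_mul, ← map_mul]
    rfl
  have h1 := h f hadd
  simp only [hf, hd, dif_pos] at h1
  rw [← ha, hga] at h1
  exact one_ne_zero h1

/-- the elements of `D` at which all additive functions vanish -/
def tor (D : Subgroup G) : Subgroup G where
  carrier := {d | d ∈ D ∧ ∀ f : G → QB, AddOn D f → f d = 0}
  one_mem' := ⟨D.one_mem, fun _ hf => hf.one⟩
  mul_mem' := by
    rintro a b ⟨ha, ha'⟩ ⟨hb, hb'⟩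
    refine ⟨D.mul_mem ha hb, fun f hf => ?_⟩
    rw [hf a ha b hb, ha' f hf, hb' f hf, add_zero]
  inv_mem' := by
    rintro a ⟨ha, ha'⟩
    refine ⟨D.inv_mem ha, fun f hf => ?_⟩
    rw [hf.inv ha, ha' f hf, neg_zero]

theorem tor_le (D : Subgroup G) : tor D ≤ D := fun _ h => h.1

theorem comm_le_tor (D : Subgroup G) : ⁅D, D⁆ ≤ tor D := by
  intro x hx
  refine ⟨?_, fun f hf => hf.comm hx⟩
  have h1 : ⁅D, D⁆ ≤ D := by
    rw [Subgroup.commutator_le]
    intro a ha b hb
    rw [commutatorElement_def]
    exact D.mul_mem (D.mul_mem (D.mul_mem ha hb) (D.inv_mem ha)) (D.inv_mem hb)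
  exact h1 hx

/-- PROOF. `f ∘ φ` is additive on `D` for every automorphism `φ`. -/
theorem tor_char (D : Subgroup G) [D.Characteristic] : (tor D).Characteristic := by
  rw [Subgroup.characteristic_iff_comap_le]
  intro φ x hx
  have hx' : φ x ∈ tor D := hx
  have hD : ∀ (ψ : G ≃* G) (y : G), y ∈ D → ψ y ∈ D := fun ψ y hy => by
    have h1 := Subgroup.characteristic_iff_le_comap.mp (inferInstance : D.Characteristic) ψ
    exact h1 hy
  have hxD : x ∈ D := by
    have h1 := hD φ.symm (φ x) hx'.1
    rwa [MulEquiv.symm_apply_apply] at h1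
  refine ⟨hxD, fun f hf => ?_⟩
  have h1 := hx'.2 (fun y => f (φ.symm y)) (fun a ha b hb => by
    show f (φ.symm (a * b)) = f (φ.symm a) + f (φ.symm b)
    rw [map_mul]
    exact hf _ (hD φ.symm a ha) _ (hD φ.symm b hb))
  simpa using h1

end AG
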