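import Pool.Agent.AG.G4

/-!
# [AG-G7] finitely generated nilpotent groups are Noetherian
-/

set_option autoImplicit false

open scoped commutatorElement

namespace AG

/-- a subgroup of a finitely generated subgroup of an abelian group is finitely generated -/
theorem g7_comm {A : Type*} [CommGroup A] {B C : Subgroup A} (hBC : B ≤ C) (hC : C.FG) : B.FG := by
  rw [Subgroup.fg_iff_add_fg] at hC ⊢
  have hC' : (AddSubgroup.toIntSubmodule C.toAddSubgroup).FG := by
    rw [Submodule.fg_iff_addSubgroup_fg, AddSubgroup.toIntSubmodule_toAddSubgroup]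
    exact hC
  have hN : IsNoetherian ℤ (AddSubgroup.toIntSubmodule C.toAddSubgroup) :=
    isNoetherian_of_fg_of_noetherian _ hC'
  have hB := (isNoetherian_submodule.1 hN) (AddSubgroup.toIntSubmodule B.toAddSubgroup)
    (by
      intro x hx
      exact hBC hx)
  rwa [Submodule.fg_iff_addSubgroup_fg, AddSubgroup.toIntSubmodule_toAddSubgroup] at hB

theorem g7_comm' {A : Type*} [inst : Group A] (hA : ∀ x y : A, x * y = y * x)
    {B C : Subgroup A} (hBC : B ≤ C) (hC : C.FG) : B.FG := by
  letI : CommGroup A := { inst with mul_comm := hA }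
  exact g7_comm hBC hC

theorem g7_map {G H : Type*} [Group G] [Group H] (f : G →* H) {K : Subgroup G} (hK : K.FG) :
    (K.map f).FG := by
  classical
  obtain ⟨S, hS⟩ := hK
  refine ⟨S.image f, ?_⟩
  rw [Finset.coe_image, ← MonoidHom.map_closure, hS]

/-- extensions of finitely generated groups -/
theorem g7_ext {G H : Type*} [Group G] [Group H] (f : G →* H) {K : Subgroup G}
    (h1 : (K ⊓ f.ker).FG) (h2 : (K.map f).FG) : K.FG := by
  classical
  obtain ⟨S, hS⟩ := h2
  have hlift : ∀ s : S, ∃ k ∈ K, f k = s := by
    intro s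
    have : (s : H) ∈ K.map f := by
      rw [← hS]; exact Subgroup.subset_closure s.2
    exact this
  choose g hg1 hg2 using hlift
  set T : Finset G := S.attach.image g with hT
  have hTK : Subgroup.closure (T : Set G) ≤ K := by
    rw [Subgroup.closure_le]
    intro x hx
    simp only [hT, Finset.coe_image, Set.mem_image] at hx
    obtain ⟨s, -, rfl⟩ := hx
    exact hg1 s
  have hTm : (Subgroup.closure (T : Set G)).map f = K.map f := by
    rw [MonoidHom.map_closure, ← hS]
    congr 1
    ext y
    simp only [hT, Finset.coe_image, Set.mem_image, Finset.mem_coe, Finset.mem_attach, true_and]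
    constructor
    · rintro ⟨x, ⟨s, rfl⟩, rfl⟩
      rw [hg2]; exact s.2
    · intro hy
      exact ⟨g ⟨y, hy⟩, ⟨⟨y, hy⟩, rfl⟩, hg2 _⟩
  have hK : K = Subgroup.closure (T : Set G) ⊔ (K ⊓ f.ker) := by
    apply le_antisymm
    · intro k hk
      have hk2 : f k ∈ (Subgroup.closure (T : Set G)).map f := by
        rw [hTm]; exact Subgroup.mem_map_of_mem f hk
      obtain ⟨t, ht, htk⟩ := hk2
      have h3 : t⁻¹ * k ∈ K ⊓ f.ker := by
        refine Subgroup.mem_inf.2 ⟨K.mul_mem (K.inv_mem (hTK ht)) hk, ?_⟩
        rw [MonoidHom.mem_ker, map_mul, map_inv, htk, inv_mul_cancel]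
      have h4 : k = t * (t⁻¹ * k) := by group
      rw [h4]
      exact Subgroup.mul_mem _ (Subgroup.mem_sup_left ht) (Subgroup.mem_sup_right h3)
    · exact sup_le hTK inf_le_left
  rw [hK]
  exact Subgroup.FG.sup ⟨T, rfl⟩ h1

theorem g7_main.{u} : ∀ (c : ℕ) (G : Type u) [Group G] [Group.FG G],
    (⊤ : Subgroup G).lowerCentralSeries c = ⊥ → ∀ K : Subgroup G, K.FG := by
  intro c
  induction c with
  | zero =>
    intro G _ _ h K
    have h1 : (⊤ : Subgroup G) = ⊥ := h
    have h2 : K = ⊥ := by
      rw [eq_bot_iff, ← h1]; exact le_top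
    rw [h2]; exact Subgroup.FG.bot
  | succ c ih =>
    intro G _ _ h K
    set L := (⊤ : Subgroup G).lowerCentralSeries c with hL
    have hLn : L.Normal := by rw [hL]; infer_instance
    have hLc : L ≤ Subgroup.center G := by
      intro x hx
      rw [Subgroup.mem_center_iff]
      intro g
      have h1 : ⁅x, g⁆ ∈ (⊤ : Subgroup G).lowerCentralSeries (c + 1) := by
        rw [Subgroup.lowerCentralSeries_succ]
        exact Subgroup.commutator_mem_commutator hx (Subgroup.mem_top g)
      rw [h, Subgroup.mem_bot, commutatorElement_eq_one_iff_mul_comm] at h1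
      exact h1.symm
    have hLfg : L.FG := by
      obtain ⟨X, hX⟩ := normally_fg G L c le_rfl
      have hXL : (X : Set G) ⊆ Subgroup.center G := by
        intro x hx
        apply hLc
        rw [← hX]; exact Subgroup.subset_normalClosure hx
      have hcl : Subgroup.closure (X : Set G) ≤ Subgroup.center G := by
        rw [Subgroup.closure_le]; exact hXL
      have hn : (Subgroup.closure (X : Set G)).Normal := by
        constructor
        intro x hx g
        have := (Subgroup.mem_center_iff.1 (hcl hx)) g
        rw [this, mul_inv_cancel_right]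
        exact hx
      refine ⟨X, le_antisymm ?_ ?_⟩
      · rw [← hX]; exact Subgroup.closure_le_normalClosure
      · rw [← hX]; exact Subgroup.normalClosure_le_normal Subgroup.subset_closure
    have hq : (⊤ : Subgroup (G ⧸ L)).lowerCentralSeries c = ⊥ := by
      have h1 := Subgroup.map_lowerCentralSeries (⊤ : Subgroup G) (QuotientGroup.mk' L) c
      rw [Subgroup.map_top_of_surjective _ (QuotientGroup.mk'_surjective L)] at h1
      rw [← h1, ← hL, Subgroup.map_eq_bot_iff, QuotientGroup.ker_mk']
    refine g7_ext (QuotientGroup.mk' L) ?_ (ih (G ⧸ L) hq _)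
    rw [QuotientGroup.ker_mk']
    have h1 : ((K ⊓ L).subgroupOf (Subgroup.center G)).FG := by
      refine g7_comm' (A := Subgroup.center G)
        (fun x y => Subtype.ext ((Subgroup.mem_center_iff.1 y.2 x.1)))
        (C := L.subgroupOf (Subgroup.center G))
        (fun x hx => Subgroup.mem_subgroupOf.2
          (Subgroup.mem_inf.1 (Subgroup.mem_subgroupOf.1 hx)).2) ?_
      obtain ⟨X, hX⟩ := hLfg
      have hXL : ∀ x ∈ X, x ∈ Subgroup.center G := fun x hx => hLc (by
        rw [← hX]; exact Subgroup.subset_closure hx)
      classical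
      refine ⟨X.attach.image (fun x => ⟨x.1, hXL _ x.2⟩), ?_⟩
      apply Subgroup.map_injective (Subgroup.subtype_injective (Subgroup.center G))
      rw [MonoidHom.map_closure, Subgroup.map_subgroupOf_eq_of_le hLc, ← hX]
      congr 1
      ext y
      simp only [Finset.coe_image, Set.mem_image, Finset.mem_coe, Finset.mem_attach, true_and,
        Subgroup.coe_subtype]
      constructor
      · rintro ⟨x, ⟨s, rfl⟩, rfl⟩
        exact s.2
      · intro hy
        exact ⟨⟨y, hXL y hy⟩, ⟨⟨y, hy⟩, rfl⟩, rfl⟩
    have h2 := g7_map (Subgroup.center G).subtype h1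
    rwa [Subgroup.map_subgroupOf_eq_of_le (inf_le_right.trans hLc)] at h2

/-- **Finitely generated nilpotent groups are Noetherian.**

PROOF. Let `L j = ⊤.lowerCentralSeries j`, `L c = ⊥`. Claim: `K ⊓ L j` is finitely generated for `j = c, c - 1, ..., 0`. `L j = normalClosure X`, `X` finite (`normally_fg`), and
`⁅L j, ⊤⁆ ≤ L (j+1)`, so `L j` is generated by `X` and `L (j+1)` (the subgroup `closure X ⊔ L (j+1)` is normal), and `L j ⧸ L (j+1)` is a finitely generated abelian group
(for instance: in `G ⧸ L (j+1)` the image of `L j` is central and generated by the image of `X`). So the image of `K ⊓ L j` in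
`G ⧸ L (j+1)` is finitely generated, and the kernel `K ⊓ L (j+1)` of `K ⊓ L j → G ⧸ L (j+1)` is finitely generated by induction
(`Group.fg_of_...`/by hand: a group with a finitely generated normal subgroup and a finitely generated quotient is finitely generated). -/
theorem fg_of_nilpotent {G : Type*} [Group G] [Group.FG G] [Group.IsNilpotent G]
    (K : Subgroup G) : K.FG := by
  obtain ⟨c, hc⟩ := Subgroup.nilpotent_iff_lowerCentralSeries.1 (inferInstance : Group.IsNilpotent G)
  exact g7_main c G hc K

end AG
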