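import Pool.Agent.AG.Defs

/-!
# [AG-N1] the number of the divisors of the powers of an ideal
-/

set_option autoImplicit false

namespace AG

open UniqueFactorizationMonoid

/-- The number of the divisors of `I ^ k` is at most `(e k + 1) ^ t`.

PROOF. Let `s = normalizedFactors I` (a finite multiset of prime ideals), `e = card s`, `t = s.toFinset.card`. If `J ∣ I ^ k` (`J ≠ 0`), then
`normalizedFactors J ≤ k • s` (`normalizedFactors_pow`, `dvd_iff_normalizedFactors_le_normalizedFactors`), so
`count p (normalizedFactors J) ≤ k e` for all `p`, and `= 0` for `p ∉ s`. `J` is determined by `normalizedFactors J`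
(`prod_normalizedFactors_eq`, ideals: associated = equal, `associated_iff_eq`), hence by the function
`s.toFinset → Fin (k e + 1)`, `p ↦ count p (normalizedFactors J)`. -/
theorem card_divisors {A : Type*} [CommRing A] [IsDomain A] [IsDedekindDomain A] (I : Ideal A)
    (hI : I ≠ ⊥) : ∃ e t : ℕ, ∀ (k : ℕ) (𝒥 : Finset (Ideal A)), (∀ J ∈ 𝒥, J ∣ I ^ k) →
      𝒥.card ≤ (e * k + 1) ^ t := by
  classical
  set s := normalizedFactors I with hs
  refine ⟨Multiset.card s, s.toFinset.card, fun k 𝒥 h𝒥 => ?_⟩
  have hIk : I ^ k ≠ 0 := pow_ne_zero k hI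
  have hJ0 : ∀ J ∈ 𝒥, J ≠ 0 := fun J hJ h0 => by
    have h1 := h𝒥 J hJ
    rw [h0, zero_dvd_iff] at h1
    exact hIk h1
  have hle : ∀ J ∈ 𝒥, normalizedFactors J ≤ k • s := fun J hJ => by
    have h1 := (dvd_iff_normalizedFactors_le_normalizedFactors (hJ0 J hJ) hIk).1 (h𝒥 J hJ)
    rwa [normalizedFactors_pow] at h1
  have hcount : ∀ J ∈ 𝒥, ∀ p, (normalizedFactors J).count p ≤ k * s.count p := fun J hJ p => by
    have h1 := Multiset.count_le_of_le p (hle J hJ)
    rwa [Multiset.count_nsmul] at h1
  let f : Ideal A → (s.toFinset → Fin (Multiset.card s * k + 1)) := fun J p =>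
    ⟨min ((normalizedFactors J).count p.1) (Multiset.card s * k),
      Nat.lt_succ_of_le (min_le_right _ _)⟩
  have hcap : ∀ J ∈ 𝒥, ∀ p, min ((normalizedFactors J).count p) (Multiset.card s * k) =
      (normalizedFactors J).count p := fun J hJ p => by
    refine min_eq_left ((hcount J hJ p).trans ?_)
    rw [mul_comm]
    exact Nat.mul_le_mul_right k (Multiset.count_le_card p s)
  have hinj : Set.InjOn f (𝒥 : Set (Ideal A)) := by
    intro J hJ J' hJ' hf
    have h1 : normalizedFactors J = normalizedFactors J' := by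
      refine Multiset.ext.2 fun p => ?_
      by_cases hp : p ∈ s
      · have h2 := congrArg Fin.val (congrFun hf ⟨p, Multiset.mem_toFinset.2 hp⟩)
        change min _ _ = min _ _ at h2
        rw [hcap J hJ, hcap J' hJ'] at h2
        exact h2
      · have h3 : s.count p = 0 := Multiset.count_eq_zero.2 hp
        have h4 := hcount J hJ p
        have h5 := hcount J' hJ' p
        rw [h3, mul_zero] at h4 h5
        omega
    have h2 := prod_normalizedFactors (hJ0 J hJ)
    have h3 := prod_normalizedFactors (hJ0 J' hJ')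
    rw [h1] at h2
    exact associated_iff_eq.1 (h2.symm.trans h3)
  have h1 := Finset.card_le_card_of_injOn f (fun J _ => Finset.mem_coe.2 (Finset.mem_univ (f J)))
    hinj
  rw [Finset.card_univ, Fintype.card_fun, Fintype.card_fin, Fintype.card_coe] at h1
  exact h1

end AG
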