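import Pool.Agent.AG.Defs

/-!
# [AG-N3] heights of the values of polynomials with the coefficients 0, 1
-/

set_option autoImplicit false

namespace AG

open NumberField

theorem n3_sum_le (M : ℝ) (hM : 0 ≤ M) (n : ℕ) (A : Finset ℕ) (hA : A ⊆ Finset.range n)
    (x : ℂ) (hx : ‖x‖ ≤ M) : ‖∑ i ∈ A, x ^ i‖ ≤ (2 * (1 + M)) ^ n := by
  have h1 : ∀ i ∈ A, ‖x ^ i‖ ≤ (1 + M) ^ n := by
    intro i hi
    rw [norm_pow]
    calc ‖x‖ ^ i ≤ (1 + M) ^ i := pow_le_pow_left₀ (norm_nonneg _) (by linarith) i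
      _ ≤ (1 + M) ^ n := pow_le_pow_right₀ (by linarith) (Finset.mem_range.1 (hA hi)).le
  calc ‖∑ i ∈ A, x ^ i‖ ≤ ∑ i ∈ A, ‖x ^ i‖ := norm_sum_le _ _
    _ ≤ ∑ _i ∈ A, (1 + M) ^ n := Finset.sum_le_sum h1
    _ = A.card * (1 + M) ^ n := by rw [Finset.sum_const, nsmul_eq_mul]
    _ ≤ 2 ^ n * (1 + M) ^ n := by
        apply mul_le_mul_of_nonneg_right _ (by positivity)
        have h2 : A.card ≤ n := by
          have := Finset.card_le_card hA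
          rwa [Finset.card_range] at this
        have h3 : n < 2 ^ n := Nat.lt_two_pow_self
        have h4 : A.card ≤ 2 ^ n := by omega
        exact_mod_cast h4
    _ = (2 * (1 + M)) ^ n := by rw [mul_pow]

/-- The upper bound and the integrality. PROOF. `b` such that `2 ^ b ≥ 2 (1 + ‖σ β‖)` for all of the finitely many `σ`, and `b ≥ s`:
`‖σ (pv β A)‖ ≤ ∑_{i < n} ‖σ β‖^i ≤ (1 + ‖σ β‖)^n`. `m^(s n) β^i = (m^s β)^i m^(s (n - i))` is integral for `i < n`. -/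
theorem pv_upper (K : Type*) [Field K] [NumberField K] (β : K) (m s : ℕ)
    (hβ : IsIntegral ℤ ((m : K) ^ s * β)) : ∃ b : ℕ, ∀ (n : ℕ) (A : Finset ℕ),
      A ⊆ Finset.range n → (∀ σ : K →+* ℂ, ‖σ (pv β A)‖ ≤ 2 ^ (b * n)) ∧
        IsIntegral ℤ ((m : K) ^ (b * n) * pv β A) := by
  set M : ℝ := ∑ σ : K →+* ℂ, ‖σ β‖ with hM
  have hM0 : 0 ≤ M := Finset.sum_nonneg fun σ _ => norm_nonneg _
  have hMσ : ∀ σ : K →+* ℂ, ‖σ β‖ ≤ M := fun σ =>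
    Finset.single_le_sum (f := fun σ : K →+* ℂ => ‖σ β‖) (fun σ _ => norm_nonneg _)
      (Finset.mem_univ σ)
  obtain ⟨b₀, hb₀⟩ := pow_unbounded_of_one_lt (2 * (1 + M)) (by norm_num : (1 : ℝ) < 2)
  refine ⟨b₀ + s, fun n A hA => ⟨fun σ => ?_, ?_⟩⟩
  · have h1 : σ (pv β A) = ∑ i ∈ A, (σ β) ^ i := by
      unfold pv
      rw [map_sum]
      exact Finset.sum_congr rfl fun i _ => map_pow _ _ _
    rw [h1]
    calc ‖∑ i ∈ A, (σ β) ^ i‖ ≤ (2 * (1 + M)) ^ n := n3_sum_le M hM0 n A hA _ (hMσ σ)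
      _ ≤ (2 ^ b₀) ^ n := pow_le_pow_left₀ (by positivity) hb₀.le n
      _ = 2 ^ (b₀ * n) := by rw [pow_mul]
      _ ≤ 2 ^ ((b₀ + s) * n) := pow_le_pow_right₀ (by norm_num)
          (Nat.mul_le_mul_right _ (Nat.le_add_right _ _))
  · unfold pv
    rw [Finset.mul_sum]
    apply IsIntegral.sum
    intro i hi
    have hin := Finset.mem_range.1 (hA hi)
    have h2 : s * i ≤ (b₀ + s) * n := Nat.mul_le_mul (Nat.le_add_left _ _) hin.le
    have h3 : (m : K) ^ ((b₀ + s) * n) * β ^ i =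
        (((m : K) ^ s * β) ^ i) * ((m : K) ^ ((b₀ + s) * n - s * i)) := by
      rw [mul_pow, ← pow_mul, mul_right_comm, ← pow_add, Nat.add_sub_cancel' h2]
    rw [h3]
    exact (hβ.pow i).mul ((isIntegral_natCast m).pow _)

theorem n3_prod (K : Type*) [Field K] [NumberField K] (α : 𝓞 K) :
    ∏ σ : K →ₐ[ℚ] ℂ, ‖σ (α : K)‖ = ((Algebra.norm ℤ α).natAbs : ℝ) := by
  have h1 := Algebra.norm_eq_prod_embeddings ℚ ℂ (α : K)
  have h2 := congrArg (fun z : ℂ => ‖z‖) h1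
  simp only [norm_prod] at h2
  rw [← h2, ← Algebra.coe_norm_int]
  rw [Nat.cast_natAbs]
  simp

/-- **Heights.** PROOF. `b₁` from `pv_upper`, `D = [K : ℚ]`, `m ≤ 2 ^ c`. Let `α = m^(b₁ n) (pv β A) ∈ 𝓞 K`, `α ≠ 0`. For all `σ`
`‖σ α‖ ≤ 2 ^ ((c + 1) b₁ n)`. `∏_σ ‖σ α‖ = |Norm α| = N ≥ 1` (`Algebra.norm_eq_prod_embeddings`, or
`RingOfIntegers`/`Algebra.coe_norm_int`), so `‖σ α‖ ≥ 2 ^ (-(D (c+1) b₁ n))` for every `σ`, and
`N ≤ 2 ^ (D (c + 1) b₁ n)`; `N / α` is integral (`Ideal.absNorm_mem`: `N = absNorm (α) ∈ (α)`, `Ideal.absNorm_span_singleton`), hence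
`N (pv β A)⁻¹ = m^(b₁ n) (N / α)` too. -/
theorem pv_height (K : Type*) [Field K] [NumberField K] (β : K) (m s : ℕ) (hm : m ≠ 0)
    (hβ : IsIntegral ℤ ((m : K) ^ s * β)) : ∃ b : ℕ, ∀ (n : ℕ) (A : Finset ℕ),
      A ⊆ Finset.range n → pv β A ≠ 0 →
        (∀ σ : K →+* ℂ, ‖σ (pv β A)‖ ≤ 2 ^ (b * n) ∧ ‖σ (pv β A)⁻¹‖ ≤ 2 ^ (b * n)) ∧
        IsIntegral ℤ ((m : K) ^ (b * n) * pv β A) ∧
        ∃ N : ℕ, N ≠ 0 ∧ N ≤ 2 ^ (b * n) ∧ IsIntegral ℤ ((N : K) * (pv β A)⁻¹) := by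
  classical
  obtain ⟨b₁, hb₁⟩ := pv_upper K β m s hβ
  set D := Fintype.card (K →ₐ[ℚ] ℂ) with hD
  obtain ⟨c, hc⟩ : ∃ c : ℕ, m ≤ 2 ^ c := ⟨m, Nat.lt_two_pow_self.le⟩
  refine ⟨(c + 1) * b₁ * (D + 1), fun n A hA hne => ?_⟩
  obtain ⟨hσ, hint⟩ := hb₁ n A hA
  set x := pv β A with hx
  set b := (c + 1) * b₁ * (D + 1) with hb
  have hbb : b₁ ≤ b := by
    rw [hb]
    calc b₁ = 1 * b₁ * 1 := by ring
      _ ≤ (c + 1) * b₁ * (D + 1) := by gcongr <;> omega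
  have hmK : (m : K) ≠ 0 := by exact_mod_cast hm
  set α : 𝓞 K := ⟨(m : K) ^ (b₁ * n) * x, hint⟩ with hα
  have hαK : (α : K) = (m : K) ^ (b₁ * n) * x := rfl
  have hα0 : α ≠ 0 := by
    intro h
    have : (α : K) = 0 := by rw [h]; rfl
    rw [hαK] at this
    exact mul_ne_zero (pow_ne_zero _ hmK) hne this
  set N := (Algebra.norm ℤ α).natAbs with hN
  have hN0 : N ≠ 0 := by
    rw [hN, Int.natAbs_ne_zero]
    exact Algebra.norm_ne_zero_iff.2 hα0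
  set H : ℝ := 2 ^ ((c + 1) * b₁ * n) with hH
  have hH1 : 1 ≤ H := one_le_pow₀ (by norm_num)
  have hmR : (m : ℝ) ^ (b₁ * n) ≤ 2 ^ (c * b₁ * n) := by
    calc (m : ℝ) ^ (b₁ * n) ≤ (2 ^ c) ^ (b₁ * n) := by
          apply pow_le_pow_left₀ (by positivity)
          exact_mod_cast hc
      _ = 2 ^ (c * b₁ * n) := by rw [← pow_mul, mul_assoc]
  have hnormα : ∀ σ : K →+* ℂ, ‖σ (α : K)‖ = (m : ℝ) ^ (b₁ * n) * ‖σ x‖ := by
    intro σ
    rw [hαK, map_mul, map_pow, map_natCast, norm_mul, norm_pow, Complex.norm_natCast]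
  have hupper : ∀ σ : K →+* ℂ, ‖σ (α : K)‖ ≤ H := by
    intro σ
    rw [hnormα]
    calc (m : ℝ) ^ (b₁ * n) * ‖σ x‖ ≤ 2 ^ (c * b₁ * n) * 2 ^ (b₁ * n) :=
          mul_le_mul hmR (hσ σ) (norm_nonneg _) (by positivity)
      _ = H := by rw [hH, ← pow_add]; congr 1; ring
  have hprod := n3_prod K α
  have hN1 : (1 : ℝ) ≤ (N : ℝ) := by
    exact_mod_cast Nat.one_le_iff_ne_zero.2 hN0
  have hlow : ∀ σ : K →+* ℂ, 1 ≤ ‖σ (α : K)‖ * H ^ D := by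
    intro σ
    set σ' : K →ₐ[ℚ] ℂ := σ.toRatAlgHom with hσ'
    have h1 : ‖σ' (α : K)‖ * ∏ τ ∈ (Finset.univ.erase σ'), ‖τ (α : K)‖ = (N : ℝ) := by
      rw [Finset.mul_prod_erase Finset.univ (fun τ : K →ₐ[ℚ] ℂ => ‖τ (α : K)‖) (Finset.mem_univ σ')]
      exact hprod
    have h2 : ∏ τ ∈ (Finset.univ.erase σ'), ‖τ (α : K)‖ ≤ H ^ D := by
      calc ∏ τ ∈ (Finset.univ.erase σ'), ‖τ (α : K)‖ ≤ ∏ _τ ∈ (Finset.univ.erase σ'), H :=
            Finset.prod_le_prod (fun _ _ => norm_nonneg _) (fun τ _ => hupper τ.toRingHom)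
        _ = H ^ (Finset.univ.erase σ').card := by rw [Finset.prod_const]
        _ ≤ H ^ D := by
            apply pow_le_pow_right₀ hH1
            rw [hD, ← Finset.card_univ]
            exact Finset.card_le_card (Finset.erase_subset _ _)
    have h3 : ‖σ (α : K)‖ = ‖σ' (α : K)‖ := rfl
    calc (1 : ℝ) ≤ N := hN1
      _ = ‖σ' (α : K)‖ * ∏ τ ∈ (Finset.univ.erase σ'), ‖τ (α : K)‖ := h1.symm
      _ ≤ ‖σ' (α : K)‖ * H ^ D := mul_le_mul_of_nonneg_left h2 (norm_nonneg _)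
  have hHD : H ^ D = 2 ^ ((c + 1) * b₁ * n * D) := by rw [hH, ← pow_mul]
  have hNle : (N : ℝ) ≤ 2 ^ (b * n) := by
    rw [← hprod]
    calc ∏ τ : K →ₐ[ℚ] ℂ, ‖τ (α : K)‖ ≤ ∏ _τ : K →ₐ[ℚ] ℂ, H :=
          Finset.prod_le_prod (fun _ _ => norm_nonneg _) (fun τ _ => hupper τ.toRingHom)
      _ = H ^ D := by rw [Finset.prod_const, Finset.card_univ]
      _ = 2 ^ ((c + 1) * b₁ * n * D) := hHD
      _ ≤ 2 ^ (b * n) := by
          apply pow_le_pow_right₀ (by norm_num)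
          rw [hb]
          calc (c + 1) * b₁ * n * D ≤ (c + 1) * b₁ * n * (D + 1) := by gcongr; omega
            _ = (c + 1) * b₁ * (D + 1) * n := by ring
  refine ⟨fun σ => ⟨(hσ σ).trans (pow_le_pow_right₀ (by norm_num)
    (Nat.mul_le_mul_right _ hbb)), ?_⟩, ?_, N, hN0, by exact_mod_cast hNle, ?_⟩
  · have hσx : 0 < ‖σ x‖ := by
      rw [norm_pos_iff]
      exact (map_ne_zero σ).2 hne
    rw [map_inv₀, norm_inv]
    have h1 := hlow σ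
    rw [hnormα] at h1
    have h2 : ‖σ x‖⁻¹ ≤ (m : ℝ) ^ (b₁ * n) * H ^ D := by
      rw [inv_le_iff_one_le_mul₀ hσx]
      calc (1 : ℝ) ≤ (m : ℝ) ^ (b₁ * n) * ‖σ x‖ * H ^ D := h1
        _ = (m : ℝ) ^ (b₁ * n) * H ^ D * ‖σ x‖ := by ring
    calc ‖σ x‖⁻¹ ≤ (m : ℝ) ^ (b₁ * n) * H ^ D := h2
      _ ≤ 2 ^ (c * b₁ * n) * 2 ^ ((c + 1) * b₁ * n * D) := by
          rw [hHD]
          exact mul_le_mul_of_nonneg_right hmR (by positivity)
      _ = 2 ^ (c * b₁ * n + (c + 1) * b₁ * n * D) := by rw [← pow_add]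
      _ ≤ 2 ^ (b * n) := by
          apply pow_le_pow_right₀ (by norm_num)
          rw [hb]
          calc c * b₁ * n + (c + 1) * b₁ * n * D ≤ (c + 1) * b₁ * n + (c + 1) * b₁ * n * D := by
                gcongr; omega
            _ = (c + 1) * b₁ * (D + 1) * n := by ring
  · have h1 : (m : K) ^ (b * n) * x = (m : K) ^ ((b - b₁) * n) * ((m : K) ^ (b₁ * n) * x) := by
      rw [← mul_assoc, ← pow_add, ← add_mul, Nat.sub_add_cancel hbb]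
    rw [h1]
    exact ((isIntegral_natCast m).pow _).mul hint
  · have h1 := Ideal.absNorm_mem (Ideal.span {α})
    rw [Ideal.absNorm_span_singleton, Ideal.mem_span_singleton] at h1
    obtain ⟨γ, hγ⟩ := h1
    have h2 : (N : K) = (α : K) * (γ : K) := by
      have := congrArg (algebraMap (𝓞 K) K) hγ
      rw [map_natCast, map_mul] at this
      exact this
    have h3 : (N : K) * x⁻¹ = (m : K) ^ (b₁ * n) * (γ : K) := by
      rw [h2, hαK]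
      field_simp
    rw [h3]
    exact ((isIntegral_natCast m).pow _).mul γ.2

end AG
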