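import Pool.Agent.AG.C1

/-!
# [AG-R1] the representation on the additive functions
-/

set_option autoImplicit false

namespace AG

variable {G : Type*} [Group G] {F : Type*} [Field F]

/-- conjugation by `h` on `D` -/
def conjD (D : Subgroup G) [D.Normal] (h : G) : Additive D →+ Additive D where
  toFun d := Additive.ofMul ⟨h * (Additive.toMul d : D) * h⁻¹,
    (inferInstance : D.Normal).conj_mem _ (Additive.toMul d : D).2 h⟩
  map_zero' := by
    apply Additive.toMul.injective
    apply Subtype.ext
    simp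
  map_add' := by
    intro x y
    apply Additive.toMul.injective
    apply Subtype.ext
    simp [mul_assoc]

theorem r1_conjD_apply (D : Subgroup G) [D.Normal] (h : G) (x : D) :
    conjD D h (Additive.ofMul x) = Additive.ofMul ⟨h * x * h⁻¹,
      (inferInstance : D.Normal).conj_mem _ x.2 h⟩ := rfl

/-- `(rep D h f)(d) = f (h⁻¹ d h)` -/
def rep (D : Subgroup G) [D.Normal] (F : Type*) [Field F] :
    G →* Module.End F (Additive D →+ F) where
  toFun h :=
    { toFun := fun f => f.comp (conjD D h⁻¹)
      map_add' := by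
        intro f g
        rfl
      map_smul' := by
        intro c f
        rfl }
  map_one' := by
    apply LinearMap.ext
    intro f
    apply AddMonoidHom.ext
    intro x
    change f (conjD D 1⁻¹ x) = f x
    congr 1
    apply Additive.toMul.injective
    apply Subtype.ext
    simp [conjD]
  map_mul' := by
    intro h k
    apply LinearMap.ext
    intro f
    apply AddMonoidHom.ext
    intro x
    change f (conjD D (h * k)⁻¹ x) = f (conjD D k⁻¹ (conjD D h⁻¹ x))
    congr 1
    apply Additive.toMul.injective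
    apply Subtype.ext
    simp [conjD, mul_assoc]

theorem rep_apply (D : Subgroup G) [D.Normal] (h : G) (f : Additive D →+ F) (d : G) (hd : d ∈ D)
    (hd' : h⁻¹ * d * h ∈ D) :
    rep D F h f (Additive.ofMul ⟨d, hd⟩) = f (Additive.ofMul ⟨h⁻¹ * d * h, hd'⟩) := by
  change f (conjD D h⁻¹ (Additive.ofMul ⟨d, hd⟩)) = _
  congr 1
  apply Additive.toMul.injective
  apply Subtype.ext
  simp [conjD]

open Classical in
/-- extension by zero -/
noncomputable def ext (D : Subgroup G) (f : Additive D →+ F) (g : G) : F :=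
  if h : g ∈ D then f (Additive.ofMul ⟨g, h⟩) else 0

theorem ext_of_mem (D : Subgroup G) (f : Additive D →+ F) (g : G) (h : g ∈ D) :
    ext D f g = f (Additive.ofMul ⟨g, h⟩) := by
  unfold ext
  rw [dif_pos h]

theorem ext_addOn (D : Subgroup G) (f : Additive D →+ F) : AddOn D (ext D f) := by
  intro x hx y hy
  rw [ext_of_mem D f x hx, ext_of_mem D f y hy, ext_of_mem D f _ (D.mul_mem hx hy), ← map_add]
  rfl

/-- restriction -/
def res (D : Subgroup G) (f : G → F) (hf : AddOn D f) : Additive D →+ F where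
  toFun d := f (Additive.toMul d : D)
  map_zero' := hf.one
  map_add' := fun x y => hf _ (Additive.toMul x : D).2 _ (Additive.toMul y : D).2

theorem res_apply (D : Subgroup G) (f : G → F) (hf : AddOn D f) (d : G) (hd : d ∈ D) :
    res D f hf (Additive.ofMul ⟨d, hd⟩) = f d := rfl

theorem ext_res (D : Subgroup G) (f : G → F) (hf : AddOn D f) (d : G) (hd : d ∈ D) :
    ext D (res D f hf) d = f d := by
  rw [ext_of_mem D _ d hd, res_apply]

/-- inner automorphisms act trivially -/
theorem rep_of_mem (D : Subgroup G) [D.Normal] (h : G) (hh : h ∈ D) : rep D F h = 1 := by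
  apply LinearMap.ext
  intro f
  apply AddMonoidHom.ext
  intro x
  obtain ⟨⟨d, hd⟩, rfl⟩ := Additive.ofMul.surjective x
  have hd' : h⁻¹ * d * h ∈ D := D.mul_mem (D.mul_mem (D.inv_mem hh) hd) hh
  rw [rep_apply D h f d hd hd']
  change _ = f (Additive.ofMul ⟨d, hd⟩)
  have e : (⟨h⁻¹ * d * h, hd'⟩ : D) = (⟨h, hh⟩ : D)⁻¹ * ⟨d, hd⟩ * ⟨h, hh⟩ := rfl
  rw [e, ofMul_mul, ofMul_mul, ofMul_inv, map_add, map_add, map_neg]
  ring

/-- PROOF. An eigenvector `e ≠ 0` of `rep D h⁻¹` gives `f = ext D e`; conversely `res`. -/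
theorem eig_iff (D : Subgroup G) [D.Normal] (h : G) (z : F) :
    (rep D F h⁻¹).HasEigenvalue z ↔ ∃ f : G → F, Eig D h f z := by
  have hconj : ∀ x ∈ D, h * x * h⁻¹ ∈ D := fun x hx =>
    (inferInstance : D.Normal).conj_mem _ hx h
  constructor
  · intro hz
    obtain ⟨e, he⟩ := hz.exists_hasEigenvector
    have h1 := he.apply_eq_smul
    have h2 := he.2
    refine ⟨ext D e, ext_addOn D e, ?_, ?_⟩
    · by_contra hcon
      push Not at hcon
      apply h2
      apply AddMonoidHom.ext
      intro x
      obtain ⟨⟨d, hd⟩, rfl⟩ := Additive.ofMul.surjective x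
      have := hcon d hd
      rw [ext_of_mem D e d hd] at this
      exact this
    · intro x hx
      rw [ext_of_mem D e x hx, ext_of_mem D e _ (hconj x hx)]
      have h3 := DFunLike.congr_fun h1 (Additive.ofMul ⟨x, hx⟩)
      have h4 : h⁻¹⁻¹ * x * h⁻¹ ∈ D := by rw [inv_inv]; exact hconj x hx
      rw [rep_apply D h⁻¹ e x hx h4] at h3
      have h5 : (⟨h⁻¹⁻¹ * x * h⁻¹, h4⟩ : D) = ⟨h * x * h⁻¹, hconj x hx⟩ := by
        apply Subtype.ext
        simp
      rw [h5] at h3
      exact h3
  · rintro ⟨f, hf, ⟨x, hx, hfx⟩, hc⟩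
    apply Module.End.hasEigenvalue_of_hasEigenvector (x := res D f hf)
    rw [Module.End.hasEigenvector_iff]
    refine ⟨?_, ?_⟩
    · rw [Module.End.mem_eigenspace_iff]
      apply AddMonoidHom.ext
      intro y
      obtain ⟨⟨d, hd⟩, rfl⟩ := Additive.ofMul.surjective y
      have h4 : h⁻¹⁻¹ * d * h⁻¹ ∈ D := by rw [inv_inv]; exact hconj d hd
      rw [rep_apply D h⁻¹ _ d hd h4]
      change f (h⁻¹⁻¹ * d * h⁻¹) = z * f d
      rw [inv_inv]
      exact hc d hd
    · intro h0
      apply hfx
      have := DFunLike.congr_fun h0 (Additive.ofMul ⟨x, hx⟩)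
      exact this

end AG
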