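import Pool.Agent.AG.Defs
import Pool.Agent.AG.G1

/-!
# [AG-S1] the first derived subgroup modulo which the group is not virtually nilpotent
-/

set_option autoImplicit false

namespace AG

/-- the derived series of a subgroup inside the group -/
def s1_D {G : Type*} [Group G] (K : Subgroup G) : ℕ → Subgroup G
  | 0 => K
  | i + 1 => ⁅s1_D K i, s1_D K i⁆

theorem s1_D_eq {G : Type*} [Group G] (K : Subgroup G) (i : ℕ) :
    s1_D K i = (derivedSeries K i).map K.subtype := by
  induction i with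
  | zero => rw [derivedSeries_zero, ← MonoidHom.range_eq_map, Subgroup.range_subtype]; rfl
  | succ i ih => rw [derivedSeries_succ, Subgroup.map_commutator, ← ih]; rfl

theorem s1_D_char {G : Type*} [Group G] (K : Subgroup G) (hK : K.Characteristic) (i : ℕ) :
    (s1_D K i).Characteristic := by
  induction i with
  | zero => exact hK
  | succ i ih =>
    have := ih
    show (⁅s1_D K i, s1_D K i⁆ : Subgroup G).Characteristic
    infer_instance

theorem s1_sup_char {G : Type*} [Group G] (A B : Subgroup G) (hA : A.Characteristic)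
    (hB : B.Characteristic) : (A ⊔ B).Characteristic := by
  rw [Subgroup.characteristic_iff_map_eq] at hA hB ⊢
  intro φ
  rw [Subgroup.map_sup, hA φ, hB φ]

/-- PROOF. `H₀` solvable of finite index; `exists_char`: a characteristic subgroup `K₀ ≤ H₀` of finite index, it is solvable. Let `D 0 = K₀`, `D (i+1) = ⁅D i, D i⁆`
(all characteristic; `D i` is the image of `derivedSeries K₀ i`, `Subgroup.map_commutator`), so `D l = ⊥` for some `l`. Let `P i` be the statement: there are a subgroup `K` of finite index and `c` with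
`K.lowerCentralSeries c ≤ D i`. `P 0` holds (`K = K₀`, `c = 0`); `P l` fails, since `K.lowerCentralSeries c = ⊥` means that `K` is nilpotent (`Subgroup.isNilpotent_of_lowerCentralSeries_eq_bot`). So there is
`i` with `P i` and not `P (i+1)`. Put `D = D i`. `K` from `P i`, `K₁ ≤ K` characteristic of finite index (`exists_char`, `Subgroup.lowerCentralSeries_mono`), `H = K₁ ⊔ D`: it is characteristic and of finite index, and
`H.lowerCentralSeries c ≤ K₁.lowerCentralSeries c ⊔ D ≤ D` (induction on `c`: `⁅A ⊔ D, K₁ ⊔ D⁆ ≤ ⁅A, K₁⁆ ⊔ D` for `D` normal and `A ≤ K₁`; or apply `Subgroup.map_lowerCentralSeries` to `G → G ⧸ D`). -/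
theorem chain (G : Type*) [Group G] [Group.FG G] (hs : VirtSolvable G)
    (hn : ¬ Group.IsVirtuallyNilpotent G) : ∃ D H : Subgroup G, D.Characteristic ∧
      H.Characteristic ∧ H.FiniteIndex ∧ D ≤ H ∧ (∃ c, H.lowerCentralSeries c ≤ D) ∧
      ∀ K : Subgroup G, K.FiniteIndex → ∀ c, ¬ K.lowerCentralSeries c ≤ ⁅D, D⁆ := by
  obtain ⟨H₀, hH₀, hsol⟩ := hs
  obtain ⟨K₀, hK₀, hchar, hfin⟩ := exists_char G H₀
  have hsolK : Group.IsSolvable K₀ :=
    Group.isSolvable_of_isSolvable_injective (Subgroup.inclusion_injective hK₀)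
  obtain ⟨l, hl⟩ := (Group.isSolvable_def K₀).1 hsolK
  have hDl : s1_D K₀ l = ⊥ := by rw [s1_D_eq, hl, Subgroup.map_bot]
  let P : ℕ → Prop := fun i => ∃ K : Subgroup G, K.FiniteIndex ∧ ∃ c, K.lowerCentralSeries c ≤ s1_D K₀ i
  have hP0 : P 0 := ⟨K₀, hfin, 0, le_refl _⟩
  have hPl : ¬ P l := by
    rintro ⟨K, hK, c, hc⟩
    rw [hDl, le_bot_iff] at hc
    exact hn ⟨K, Subgroup.isNilpotent_of_lowerCentralSeries_eq_bot hc, hK⟩
  obtain ⟨i, hi, hi1⟩ : ∃ i, P i ∧ ¬ P (i + 1) := by
    by_contra hcon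
    push Not at hcon
    have hall : ∀ i, P i := by
      intro i
      induction i with
      | zero => exact hP0
      | succ i ih => exact hcon i ih
    exact hPl (hall l)
  obtain ⟨K, hK, c, hc⟩ := hi
  obtain ⟨K₁, hK₁, hK₁c, hK₁f⟩ := exists_char G K
  have hDc : (s1_D K₀ i).Characteristic := s1_D_char K₀ hchar i
  refine ⟨s1_D K₀ i, K₁ ⊔ s1_D K₀ i, hDc, s1_sup_char _ _ hK₁c hDc,
    Subgroup.finiteIndex_of_le le_sup_left, le_sup_right, ⟨c, ?_⟩, ?_⟩
  · have h1 : ((K₁ ⊔ s1_D K₀ i).lowerCentralSeries c).map (QuotientGroup.mk' (s1_D K₀ i)) = ⊥ := by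
      rw [Subgroup.map_lowerCentralSeries, Subgroup.map_sup]
      have h2 : (s1_D K₀ i).map (QuotientGroup.mk' (s1_D K₀ i)) = ⊥ := by
        rw [Subgroup.map_eq_bot_iff, QuotientGroup.ker_mk']
      rw [h2, sup_bot_eq, ← Subgroup.map_lowerCentralSeries, Subgroup.map_eq_bot_iff,
        QuotientGroup.ker_mk']
      exact (Subgroup.lowerCentralSeries_mono c hK₁).trans hc
    rwa [Subgroup.map_eq_bot_iff, QuotientGroup.ker_mk'] at h1
  · intro K' hK' c' hle
    exact hi1 ⟨K', hK', c', hle⟩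

end AG
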