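import Pool.Agent.AG.W4
import Pool.Agent.AG.G7

/-!
# [AG-W3] representations with nilpotent image
-/

set_option autoImplicit false

namespace AG

variable {H : Type*} [Group H] {F E : Type*} [Field F] [AddCommGroup E] [Module F E]

/-- PROOF. `N = H ⧸ ρ.ker` is finitely generated and nilpotent (`Subgroup.map_lowerCentralSeries`, `Subgroup.nilpotent_iff_lowerCentralSeries`:
the image of `⊤.lowerCentralSeries c ≤ ρ.ker` in `N` is trivial), so all its subgroups are finitely generated (`fg_of_nilpotent`); apply `exists_eig` to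
`QuotientGroup.kerLift ρ` (or `QuotientGroup.lift`). -/
theorem exists_eig' [Group.FG H] [IsAlgClosed F] [FiniteDimensional F E] (ρ : H →* Module.End F E)
    (c : ℕ) (hc : (⊤ : Subgroup H).lowerCentralSeries c ≤ ρ.ker)
    (neat : ∀ (n : H) (z : F) (k : ℕ), 0 < k → z ^ k = 1 → (ρ n).HasEigenvalue z → z = 1)
    (h : H) (lam : F) (hl : (ρ h).HasEigenvalue lam) :
    ∃ f : E, f ≠ 0 ∧ (∀ n, ∃ z : F, ρ n f = z • f) ∧ ρ h f = lam • f := by
  have hρ' : ∀ x : H, QuotientGroup.lift ρ.ker ρ le_rfl (x : H ⧸ ρ.ker) = ρ x :=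
    fun x => QuotientGroup.lift_mk ρ.ker _ x
  have hnil : Group.IsNilpotent (H ⧸ ρ.ker) := by
    rw [Subgroup.nilpotent_iff_lowerCentralSeries]
    refine ⟨c, ?_⟩
    rw [eq_bot_iff]
    have h1 := Subgroup.map_lowerCentralSeries (⊤ : Subgroup H) (QuotientGroup.mk' ρ.ker) c
    rw [Subgroup.map_top_of_surjective _ (QuotientGroup.mk'_surjective _)] at h1
    rw [← h1]
    rintro _ ⟨x, hx, rfl⟩
    rw [Subgroup.mem_bot]
    exact (QuotientGroup.eq_one_iff x).2 (hc hx)
  have hfg : Group.FG (H ⧸ ρ.ker) := inferInstance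
  obtain ⟨f, hf, h1, h2⟩ := exists_eig (N := H ⧸ ρ.ker) (fun K => fg_of_nilpotent K)
    (QuotientGroup.lift ρ.ker ρ le_rfl)
    (by
      intro n z k hk hz hev
      obtain ⟨x, rfl⟩ := QuotientGroup.mk_surjective n
      rw [hρ' x] at hev
      exact neat x z k hk hz hev)
    (h : H ⧸ ρ.ker) lam (by rw [hρ' h]; exact hl)
  refine ⟨f, hf, ?_, ?_⟩
  · intro n
    obtain ⟨z, hz⟩ := h1 (n : H ⧸ ρ.ker)
    rw [hρ' n] at hz
    exact ⟨z, hz⟩
  · rw [hρ' h] at h2
    exact h2

/-- `Fix 0 = 0`, `Fix (j+1) = {f | ρ h f - f ∈ Fix j for all h}` -/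
def Fix (ρ : H →* Module.End F E) : ℕ → Submodule F E
  | 0 => ⊥
  | j + 1 => ⨅ h : H, (Fix ρ j).comap (ρ h - 1)

theorem w3_mem_succ (ρ : H →* Module.End F E) (j : ℕ) (f : E) :
    f ∈ Fix ρ (j + 1) ↔ ∀ h : H, ρ h f - f ∈ Fix ρ j := by
  simp only [Fix, Submodule.mem_iInf, Submodule.mem_comap, LinearMap.sub_apply,
    Module.End.one_apply]

theorem w3_stable (ρ : H →* Module.End F E) (j : ℕ) : ∀ h : H, ∀ f ∈ Fix ρ j,
    ρ h f ∈ Fix ρ j := by
  induction j with
  | zero =>
    intro h f hf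
    have hf' : f = 0 := by simpa only [Fix, Submodule.mem_bot] using hf
    rw [hf', map_zero]
    exact Submodule.zero_mem _
  | succ j ih =>
    intro g f hf
    rw [w3_mem_succ] at hf ⊢
    intro h
    have h1 := ih g _ (hf (g⁻¹ * h * g))
    have h2 : ρ h (ρ g f) - ρ g f = ρ g (ρ (g⁻¹ * h * g) f - f) := by
      rw [map_sub, ← Module.End.mul_apply, ← Module.End.mul_apply, ← map_mul, ← map_mul]
      congr 3
      group
    rw [h2]
    exact h1

theorem w3_mono (ρ : H →* Module.End F E) (j : ℕ) : Fix ρ j ≤ Fix ρ (j + 1) := by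
  intro f hf
  rw [w3_mem_succ]
  intro h
  exact Submodule.sub_mem _ (w3_stable ρ j h f hf) hf

/-- the quotient representation -/
def w3_quot (ρ : H →* Module.End F E) (S : Submodule F E) (hS : ∀ h : H, ∀ f ∈ S, ρ h f ∈ S) :
    H →* Module.End F (E ⧸ S) where
  toFun h := S.mapQ S (ρ h) (fun f hf => hS h f hf)
  map_one' := by
    apply LinearMap.ext
    intro x
    obtain ⟨x, rfl⟩ := Submodule.mkQ_surjective S x
    simp
  map_mul' g h := by
    apply LinearMap.ext
    intro x
    obtain ⟨x, rfl⟩ := Submodule.mkQ_surjective S x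
    simp

theorem w3_quot_mk (ρ : H →* Module.End F E) (S : Submodule F E)
    (hS : ∀ h : H, ∀ f ∈ S, ρ h f ∈ S) (h : H) (f : E) :
    w3_quot ρ S hS h (S.mkQ f) = S.mkQ (ρ h f) := by
  simp [w3_quot]

theorem w3_eig (ρ : H →* Module.End F E) (S : Submodule F E)
    (hS : ∀ h : H, ∀ f ∈ S, ρ h f ∈ S) (h : H) (hu : IsNilpotent (ρ h - 1)) (z : F) (f : E)
    (hf : S.mkQ f ≠ 0) (hz : w3_quot ρ S hS h (S.mkQ f) = z • S.mkQ f) : z = 1 := by
  obtain ⟨m, hm⟩ := hu
  have key : ∀ m : ℕ, S.mkQ (((ρ h - 1) ^ m) f) = (z - 1) ^ m • S.mkQ f := by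
    intro m
    induction m with
    | zero => simp
    | succ m ih =>
      have h1 : ∀ g : E, S.mkQ ((ρ h - 1) g) = w3_quot ρ S hS h (S.mkQ g) - S.mkQ g := by
        intro g
        rw [w3_quot_mk, LinearMap.sub_apply, Module.End.one_apply, map_sub]
      rw [pow_succ', Module.End.mul_apply, h1, ih, map_smul, hz, pow_succ, mul_smul, sub_smul,
        one_smul, smul_sub]
  have h2 := key m
  rw [hm, LinearMap.zero_apply, map_zero] at h2
  have h3 : (z - 1) ^ m = 0 := by
    rcases smul_eq_zero.1 h2.symm with h4 | h4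
    · exact h4
    · exact absurd h4 hf
  have h5 : z - 1 = 0 := by
    by_contra h6
    exact (pow_ne_zero m h6) h3
  exact sub_eq_zero.1 h5

/-- **Unipotent representations.**

PROOF. `Fix ρ j ≤ Fix ρ (j+1)`, and all are stable under all `ρ h`. If `Fix ρ j ≠ ⊤`, then `Fix ρ j < Fix ρ (j+1)`: the representation `ρ'` on `E' = E ⧸ Fix ρ j ≠ 0`
(`Submodule.mapQ`) satisfies the hypotheses of `exists_eig'`: `ρ' h - 1` is nilpotent, so the only eigenvalue of `ρ' h` is `1`. With `h = 1`, `lam = 1` we get `f' ≠ 0` in `E'` with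
`ρ' n f' = z • f'` for all `n`, and `z = 1`. A representative of `f'` is in `Fix ρ (j+1)` and not in `Fix ρ j`. The dimension is finite. -/
theorem exists_fix_top [Group.FG H] [IsAlgClosed F] [FiniteDimensional F E]
    (ρ : H →* Module.End F E) (c : ℕ) (hc : (⊤ : Subgroup H).lowerCentralSeries c ≤ ρ.ker)
    (hu : ∀ h : H, IsNilpotent (ρ h - 1)) : ∃ k : ℕ, Fix ρ k = ⊤ := by
  have hstep : ∀ j : ℕ, Fix ρ j ≠ ⊤ → Fix ρ j < Fix ρ (j + 1) := by
    intro j hj
    obtain ⟨x, hx⟩ : ∃ x : E, x ∉ Fix ρ j := by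
      by_contra hcon
      push Not at hcon
      exact hj (eq_top_iff.2 (fun y _ => hcon y))
    have hS := w3_stable ρ j
    have hxq : (Fix ρ j).mkQ x ≠ 0 := by
      rw [Submodule.mkQ_apply, ne_eq, Submodule.Quotient.mk_eq_zero]
      exact hx
    obtain ⟨f', hf', h1, -⟩ := exists_eig' (w3_quot ρ (Fix ρ j) hS) c
      (by
        intro y hy
        have hy1 : ρ y = 1 := hc hy
        show w3_quot ρ (Fix ρ j) hS y = 1
        apply LinearMap.ext
        intro u
        obtain ⟨u, rfl⟩ := Submodule.mkQ_surjective _ u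
        rw [w3_quot_mk, hy1, Module.End.one_apply, Module.End.one_apply])
      (by
        intro n z k _ _ hev
        obtain ⟨u, hu1⟩ := hev.exists_hasEigenvector
        obtain ⟨u, rfl⟩ := Submodule.mkQ_surjective _ u
        exact w3_eig ρ _ hS n (hu n) z u hu1.2 hu1.apply_eq_smul)
      1 1
      (by
        apply Module.End.hasEigenvalue_of_hasEigenvector (x := (Fix ρ j).mkQ x)
        refine ⟨?_, hxq⟩
        rw [Module.End.mem_eigenspace_iff, map_one, Module.End.one_apply, one_smul])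
    obtain ⟨f, rfl⟩ := Submodule.mkQ_surjective _ f'
    refine lt_of_le_of_ne (w3_mono ρ j) ?_
    intro heq
    have hfm : f ∈ Fix ρ (j + 1) := by
      rw [w3_mem_succ]
      intro h
      obtain ⟨z, hz⟩ := h1 h
      have hz1 := w3_eig ρ _ hS h (hu h) z f hf' hz
      rw [hz1, one_smul, w3_quot_mk, ← sub_eq_zero, ← map_sub, Submodule.mkQ_apply,
        Submodule.Quotient.mk_eq_zero] at hz
      exact hz
    rw [← heq] at hfm
    apply hf'
    rw [Submodule.mkQ_apply, Submodule.Quotient.mk_eq_zero]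
    exact hfm
  have hdim : ∀ j : ℕ, Fix ρ j = ⊤ ∨ j ≤ Module.finrank F (Fix ρ j) := by
    intro j
    induction j with
    | zero => exact Or.inr (Nat.zero_le _)
    | succ j ih =>
      by_cases hj : Fix ρ j = ⊤
      · left
        exact eq_top_iff.2 (hj ▸ w3_mono ρ j)
      · right
        have h2 := ih.resolve_left hj
        have h3 := Submodule.finrank_lt_finrank_of_lt (hstep j hj)
        omega
  refine ⟨Module.finrank F E + 1, ?_⟩
  rcases hdim (Module.finrank F E + 1) with h4 | h4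
  · exact h4
  · have h5 := Submodule.finrank_le (Fix ρ (Module.finrank F E + 1))
    omega

end AG
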