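import Pool.Agent.AG.R1
import Pool.Agent.AG.W3
import Pool.Agent.AG.G2
import Pool.Agent.AG.G5
import Pool.Agent.AG.G6

/-!
# [AG-S4] the unipotent case
-/

set_option autoImplicit false

namespace AG

variable {G : Type*} [Group G]

/-- `D, ⁅D, H⁆, ⁅⁅D, H⁆, H⁆, ...` -/
def MM (D H : Subgroup G) : ℕ → Subgroup G
  | 0 => D
  | j + 1 => ⁅MM D H j, H⁆

lemma s4_MM_le (D H : Subgroup G) [D.Normal] (j : ℕ) : MM D H j ≤ D := by
  induction j with
  | zero => exact le_refl _
  | succ j ih =>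
    refine (Subgroup.commutator_mono ih (le_refl H)).trans ?_
    exact Subgroup.commutator_le_left D H

/-- the kernel in `G` of an additive function on `D` -/
def s4_ker (D : Subgroup G) {F : Type*} [Field F] (f : Additive D →+ F) : Subgroup G where
  carrier := {d | ∃ hd : d ∈ D, f (Additive.ofMul ⟨d, hd⟩) = 0}
  one_mem' := ⟨D.one_mem, f.map_zero⟩
  mul_mem' := by
    rintro a b ⟨ha, ha'⟩ ⟨hb, hb'⟩
    refine ⟨D.mul_mem ha hb, ?_⟩
    have h : (Additive.ofMul ⟨a * b, D.mul_mem ha hb⟩ : Additive D) =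
        Additive.ofMul ⟨a, ha⟩ + Additive.ofMul ⟨b, hb⟩ := rfl
    rw [h, map_add, ha', hb', add_zero]
  inv_mem' := by
    rintro a ⟨ha, ha'⟩
    refine ⟨D.inv_mem ha, ?_⟩
    have h : (Additive.ofMul ⟨a⁻¹, D.inv_mem ha⟩ : Additive D) = -Additive.ofMul ⟨a, ha⟩ := rfl
    rw [h, map_neg, ha', neg_zero]

/-- an endomorphism whose only eigenvalue is `1` is unipotent -/
lemma s4_unip {F E : Type*} [Field F] [IsAlgClosed F] [AddCommGroup E] [Module F E]
    [FiniteDimensional F E] (u : Module.End F E) (hu : ∀ z : F, u.HasEigenvalue z → z = 1) :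
    IsNilpotent (u - 1) := by
  have h1 : u.maxGenEigenspace 1 = ⊤ := by
    rw [eq_top_iff, ← Module.End.iSup_maxGenEigenspace_eq_top u]
    apply iSup_le
    intro z
    by_cases hz : z = 1
    · rw [hz]
    · have h2 : u.maxGenEigenspace z = ⊥ := by
        by_contra hcon
        have h3 : u.HasUnifEigenvalue z ⊤ := hcon
        exact hz (hu z (h3.lt zero_lt_one))
      rw [h2]
      exact bot_le
  rw [Module.End.maxGenEigenspace_eq_genEigenspace_finrank] at h1
  refine ⟨Module.finrank F E, ?_⟩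
  apply LinearMap.ext
  intro x
  have h2 : x ∈ u.genEigenspace 1 (Module.finrank F E) := by rw [h1]; trivial
  rw [Module.End.mem_genEigenspace_nat, LinearMap.mem_ker, one_smul] at h2
  exact h2

/-- PROOF. `ρ = (rep D QB).comp H.subtype`; its kernel contains the `c`-th term of the lower central series of `H` (`rep_of_mem`, `Subgroup.top_subtype_lowerCentralSeries`). All the eigenvalues of `ρ h` are `1` by `eig_iff` and `hu`
(for `h⁻¹`), so `ρ h - 1` is nilpotent (algebraically closed field: for instance the minimal polynomial / `Module.End` generalized eigenspaces `iSup_maxGenEigenspace_eq_top`). `exists_fix_top`: `Fix ρ k = ⊤`.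
By induction on `j`: every `f ∈ Fix ρ j` vanishes on `MM D H j`: for `x ∈ MM D H j` and `h ∈ H`: `f ⁅x, h⁆ = f x - f (h x h⁻¹) = - (ρ h⁻¹ f - f) x = 0` since `ρ h⁻¹ f - f ∈ Fix ρ j`.
So every `f` vanishes on `MM D H k` (`res`), i.e. `MM D H k ≤ tor D`. -/
theorem mm_le_tor [Group.FG G] {r : ℕ} (hG : RankLe G r) (D H : Subgroup G) [D.Normal]
    [H.FiniteIndex] (hDH : D ≤ H) (c : ℕ) (hc : H.lowerCentralSeries c ≤ D)
    (hu : ∀ h ∈ H, ∀ (f : G → QB) (z : QB), Eig D h f z → z = 1) : ∃ k, MM D H k ≤ tor D := by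
  have : FiniteDimensional QB (Additive D →+ QB) := finiteDimensional_of_rank hG D QB
  let ρ : H →* Module.End QB (Additive D →+ QB) := (rep D QB).comp H.subtype
  have hρ : ∀ h : H, ρ h = rep D QB (h : G) := fun h => rfl
  have hc' : (⊤ : Subgroup H).lowerCentralSeries c ≤ ρ.ker := by
    intro x hx
    rw [MonoidHom.mem_ker, hρ]
    apply rep_of_mem
    apply hc
    rw [← Subgroup.top_subtype_lowerCentralSeries]
    exact ⟨x, hx, rfl⟩
  have hu' : ∀ h : H, IsNilpotent (ρ h - 1) := by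
    intro h
    apply s4_unip
    intro z hz
    rw [hρ] at hz
    have h1 : (rep D QB ((h : G)⁻¹)⁻¹).HasEigenvalue z := by rw [inv_inv]; exact hz
    obtain ⟨f, hf⟩ := (eig_iff D (h : G)⁻¹ z).mp h1
    exact hu _ (H.inv_mem h.2) f z hf
  obtain ⟨k, hk⟩ := exists_fix_top ρ c hc' hu'
  refine ⟨k, ?_⟩
  have key : ∀ j : ℕ, ∀ f ∈ Fix ρ j, MM D H j ≤ s4_ker D f := by
    intro j
    induction j with
    | zero =>
      intro f hf x hx
      have h1 : f = 0 := by
        have : f ∈ (⊥ : Submodule QB (Additive D →+ QB)) := hf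
        rwa [Submodule.mem_bot] at this
      refine ⟨hx, ?_⟩
      rw [h1]; rfl
    | succ j ih =>
      intro f hf
      have hf' : ∀ h : H, (ρ h - 1) f ∈ Fix ρ j := by
        have h1 : f ∈ ⨅ h : H, (Fix ρ j).comap (ρ h - 1) := hf
        rw [Submodule.mem_iInf] at h1
        exact fun h => h1 h
      show ⁅MM D H j, H⁆ ≤ s4_ker D f
      rw [Subgroup.commutator_le]
      intro x hx h hh
      have hxD : x ∈ D := s4_MM_le D H j hx
      have hcD : h * x * h⁻¹ ∈ D := (inferInstance : D.Normal).conj_mem _ hxD h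
      obtain ⟨hx1, hx2⟩ := ih _ (hf' ⟨h⁻¹, H.inv_mem hh⟩) hx
      have hcD' : (h⁻¹)⁻¹ * x * h⁻¹ ∈ D := by rw [inv_inv]; exact hcD
      have h2 : f (Additive.ofMul ⟨(h⁻¹)⁻¹ * x * h⁻¹, hcD'⟩) = f (Additive.ofMul ⟨x, hxD⟩) := by
        rw [← rep_apply D h⁻¹ f x hxD hcD']
        have h3 : ((ρ ⟨h⁻¹, H.inv_mem hh⟩ - 1) f) (Additive.ofMul ⟨x, hxD⟩) =
            (rep D QB h⁻¹ f) (Additive.ofMul ⟨x, hxD⟩) - f (Additive.ofMul ⟨x, hxD⟩) := rfl
        rw [h3] at hx2
        exact sub_eq_zero.mp hx2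
      have h4 : (Additive.ofMul ⟨(h⁻¹)⁻¹ * x * h⁻¹, hcD'⟩ : Additive D) =
          Additive.ofMul ⟨h * x * h⁻¹, hcD⟩ := by
        congr 2
        rw [inv_inv]
      rw [h4] at h2
      rw [commutatorElement_def]
      have hmem : x * h * x⁻¹ * h⁻¹ ∈ D := by
        have : x * h * x⁻¹ * h⁻¹ = x * (h * x * h⁻¹)⁻¹ := by group
        rw [this]
        exact D.mul_mem hxD (D.inv_mem hcD)
      refine ⟨hmem, ?_⟩
      have h5 : (Additive.ofMul ⟨x * h * x⁻¹ * h⁻¹, hmem⟩ : Additive D) =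
          Additive.ofMul ⟨x, hxD⟩ + -Additive.ofMul ⟨h * x * h⁻¹, hcD⟩ := by
        apply congrArg Additive.ofMul
        apply Subtype.ext
        show x * h * x⁻¹ * h⁻¹ = x * (h * x * h⁻¹)⁻¹
        group
      rw [h5, map_add, map_neg, h2, add_neg_cancel]
  intro x hx
  refine ⟨s4_MM_le D H k hx, ?_⟩
  intro f hf
  obtain ⟨hxD, h1⟩ := key k (res D f hf) (by rw [hk]; trivial) hx
  rw [res_apply] at h1
  exact h1

end AG
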