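import Pool.Agent.AG.B1

/-!
# [AG-V1] polynomial distortion of the powers of an element of a nilpotent group
-/

set_option autoImplicit false

namespace AG

open scoped commutatorElement

variable {G : Type*} [Group G]

/-- iterated commutators with `g` -/
def v1_m (g : G) (t : G) : ℕ → G
  | 0 => t
  | j + 1 => (v1_m g t j)⁻¹ * (g⁻¹ * v1_m g t j * g)

theorem v1_mem (T : Finset G) (g : G)
    (hg : ∀ x ∈ Subgroup.closure (T : Set G), g⁻¹ * x * g ∈ Subgroup.closure (T : Set G))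
    {t : G} (ht : t ∈ T) : ∀ j : ℕ, v1_m g t j ∈ Subgroup.closure (T : Set G)
  | 0 => Subgroup.subset_closure ht
  | j + 1 => by
    have h := v1_mem T g hg ht j
    exact mul_mem (inv_mem h) (hg _ h)

theorem v1_lcs (g t : G) : ∀ j : ℕ, v1_m g t j ∈ (⊤ : Subgroup G).lowerCentralSeries j
  | 0 => Subgroup.mem_top _
  | j + 1 => by
    have h := v1_lcs g t j
    have e : v1_m g t (j + 1) = ⁅(v1_m g t j)⁻¹, g⁻¹⁆ := by
      show (v1_m g t j)⁻¹ * (g⁻¹ * v1_m g t j * g) = _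
      rw [commutatorElement_def]
      group
    rw [e, Subgroup.lowerCentralSeries_succ]
    exact Subgroup.commutator_mem_commutator (inv_mem h) (Subgroup.mem_top _)

theorem v1_claim (T : Finset G) (g t : G) (c k : ℕ) (hc : v1_m g t c = 1)
    (hk : ∀ j ≤ c, v1_m g t j ∈ ball T k) (s : ℕ) :
    ∀ i j : ℕ, i + j = c → (g ^ s)⁻¹ * v1_m g t j * g ^ s ∈ ball T (k * (s + 1) ^ i) := by
  induction s with
  | zero =>
    intro i j hij
    simpa using hk j (by omega)
  | succ s ih =>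
    intro i j hij
    rcases Nat.eq_zero_or_pos i with hi | hi
    · subst hi
      have hj : j = c := by omega
      rw [hj, hc]
      have : (g ^ (s + 1))⁻¹ * 1 * g ^ (s + 1) = (1 : G) := by group
      rw [this]
      exact one_mem_ball _ _
    · obtain ⟨i', rfl⟩ : ∃ i', i = i' + 1 := ⟨i - 1, by omega⟩
      have h1 := ih (i' + 1) j hij
      have h2 := ih i' (j + 1) (by omega)
      have e : (g ^ (s + 1))⁻¹ * v1_m g t j * g ^ (s + 1)
          = ((g ^ s)⁻¹ * v1_m g t j * g ^ s) * ((g ^ s)⁻¹ * v1_m g t (j + 1) * g ^ s) := by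
        have e1 : v1_m g t (j + 1) = (v1_m g t j)⁻¹ * (g⁻¹ * v1_m g t j * g) := rfl
        have e2 : g * g ^ s = g ^ s * g := (pow_succ' g s).symm.trans (pow_succ g s)
        rw [e1, pow_succ' g s]
        group
      rw [e]
      refine ball_mono T ?_ (mul_mem_ball h1 h2)
      have e3 : k * (s + 1) ^ (i' + 1) + k * (s + 1) ^ i' = k * ((s + 1) ^ i' * (s + 1 + 1)) := by
        ring
      rw [e3]
      refine Nat.mul_le_mul_left k ?_
      rw [pow_succ]
      exact Nat.mul_le_mul_right _ (Nat.pow_le_pow_left (by omega) _)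

/-- PROOF. Let `⊤.lowerCentralSeries c = ⊥` (`c ≥ 1`), `τ x = g⁻¹ x g`. For `t ∈ T` define `m 0 = t`, `m (j+1) = (m j)⁻¹ * τ (m j)`. Then `m j ∈ closure T` and
`m j ∈ ⊤.lowerCentralSeries j` (`m (j+1) = ⁅(m j)⁻¹, g⁻¹⁆`), so `m c = 1`. Let `k` be such that `m j ∈ ball T k` for all `j ≤ c` and all `t ∈ T`
(`exists_ball_subset`, a finite set). Claim: `(g ^ s)⁻¹ * m j * g ^ s ∈ ball T (k * (s + 1) ^ (c - j))` for all `s` and `j ≤ c`
(for `j = c` it is `1`). Induction on `s`; `s = 0` is clear. Step: `τ (m j) = m j * m (j+1)`, so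
`(g^(s+1))⁻¹ * m j * g^(s+1) = (g^s)⁻¹ * τ (m j) * g^s = ((g^s)⁻¹ * m j * g^s) * ((g^s)⁻¹ * m (j+1) * g^s)`, and for `j < c`
`k (s+1)^(c-j) + k (s+1)^(c-j-1) = k (s+1)^(c-j-1) (s+2) ≤ k (s+2)^(c-j)`. -/
theorem distortion [Group.IsNilpotent G] (T : Finset G) (g : G)
    (hg : ∀ x ∈ Subgroup.closure (T : Set G), g⁻¹ * x * g ∈ Subgroup.closure (T : Set G)) :
    ∃ k d : ℕ, ∀ t ∈ T, ∀ s : ℕ, (g ^ s)⁻¹ * t * g ^ s ∈ ball T (k * (s + 1) ^ d) := by
  classical
  obtain ⟨c, hc⟩ := Subgroup.nilpotent_iff_lowerCentralSeries.1 (inferInstance : Group.IsNilpotent G)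
  obtain ⟨k, hk⟩ := exists_ball_subset T
    (T.biUnion (fun t => (Finset.range (c + 1)).image (fun j => v1_m g t j))) (by
      intro x hx
      simp only [Finset.mem_biUnion, Finset.mem_image] at hx
      obtain ⟨t, ht, j, _, rfl⟩ := hx
      exact v1_mem T g hg ht j)
  refine ⟨k, c, ?_⟩
  intro t ht s
  have h1 : v1_m g t c = 1 := by
    have := v1_lcs g t c
    rw [hc] at this
    exact Subgroup.mem_bot.1 this
  have h2 : ∀ j ≤ c, v1_m g t j ∈ ball T k := by
    intro j hj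
    refine hk _ ?_
    simp only [Finset.mem_biUnion, Finset.mem_image]
    exact ⟨t, ht, j, Finset.mem_range.2 (by omega), rfl⟩
  exact v1_claim T g t c k h1 h2 s c 0 (by omega)

end AG
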