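import Pool.Agent.AG.B1

/-!
# [AG-V2] adding a generator
-/

set_option autoImplicit false

namespace AG

variable {G : Type*} [Group G]

theorem v2_conj {T : Finset G} {g : G} {k₁ d₁ k₂ d₂ : ℕ}
    (h1 : ∀ t ∈ T, ∀ s : ℕ, (g ^ s)⁻¹ * t * g ^ s ∈ ball T (k₁ * (s + 1) ^ d₁))
    (h2 : ∀ t ∈ T, ∀ s : ℕ, (g⁻¹ ^ s)⁻¹ * t * g⁻¹ ^ s ∈ ball T (k₂ * (s + 1) ^ d₂))
    (n : ℕ) (e : ℤ) (he : e.natAbs ≤ n) {t : G} (ht : t ∈ T ∨ t⁻¹ ∈ T) :
    (g ^ e)⁻¹ * t * g ^ e ∈ ball T ((k₁ + k₂) * (n + 1) ^ (d₁ + d₂)) := by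
  have key : ∀ t ∈ T, (g ^ e)⁻¹ * t * g ^ e ∈ ball T ((k₁ + k₂) * (n + 1) ^ (d₁ + d₂)) := by
    intro t ht
    rcases Int.natAbs_eq e with h | h
    · rw [h, zpow_natCast]
      refine ball_mono T ?_ (h1 t ht _)
      apply Nat.mul_le_mul (Nat.le_add_right _ _)
      exact (Nat.pow_le_pow_left (Nat.add_le_add_right he 1) d₁).trans
        (Nat.pow_le_pow_right (Nat.succ_pos n) (Nat.le_add_right _ _))
    · rw [h, zpow_neg, zpow_natCast, ← inv_pow]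
      refine ball_mono T ?_ (h2 t ht _)
      apply Nat.mul_le_mul (Nat.le_add_left _ _)
      exact (Nat.pow_le_pow_left (Nat.add_le_add_right he 1) d₂).trans
        (Nat.pow_le_pow_right (Nat.succ_pos n) (Nat.le_add_left _ _))
  rcases ht with ht | ht
  · exact key t ht
  · have h3 := inv_mem_ball (key _ ht)
    have h4 : ((g ^ e)⁻¹ * t⁻¹ * g ^ e)⁻¹ = (g ^ e)⁻¹ * t * g ^ e := by group
    rwa [h4] at h3

theorem v2_list [DecidableEq G] {T : Finset G} {g : G} {k₁ d₁ k₂ d₂ : ℕ}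
    (h1 : ∀ t ∈ T, ∀ s : ℕ, (g ^ s)⁻¹ * t * g ^ s ∈ ball T (k₁ * (s + 1) ^ d₁))
    (h2 : ∀ t ∈ T, ∀ s : ℕ, (g⁻¹ ^ s)⁻¹ * t * g⁻¹ ^ s ∈ ball T (k₂ * (s + 1) ^ d₂))
    (n : ℕ) : ∀ l : List G, l.length ≤ n → (∀ x ∈ l, x ∈ insert g T ∨ x⁻¹ ∈ insert g T) →
      ∃ (e : ℤ) (v : G), e.natAbs ≤ l.length ∧
        v ∈ ball T (l.length * ((k₁ + k₂) * (n + 1) ^ (d₁ + d₂))) ∧ l.prod = g ^ e * v := by
  intro l
  induction l with
  | nil =>
    intro _ _
    exact ⟨0, 1, by simp, one_mem_ball _ _, by simp⟩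
  | cons x l ih =>
    intro hl hx
    rw [List.length_cons] at hl
    obtain ⟨e, v, he, hv, hp⟩ := ih (by omega) (fun y hy => hx y (List.mem_cons_of_mem x hy))
    have hx' := hx x List.mem_cons_self
    have hmono : v ∈ ball T ((x :: l).length * ((k₁ + k₂) * (n + 1) ^ (d₁ + d₂))) := by
      refine ball_mono T ?_ hv
      rw [List.length_cons]
      exact Nat.mul_le_mul_right _ (Nat.le_succ _)
    rw [List.prod_cons, hp]
    by_cases hg1 : x = g
    · subst hg1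
      refine ⟨e + 1, v, ?_, hmono, ?_⟩
      · rw [List.length_cons]; omega
      · rw [← mul_assoc, add_comm, zpow_add, zpow_one]
    by_cases hg2 : x⁻¹ = g
    · have hx2 : x = g⁻¹ := by rw [← hg2, inv_inv]
      subst hx2
      refine ⟨e - 1, v, ?_, hmono, ?_⟩
      · rw [List.length_cons]; omega
      · rw [← mul_assoc, sub_eq_add_neg, add_comm e, zpow_add, zpow_neg, zpow_one]
    have hxT : x ∈ T ∨ x⁻¹ ∈ T := by
      rcases hx' with h | h
      · exact Or.inl ((Finset.mem_insert.1 h).resolve_left hg1)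
      · exact Or.inr ((Finset.mem_insert.1 h).resolve_left hg2)
    have h3 := v2_conj h1 h2 n e (by omega) hxT
    refine ⟨e, ((g ^ e)⁻¹ * x * g ^ e) * v, ?_, ?_, ?_⟩
    · rw [List.length_cons]; omega
    · have h4 := mul_mem_ball h3 hv
      rw [List.length_cons, Nat.succ_mul, add_comm]
      exact h4
    · group

/-- PROOF. `distortion` is given for `g` and for `g⁻¹` (the hypotheses `h1`, `h2`): with `k = k₁ + k₂`, `d = d₁ + d₂`: for every integer `e`: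
`(g ^ e)⁻¹ * t * g ^ e ∈ ball T (k * (|e| + 1) ^ d)`, and the same for `t⁻¹` (`inv_mem_ball`). Induction on the length of the list: every product of a list of length `l ≤ n` of letters of `insert g T` and their
inverses is of the form `g ^ e * v` with `|e| ≤ l` and `v ∈ ball T (l * (k * (n + 1) ^ d))`: multiplying on the left by `g^±1` changes `e`; multiplying
by `t^±1`: `t * (g ^ e * v) = g ^ e * (((g ^ e)⁻¹ * t * g ^ e) * v)`. So `(ball (insert g T) n).ncard ≤ (2 n + 1) * (ball T (n * (k * (n + 1) ^ d))).ncard`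
(image of a product of finite sets, `ball_finite`), which is polynomially bounded: `n * (k * (n+1)^d) + 1 ≤ (k + 1) * (n + 1)^(d+1)`. -/
theorem polyG_insert [DecidableEq G] (T : Finset G) (g : G) (hT : PolyG T)
    (h1 : ∃ k d : ℕ, ∀ t ∈ T, ∀ s : ℕ, (g ^ s)⁻¹ * t * g ^ s ∈ ball T (k * (s + 1) ^ d))
    (h2 : ∃ k d : ℕ, ∀ t ∈ T, ∀ s : ℕ, (g⁻¹ ^ s)⁻¹ * t * g⁻¹ ^ s ∈ ball T (k * (s + 1) ^ d)) :
    PolyG (insert g T) := by
  obtain ⟨k₁, d₁, h1⟩ := h1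
  obtain ⟨k₂, d₂, h2⟩ := h2
  obtain ⟨C, D, hC⟩ := hT
  set k := k₁ + k₂ with hk
  set d := d₁ + d₂ with hd
  refine ⟨2 * C * (k + 1) ^ D, (d + 1) * D + 1, fun n => ?_⟩
  set N := n * (k * (n + 1) ^ d) with hN
  have hsub : ball (insert g T) n ⊆ (fun p : ℤ × G => g ^ p.1 * p.2) ''
      ((Set.Icc (-(n : ℤ)) n) ×ˢ ball T N) := by
    rintro x ⟨l, hl, hx, rfl⟩
    obtain ⟨e, v, he, hv, hp⟩ := v2_list h1 h2 n l hl hx
    refine ⟨(e, v), ⟨?_, ?_⟩, hp.symm⟩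
    · rw [Set.mem_Icc]
      constructor <;> simp only <;> omega
    · exact ball_mono T (Nat.mul_le_mul_right _ hl) hv
  have hfin : ((Set.Icc (-(n : ℤ)) n) ×ˢ ball T N).Finite :=
    (Set.finite_Icc _ _).prod (ball_finite T N)
  have hIcc : (Set.Icc (-(n : ℤ)) n).ncard = 2 * n + 1 := by
    rw [Set.ncard_eq_toFinset_card', Set.toFinset_Icc, Int.card_Icc]
    omega
  have hN1 : N + 1 ≤ (k + 1) * (n + 1) ^ (d + 1) := by
    have h3 : N ≤ k * (n + 1) ^ (d + 1) := by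
      rw [hN, pow_succ]
      calc n * (k * (n + 1) ^ d) = k * ((n + 1) ^ d * n) := by ring
        _ ≤ k * ((n + 1) ^ d * (n + 1)) := by gcongr; omega
    have h4 : 1 ≤ (n + 1) ^ (d + 1) := Nat.one_le_pow _ _ (Nat.succ_pos n)
    calc N + 1 ≤ k * (n + 1) ^ (d + 1) + (n + 1) ^ (d + 1) := Nat.add_le_add h3 h4
      _ = (k + 1) * (n + 1) ^ (d + 1) := by ring
  calc (ball (insert g T) n).ncard
      ≤ ((fun p : ℤ × G => g ^ p.1 * p.2) '' ((Set.Icc (-(n : ℤ)) n) ×ˢ ball T N)).ncard :=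
        Set.ncard_le_ncard hsub (hfin.image _)
    _ ≤ ((Set.Icc (-(n : ℤ)) n) ×ˢ ball T N).ncard := Set.ncard_image_le hfin
    _ = (2 * n + 1) * (ball T N).ncard := by rw [Set.ncard_prod, hIcc]
    _ ≤ (2 * (n + 1)) * (C * (N + 1) ^ D) := by
        gcongr
        · omega
        · exact hC N
    _ ≤ (2 * (n + 1)) * (C * ((k + 1) * (n + 1) ^ (d + 1)) ^ D) := by gcongr
    _ = 2 * C * (k + 1) ^ D * (n + 1) ^ ((d + 1) * D + 1) := by
        rw [mul_pow, ← pow_mul, pow_succ (n + 1) ((d + 1) * D)]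
        ring

end AG
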