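import Pool.Agent.AG.V1
import Pool.Agent.AG.V2
import Pool.Agent.AG.G7

/-!
# [AG-V3] finitely generated nilpotent groups have polynomial growth
-/

set_option autoImplicit false

namespace AG

theorem v3_wf {G : Type*} [Group G] (h : ∀ K : Subgroup G, K.FG) : WellFoundedGT (Subgroup G) := by
  classical
  rw [wellFoundedGT_iff_monotone_chain_condition]
  intro a
  obtain ⟨S, hS⟩ := h (⨆ i, a i)
  have hdir : Directed (· ≤ ·) (fun i => a i) := a.monotone.directed_le
  have hmem : ∀ x ∈ S, ∃ i, x ∈ a i := by
    intro x hx
    have h1 : x ∈ ⨆ i, a i := by rw [← hS]; exact Subgroup.subset_closure hx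
    exact (Subgroup.mem_iSup_of_directed hdir).1 h1
  choose! f hf using hmem
  refine ⟨S.sup f, ?_⟩
  intro m hm
  refine le_antisymm (a.monotone hm) ?_
  have h1 : (⨆ i, a i) ≤ a (S.sup f) := by
    rw [← hS, Subgroup.closure_le]
    intro x hx
    exact a.monotone (Finset.le_sup (f := f) hx) (hf x hx)
  exact le_trans (le_iSup (fun i => a i) m) h1

theorem v3_bot {G : Type*} [Group G] : PolyG (∅ : Finset G) := by
  refine ⟨1, 0, ?_⟩
  intro n
  have : ball (∅ : Finset G) n = {1} := by
    ext x
    constructor
    · rintro ⟨l, _, hl, rfl⟩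
      have : l = [] := by
        cases l with
        | nil => rfl
        | cons y l =>
          have := hl y (by simp)
          simp at this
      rw [this]; simp
    · intro hx
      rw [Set.mem_singleton_iff.1 hx]
      exact one_mem_ball _ _
  rw [this]
  simp

/-- PROOF. Call a subgroup `K` good if `K = closure T` with `PolyG T`; `⊥` is good (`T = ∅`, `ball ∅ n = {1}`). All subgroups of `G` are finitely generated (`fg_of_nilpotent`), so there is a maximal good
subgroup `K = closure T` (ascending chains: the union of a chain is finitely generated; for instance `WellFoundedGT (Subgroup G)` as for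
Noetherian modules, or the following direct argument: if there is no maximal one, choose a strictly increasing sequence `K_i` of good subgroups; the union `⨆ K_i` is generated by a finite set, which lies in some
`K_i`). If `K ≠ ⊤` then `K < normalizer K` (`NormalizerCondition`, `Group.normalizerCondition_of_isNilpotent`), choose `g ∈ normalizer K`, `g ∉ K`; by `distortion` for `g` and for `g⁻¹` and `polyG_insert` the
subgroup `closure (insert g T)` is good and larger than `K`. Contradiction. -/
theorem exists_polyG (G : Type*) [Group G] [Group.FG G] [Group.IsNilpotent G] :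
    ∃ T : Finset G, Subgroup.closure (T : Set G) = ⊤ ∧ PolyG T := by
  classical
  have hwf : WellFoundedGT (Subgroup G) := v3_wf (fun K => fg_of_nilpotent K)
  set P : Set (Subgroup G) := {K | ∃ T : Finset G, Subgroup.closure (T : Set G) = K ∧ PolyG T}
    with hP
  obtain ⟨K, hK, hmax⟩ := hwf.wf.has_min P ⟨⊥, ∅, by simp, v3_bot⟩
  obtain ⟨T, hT, hTP⟩ := hK
  by_cases htop : K = ⊤
  · exact ⟨T, by rw [hT, htop], hTP⟩
  exfalso
  have hlt : K < Subgroup.normalizer (K : Set G) :=
    Group.normalizerCondition_of_isNilpotent K (lt_top_iff_ne_top.2 htop)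
  obtain ⟨g, hgn, hgK⟩ := SetLike.exists_of_lt hlt
  have hg1 : ∀ x ∈ Subgroup.closure (T : Set G), g⁻¹ * x * g ∈ Subgroup.closure (T : Set G) := by
    intro x hx
    rw [hT] at hx ⊢
    have h1 := (Subgroup.mem_normalizer_iff.1 (inv_mem hgn) x).1 hx
    simpa using h1
  have hg2 : ∀ x ∈ Subgroup.closure (T : Set G),
      g⁻¹⁻¹ * x * g⁻¹ ∈ Subgroup.closure (T : Set G) := by
    intro x hx
    rw [hT] at hx ⊢
    have h1 := (Subgroup.mem_normalizer_iff.1 hgn x).1 hx
    simpa using h1
  have h1 := distortion T g hg1
  have h2 := distortion T g⁻¹ hg2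
  have h3 := polyG_insert T g hTP h1 h2
  refine hmax (Subgroup.closure ((insert g T : Finset G) : Set G)) ⟨insert g T, rfl, h3⟩ ?_
  show K < _
  refine lt_of_le_of_ne ?_ ?_
  · rw [← hT]
    exact Subgroup.closure_mono (by simp)
  · intro e
    apply hgK
    rw [e]
    exact Subgroup.subset_closure (by simp)

end AG
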