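import Mathlib

/-!
# [AG-W1] characters of a subgroup of a nilpotent group with a finite orbit
-/

set_option autoImplicit false

namespace AG

/-- PROOF. For `x ∈ M` put `x₀ = x`, `x_{j+1} = x_j⁻¹ * (g⁻¹ * x_j * g) = ⁅x_j⁻¹, g⁻¹⁆ ∈ M`; `x_j` is in the `j`-th term of the lower central series of `N`
(`Subgroup.commutator_mem_commutator`), so `x_c = 1` for some `c` (`Subgroup.nilpotent_iff_lowerCentralSeries`).
Claim: `χ x_j = 1` for all `j ≥ 1`; downward induction on `j`. Suppose that `χ x_l = 1` for all `l ≥ j + 1`, where `j ≥ 1`. By induction on `s`: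
`χ (g^(-s) x_l g^s) = χ x_l` for all `l ≥ j` (`g^(-(s+1)) x_l g^(s+1) = g^(-s) (x_l x_{l+1}) g^s` and `χ (g^(-s) x_{l+1} g^s) = χ x_{l+1} = 1`).
Then by induction on `s`: `χ (g^(-s) x_{j-1} g^s) = χ x_{j-1} * (χ x_j)^s`. For `s = t`: `(χ x_j)^t = 1` (`χ x_{j-1} ≠ 0` because of
`χ y * χ y⁻¹ = χ 1 = 1`), so `χ x_j = 1` by `neat`.
For `j = 1`: `χ (g⁻¹ x g) = χ (x x_1) = χ x`. -/
theorem char_fixed {N : Type*} [Group N] [Group.IsNilpotent N] {F : Type*} [Field F]
    (M : Subgroup N) (g : N) (hg : ∀ x ∈ M, g⁻¹ * x * g ∈ M) (χ : N → F) (h1 : χ 1 = 1)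
    (hmul : ∀ x ∈ M, ∀ y ∈ M, χ (x * y) = χ x * χ y) (t : ℕ) (ht : 0 < t)
    (hper : ∀ x ∈ M, χ ((g ^ t)⁻¹ * x * g ^ t) = χ x)
    (neat : ∀ x ∈ M, ∀ k : ℕ, 0 < k → χ x ^ k = 1 → χ x = 1) :
    ∀ x ∈ M, χ (g⁻¹ * x * g) = χ x := by
  intro x hx
  classical
  -- the iterated commutators
  let y : ℕ → N := fun j => Nat.rec x (fun _ z => z⁻¹ * (g⁻¹ * z * g)) j
  have y0 : y 0 = x := rfl
  have ys : ∀ j, y (j + 1) = (y j)⁻¹ * (g⁻¹ * y j * g) := fun j => rfl
  have hyM : ∀ j, y j ∈ M := by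
    intro j
    induction j with
    | zero => exact hx
    | succ j ih =>
      rw [ys]
      exact M.mul_mem (M.inv_mem ih) (hg _ ih)
  have hyL : ∀ j, y j ∈ (⊤ : Subgroup N).lowerCentralSeries j := by
    intro j
    induction j with
    | zero => simp
    | succ j ih =>
      rw [Subgroup.lowerCentralSeries_succ]
      have := Subgroup.commutator_mem_commutator (Subgroup.inv_mem _ ih)
        (Subgroup.mem_top g⁻¹)
      rw [commutatorElement_def] at this
      rw [ys]
      simpa [mul_assoc] using this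
  obtain ⟨c, hc⟩ := Subgroup.nilpotent_iff_lowerCentralSeries.1 (inferInstance : Group.IsNilpotent N)
  have hyc : ∀ j, c ≤ j → y j = 1 := by
    intro j hj
    have h2 := Subgroup.lowerCentralSeries_antitone (⊤ : Subgroup N) hj (hyL j)
    rw [hc] at h2
    exact Subgroup.mem_bot.1 h2
  -- powers normalize
  have hgp : ∀ (j : ℕ) (x : N), x ∈ M → (g ^ j)⁻¹ * x * g ^ j ∈ M := by
    intro j
    induction j with
    | zero => intro x hx; simpa using hx
    | succ j ih =>
      intro x hx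
      have := hg _ (ih x hx)
      have e : (g ^ (j + 1))⁻¹ * x * g ^ (j + 1) = g⁻¹ * ((g ^ j)⁻¹ * x * g ^ j) * g := by
        rw [pow_succ, mul_inv_rev]; simp only [mul_assoc]
      rw [e]; exact this
  let A : ℕ → ℕ → F := fun j s => χ ((g ^ s)⁻¹ * y j * g ^ s)
  have A0 : ∀ j, A j 0 = χ (y j) := by
    intro j
    change χ ((g ^ 0)⁻¹ * y j * g ^ 0) = χ (y j)
    simp
  have At : ∀ j, A j t = χ (y j) := fun j => hper _ (hyM j)
  have As : ∀ j s, A j (s + 1) = A j s * A (j + 1) s := by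
    intro j s
    change χ ((g ^ (s + 1))⁻¹ * y j * g ^ (s + 1))
      = χ ((g ^ s)⁻¹ * y j * g ^ s) * χ ((g ^ s)⁻¹ * y (j + 1) * g ^ s)
    rw [← hmul _ (hgp s _ (hyM j)) _ (hgp s _ (hyM (j + 1))), ys]
    congr 1
    rw [pow_succ', mul_inv_rev]
    simp only [mul_assoc, mul_inv_cancel_left]
  have hne : ∀ z ∈ M, χ z ≠ 0 := by
    intro z hz h0
    have := hmul z hz z⁻¹ (M.inv_mem hz)
    rw [mul_inv_cancel, h1, h0, zero_mul] at this
    exact one_ne_zero this
  have key : ∀ n j, 1 ≤ j → c ≤ j + n → χ (y j) = 1 := by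
    intro n
    induction n with
    | zero =>
      intro j _ hj
      rw [hyc j (by omega), h1]
    | succ n ih =>
      intro j hj1 hj
      have hl : ∀ l, j + 1 ≤ l → χ (y l) = 1 := fun l hl => ih l (by omega) (by omega)
      have hA1 : ∀ s l, j + 1 ≤ l → A l s = 1 := by
        intro s
        induction s with
        | zero => intro l hl1; rw [A0, hl l hl1]
        | succ s ihs =>
          intro l hl1
          rw [As, ihs l hl1, ihs (l + 1) (by omega), mul_one]
      have hA2 : ∀ s, A j s = χ (y j) := by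
        intro s
        induction s with
        | zero => exact A0 j
        | succ s ihs => rw [As, ihs, hA1 s (j + 1) le_rfl, mul_one]
      obtain ⟨i, rfl⟩ : ∃ i, j = i + 1 := ⟨j - 1, by omega⟩
      have hA3 : ∀ s, A i s = χ (y i) * χ (y (i + 1)) ^ s := by
        intro s
        induction s with
        | zero => rw [A0, pow_zero, mul_one]
        | succ s ihs => rw [As, ihs, hA2 s, pow_succ, mul_assoc]
      have h3 := hA3 t
      rw [At] at h3
      have h4 : χ (y (i + 1)) ^ t = 1 := by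
        have h5 := hne _ (hyM i)
        exact mul_left_cancel₀ h5 (by rw [← h3, mul_one])
      exact neat _ (hyM (i + 1)) t ht h4
  have e1 : g⁻¹ * x * g = x * y 1 := by
    have h2 : y 1 = x⁻¹ * (g⁻¹ * x * g) := ys 0
    rw [h2, mul_inv_cancel_left]
  rw [e1, hmul x hx _ (hyM 1), key c 1 le_rfl (by omega), mul_one]

end AG
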