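import Pool.Agent.AG.W1

/-!
# [AG-W2] common eigenvectors of nilpotent groups
-/

set_option autoImplicit false

namespace AG

/-- One step. `f` is a common eigenvector of `M` with the character `χ`, `g` normalizes `M`: then there is a common eigenvector of `M` and `g` with the same
character on `M`.

PROOF. `M = closure T`, `T` finite. For `j : ℕ` let `χ_j x = χ (g^(-j) x g^j)` (`x ∈ M`); `ρ (g^j) f` is a nonzero common eigenvector of `M` with the
character `χ_j` (`ρ x (ρ (g^j) f) = ρ (g^j) (ρ (g^(-j) x g^j) f)`), so `χ_j t` is an eigenvalue of `ρ t` for `t ∈ T`; these are finitely many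
(`Module.End.finite_hasEigenvalue`), so there are `i < j` with `χ_i = χ_j` on `T` (`Finite.exists_ne_map_eq_of_infinite`), hence on `M` (both are
multiplicative). Replacing `x` by `g^i x g^(-i)` we get `χ = χ_t` on `M`, `t = j - i > 0` (here the inverse of `g` normalizes `M` too). `char_fixed`
(`neat` from the hypothesis: `χ x` is an eigenvalue of `ρ x`): `χ (g⁻¹ x g) = χ x` for `x ∈ M`. So the nonzero
subspace `E' = {e | ∀ x ∈ M, ρ x e = χ x • e}` is mapped into itself by `ρ g`; it contains an eigenvector of `ρ g` (`Module.End.exists_eigenvalue`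
for the restriction of `ρ g` to `E'`). -/
theorem step_eig {N : Type*} [Group N] [Group.IsNilpotent N] {F E : Type*} [Field F]
    [IsAlgClosed F] [AddCommGroup E] [Module F E] [FiniteDimensional F E]
    (ρ : N →* Module.End F E)
    (neat : ∀ (n : N) (z : F) (k : ℕ), 0 < k → z ^ k = 1 → (ρ n).HasEigenvalue z → z = 1)
    (M : Subgroup N) (hM : M.FG) (g : N) (hg : ∀ x ∈ M, g⁻¹ * x * g ∈ M)
    (hg' : ∀ x ∈ M, g * x * g⁻¹ ∈ M) (χ : N → F) (f : E) (hf : f ≠ 0)
    (hχ : ∀ x ∈ M, ρ x f = χ x • f) :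
    ∃ e : E, e ≠ 0 ∧ (∀ x ∈ M, ρ x e = χ x • e) ∧ ∃ z : F, ρ g e = z • e := by
  classical
  obtain ⟨T, hT⟩ := hM
  have hTM : ∀ t ∈ T, t ∈ M := fun t ht => by
    rw [← hT]; exact Subgroup.subset_closure ht
  -- the character is multiplicative
  have h1 : χ 1 = 1 := by
    have := hχ 1 M.one_mem
    rw [map_one, Module.End.one_apply] at this
    have h2 : (χ 1 - 1) • f = 0 := by rw [sub_smul, one_smul, ← this, sub_self]
    rcases smul_eq_zero.1 h2 with h3 | h3
    · exact sub_eq_zero.1 h3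
    · exact absurd h3 hf
  have hmul : ∀ x ∈ M, ∀ y ∈ M, χ (x * y) = χ x * χ y := by
    intro x hx y hy
    have e1 := hχ _ (M.mul_mem hx hy)
    rw [map_mul, Module.End.mul_apply, hχ y hy, map_smul, hχ x hx, smul_smul] at e1
    have h2 : (χ y * χ x - χ (x * y)) • f = 0 := by rw [sub_smul, e1, sub_self]
    rcases smul_eq_zero.1 h2 with h3 | h3
    · rw [← sub_eq_zero.1 h3, mul_comm]
    · exact absurd h3 hf
  -- powers normalize
  have hgp : ∀ (j : ℕ) (x : N), x ∈ M → (g ^ j)⁻¹ * x * g ^ j ∈ M := by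
    intro j
    induction j with
    | zero => intro x hx; simpa using hx
    | succ j ih =>
      intro x hx
      have := hg _ (ih x hx)
      have e : (g ^ (j + 1))⁻¹ * x * g ^ (j + 1) = g⁻¹ * ((g ^ j)⁻¹ * x * g ^ j) * g := by
        rw [pow_succ, mul_inv_rev]; simp only [mul_assoc]
      rw [e]; exact this
  have hgp' : ∀ (j : ℕ) (x : N), x ∈ M → g ^ j * x * (g ^ j)⁻¹ ∈ M := by
    intro j
    induction j with
    | zero => intro x hx; simpa using hx
    | succ j ih =>
      intro x hx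
      have := hg' _ (ih x hx)
      have e : g ^ (j + 1) * x * (g ^ (j + 1))⁻¹ = g * (g ^ j * x * (g ^ j)⁻¹) * g⁻¹ := by
        rw [pow_succ', mul_inv_rev]; simp only [mul_assoc]
      rw [e]; exact this
  -- translates of `f`
  have hinj : ∀ n : N, ∀ e : E, ρ n e = 0 → e = 0 := by
    intro n e he
    have : ρ n⁻¹ (ρ n e) = e := by
      rw [← Module.End.mul_apply, ← map_mul, inv_mul_cancel, map_one, Module.End.one_apply]
    rw [← this, he, map_zero]
  have htr : ∀ (j : ℕ) (x : N), x ∈ M →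
      ρ x (ρ (g ^ j) f) = χ ((g ^ j)⁻¹ * x * g ^ j) • ρ (g ^ j) f := by
    intro j x hx
    rw [← map_smul, ← hχ _ (hgp j x hx), ← Module.End.mul_apply, ← Module.End.mul_apply,
      ← map_mul, ← map_mul]
    congr 2
    simp only [mul_assoc, mul_inv_cancel_left]
  have heig : ∀ (j : ℕ) (x : N), x ∈ M →
      (ρ x).HasEigenvalue (χ ((g ^ j)⁻¹ * x * g ^ j)) := by
    intro j x hx
    apply Module.End.hasEigenvalue_of_hasEigenvector (x := ρ (g ^ j) f)
    rw [Module.End.hasEigenvector_iff]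
    refine ⟨?_, fun h0 => hf (hinj _ _ h0)⟩
    rw [Module.End.mem_eigenspace_iff]
    exact htr j x hx
  -- pigeonhole
  let Φ : ℕ → ((t : T) → {z : F // (ρ (t : N)).HasEigenvalue z}) := fun j t =>
    ⟨χ ((g ^ j)⁻¹ * t * g ^ j), heig j t (hTM t t.2)⟩
  have : ∀ t : T, Finite {z : F // (ρ (t : N)).HasEigenvalue z} := fun t =>
    (Module.End.finite_hasEigenvalue (ρ (t : N))).to_subtype
  obtain ⟨i0, j0, hij0, hΦ0⟩ := Finite.exists_ne_map_eq_of_infinite Φ
  obtain ⟨i, j, hij, hΦ⟩ : ∃ i j, i < j ∧ Φ i = Φ j := by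
    rcases lt_or_gt_of_ne hij0 with h | h
    · exact ⟨i0, j0, h, hΦ0⟩
    · exact ⟨j0, i0, h, hΦ0.symm⟩
  have hχT : ∀ t ∈ T, χ ((g ^ i)⁻¹ * t * g ^ i) = χ ((g ^ j)⁻¹ * t * g ^ j) := by
    intro t ht
    have := congrFun hΦ ⟨t, ht⟩
    exact congrArg Subtype.val this
  -- on all of `M`
  have hmulj : ∀ (k : ℕ) (x y : N), x ∈ M → y ∈ M →
      χ ((g ^ k)⁻¹ * (x * y) * g ^ k)
        = χ ((g ^ k)⁻¹ * x * g ^ k) * χ ((g ^ k)⁻¹ * y * g ^ k) := by
    intro k x y hx hy
    rw [← hmul _ (hgp k x hx) _ (hgp k y hy)]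
    congr 1
    simp only [mul_assoc, mul_inv_cancel_left]
  have hone : ∀ k : ℕ, χ ((g ^ k)⁻¹ * 1 * g ^ k) = 1 := by
    intro k
    rw [mul_one, inv_mul_cancel, h1]
  have hinv : ∀ (k : ℕ) (x : N), x ∈ M →
      χ ((g ^ k)⁻¹ * x * g ^ k) * χ ((g ^ k)⁻¹ * x⁻¹ * g ^ k) = 1 := by
    intro k x hx
    rw [← hmulj k x x⁻¹ hx (M.inv_mem hx), mul_inv_cancel, hone]
  have hχM : ∀ x ∈ M, χ ((g ^ i)⁻¹ * x * g ^ i) = χ ((g ^ j)⁻¹ * x * g ^ j) := by
    intro x hx
    rw [← hT] at hx
    induction hx using Subgroup.closure_induction with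
    | mem t ht => exact hχT t ht
    | one => rw [hone, hone]
    | mul a b ha hb iha ihb =>
      rw [hT] at ha hb
      rw [hmulj i a b ha hb, hmulj j a b ha hb, iha, ihb]
    | inv a ha iha =>
      rw [hT] at ha
      have e1 := hinv i a ha
      have e2 := hinv j a ha
      rw [iha] at e1
      exact mul_left_cancel₀ (left_ne_zero_of_mul_eq_one e2) (e1.trans e2.symm)
  have hper : ∀ x ∈ M, χ ((g ^ (j - i))⁻¹ * x * g ^ (j - i)) = χ x := by
    intro x hx
    have := hχM _ (hgp' i x hx)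
    have e1 : (g ^ i)⁻¹ * (g ^ i * x * (g ^ i)⁻¹) * g ^ i = x := by group
    have e2 : (g ^ j)⁻¹ * (g ^ i * x * (g ^ i)⁻¹) * g ^ j
        = (g ^ (j - i))⁻¹ * x * g ^ (j - i) := by
      have e3 : g ^ j = g ^ i * g ^ (j - i) := by
        rw [← pow_add]; congr 1; omega
      rw [e3, mul_inv_rev]
      simp only [mul_assoc, inv_mul_cancel_left]
    rw [e1, e2] at this
    exact this.symm
  have hfix : ∀ x ∈ M, χ (g⁻¹ * x * g) = χ x := by
    apply char_fixed M g hg χ h1 hmul (j - i) (by omega) hper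
    intro x hx k hk hxk
    have := heig 0 x hx
    rw [pow_zero, inv_one, one_mul, mul_one] at this
    exact neat x _ k hk hxk this
  -- the subspace
  let E' : Submodule F E :=
    { carrier := {e | ∀ x ∈ M, ρ x e = χ x • e}
      add_mem' := by
        intro a b ha hb x hx
        rw [map_add, ha x hx, hb x hx, smul_add]
      zero_mem' := by
        intro x _
        rw [map_zero, smul_zero]
      smul_mem' := by
        intro c a ha x hx
        rw [map_smul, ha x hx, smul_comm] }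
  have hmaps : ∀ e ∈ E', ρ g e ∈ E' := by
    intro e he x hx
    have e1 := he _ (hg x hx)
    rw [hfix x hx] at e1
    rw [← map_smul, ← e1, ← Module.End.mul_apply, ← Module.End.mul_apply,
      ← map_mul, ← map_mul]
    congr 2
    simp only [mul_assoc, mul_inv_cancel_left]
  have : Nontrivial E' := by
    refine ⟨⟨⟨f, hχ⟩, 0, ?_⟩⟩
    intro h
    exact hf (congrArg Subtype.val h)
  obtain ⟨z, hz⟩ := Module.End.exists_eigenvalue ((ρ g).restrict hmaps)
  obtain ⟨e, he⟩ := hz.exists_hasEigenvector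
  refine ⟨e, ?_, e.2, z, ?_⟩
  · intro h
    exact he.2 (Subtype.ext h)
  · have := congrArg Subtype.val he.apply_eq_smul
    exact this

end AG
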