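import Pool.Agent.AG.W2

/-!
# [AG-W4] common eigenvectors of nilpotent groups
-/

set_option autoImplicit false

namespace AG

/-- the elements which preserve the line of `f` -/
def w4_stab {N : Type*} [Group N] {F E : Type*} [Field F] [AddCommGroup E] [Module F E]
    (ρ : N →* Module.End F E) (f : E) : Subgroup N where
  carrier := {x | ∃ z : F, ρ x f = z • f}
  one_mem' := ⟨1, by rw [map_one, one_smul]; rfl⟩
  mul_mem' := by
    rintro x y ⟨z, hz⟩ ⟨w, hw⟩
    refine ⟨w * z, ?_⟩
    rw [map_mul, Module.End.mul_apply, hw, map_smul, hz, smul_smul]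
  inv_mem' := by
    rintro x ⟨z, hz⟩
    have h1 : ρ x⁻¹ (ρ x f) = f := by
      rw [← Module.End.mul_apply, ← map_mul, inv_mul_cancel, map_one]
      rfl
    by_cases h0 : z = 0
    · have hf : f = 0 := by
        rw [hz, h0, zero_smul, map_zero] at h1
        exact h1.symm
      exact ⟨0, by rw [hf, map_zero, smul_zero]⟩
    · refine ⟨z⁻¹, ?_⟩
      rw [hz, map_smul] at h1
      have h2 : ρ x⁻¹ f = z⁻¹ • (z • ρ x⁻¹ f) := by
        rw [smul_smul, inv_mul_cancel₀ h0, one_smul]
      rw [h2, h1]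

/-- a finitely generated directed union is attained -/
theorem w4_chain {N : Type*} [Group N] (c : Set (Subgroup N)) (hc : IsChain (· ≤ ·) c)
    (hne : c.Nonempty) (hfg : (sSup c).FG) : sSup c ∈ c := by
  obtain ⟨T, hT⟩ := hfg
  have hdir : DirectedOn (· ≤ ·) c := hc.directedOn
  have key : ∀ S : Finset N, (∀ t ∈ S, t ∈ sSup c) → ∃ K ∈ c, ∀ t ∈ S, t ∈ K := by
    classical
    intro S
    induction S using Finset.induction_on with
    | empty =>
      intro _
      obtain ⟨K, hK⟩ := hne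
      exact ⟨K, hK, by simp⟩
    | insert a S _ ih =>
      intro hS
      obtain ⟨K, hK, hK2⟩ := ih (fun t ht => hS t (Finset.mem_insert_of_mem ht))
      obtain ⟨L, hL, hL2⟩ := (Subgroup.mem_sSup_of_directedOn hne hdir).1
        (hS a (Finset.mem_insert_self a S))
      obtain ⟨R, hR, hKR, hLR⟩ := hdir K hK L hL
      refine ⟨R, hR, fun t ht => ?_⟩
      rcases Finset.mem_insert.1 ht with rfl | ht
      · exact hLR hL2
      · exact hKR (hK2 t ht)
  obtain ⟨K, hK, hK2⟩ := key T (fun t ht => by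
    rw [← hT]
    exact Subgroup.subset_closure ht)
  have h1 : sSup c ≤ K := by
    rw [← hT, Subgroup.closure_le]
    exact hK2
  have h2 : K = sSup c := le_antisymm (le_sSup hK) h1
  rw [← h2]
  exact hK

/-- **Common eigenvectors.**

PROOF. Let `𝒮` be the set of the subgroups `M` of `N` such that `h ∈ M` and there is `f ≠ 0` with `ρ h f = lam • f` which is an eigenvector of all
`ρ x`, `x ∈ M`. `Subgroup.zpowers h ∈ 𝒮` (eigenvectors of `ρ h` are eigenvectors of its powers; `ρ h⁻¹ f = lam⁻¹ • f`). All subgroups are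
finitely generated, so `𝒮` has a maximal element `M` (Zorn: the union of a chain in `𝒮` is finitely generated, hence equal to an element of the chain; or the ascending
chain condition). If `M ≠ ⊤`, then by `Group.normalizerCondition_of_isNilpotent` there is `g ∉ M` in the normalizer of `M`
(`Subgroup.mem_normalizer_iff`), and `step_eig` (`χ` chosen with `ρ x f = χ x • f` for `x ∈ M`) gives an element of `𝒮` which contains `M` and `g` (the set of the `x` such that `e`
is an eigenvector of `ρ x` is a subgroup); `ρ h e = χ h • e = lam • e`. Contradiction. -/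
theorem exists_eig {N : Type*} [Group N] [Group.IsNilpotent N] (hN : ∀ K : Subgroup N, K.FG)
    {F E : Type*} [Field F] [IsAlgClosed F] [AddCommGroup E] [Module F E] [FiniteDimensional F E]
    (ρ : N →* Module.End F E)
    (neat : ∀ (n : N) (z : F) (k : ℕ), 0 < k → z ^ k = 1 → (ρ n).HasEigenvalue z → z = 1)
    (h : N) (lam : F) (hl : (ρ h).HasEigenvalue lam) :
    ∃ f : E, f ≠ 0 ∧ (∀ n, ∃ z : F, ρ n f = z • f) ∧ ρ h f = lam • f := by
  classical
  let S : Set (Subgroup N) := {M | h ∈ M ∧ ∃ f : E, f ≠ 0 ∧ ρ h f = lam • f ∧ M ≤ w4_stab ρ f}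
  obtain ⟨f₀, hf₀⟩ := hl.exists_hasEigenvector
  have hf₀1 : ρ h f₀ = lam • f₀ := hf₀.apply_eq_smul
  have hf₀2 : f₀ ≠ 0 := hf₀.2
  have hbase : Subgroup.zpowers h ∈ S := by
    refine ⟨Subgroup.mem_zpowers h, f₀, hf₀2, hf₀1, ?_⟩
    rw [Subgroup.zpowers_le]
    exact ⟨lam, hf₀1⟩
  obtain ⟨M, -, hM⟩ := zorn_le_nonempty₀ S (fun c hcS hc y hy =>
    ⟨sSup c, hcS (w4_chain c hc ⟨y, hy⟩ (hN _)), fun z hz => le_sSup hz⟩) _ hbase
  obtain ⟨hMh, f, hf, hfh, hMf⟩ := hM.prop
  by_cases htop : M = ⊤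
  · refine ⟨f, hf, fun n => ?_, hfh⟩
    have hn : n ∈ M := by rw [htop]; exact Subgroup.mem_top n
    exact hMf hn
  · exfalso
    have hlt : M < Subgroup.normalizer (M : Set N) :=
      Group.normalizerCondition_of_isNilpotent M (lt_top_iff_ne_top.2 htop)
    obtain ⟨g, hg, hgM⟩ := SetLike.exists_of_lt hlt
    have hχ : ∃ χ : N → F, ∀ x ∈ M, ρ x f = χ x • f := by
      refine ⟨fun x => if hx : x ∈ M then (hMf hx).choose else 0, fun x hx => ?_⟩
      simp only [dif_pos hx]
      exact (hMf hx).choose_spec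
    obtain ⟨χ, hχ⟩ := hχ
    obtain ⟨e, he, he1, he2⟩ := step_eig ρ neat M (hN M) g
      (fun x hx => (Subgroup.mem_normalizer_iff''.1 hg x).1 hx)
      (fun x hx => (Subgroup.mem_normalizer_iff.1 hg x).1 hx) χ f hf hχ
    have hlam : χ h = lam := by
      have h1 := hχ h hMh
      rw [hfh] at h1
      exact (smul_left_injective F hf h1).symm
    have hM' : M ⊔ Subgroup.zpowers g ∈ S := by
      refine ⟨(le_sup_left : M ≤ _) hMh, e, he, by rw [he1 h hMh, hlam], ?_⟩
      rw [sup_le_iff, Subgroup.zpowers_le]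
      exact ⟨fun x hx => ⟨χ x, he1 x hx⟩, he2⟩
    have h3 : M ⊔ Subgroup.zpowers g ≤ M := hM.le_of_ge hM' le_sup_left
    exact hgM (h3 ((le_sup_right : _ ≤ M ⊔ Subgroup.zpowers g) (Subgroup.mem_zpowers g)))

end AG
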